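import Pool.Agent.T6.H77.DW.Stm

/-!
# Good points on a smooth conic over a large finite field; from nice to ordinary points
-/

set_option autoImplicit false

namespace Pool.Agent.T6.H77.DW

namespace C1FN

section gen

variable {k : Type} [Field k]

theorem sum3 {i₀ i₁ i₂ : Fin 3} (h01 : i₀ ≠ i₁) (h02 : i₀ ≠ i₂) (h12 : i₁ ≠ i₂) (f : Fin 3 → k) :
    ∑ i, f i = f i₀ + f i₁ + f i₂ := by
  rw [Fin.sum_univ_three]
  fin_cases i₀ <;> fin_cases i₁ <;> fin_cases i₂ <;> simp_all <;> ring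

theorem third (i₀ : Fin 3) : ∃ i₁ i₂ : Fin 3, i₀ ≠ i₁ ∧ i₀ ≠ i₂ ∧ i₁ ≠ i₂ := by
  fin_cases i₀
  · exact ⟨1, 2, by decide, by decide, by decide⟩
  · exact ⟨0, 2, by decide, by decide, by decide⟩
  · exact ⟨0, 1, by decide, by decide, by decide⟩

theorem other (i j : Fin 3) (h : i ≠ j) : ∃ l : Fin 3, l ≠ i ∧ l ≠ j := by
  fin_cases i <;> fin_cases j <;> first | exact absurd rfl h | skip
  · exact ⟨2, by decide, by decide⟩
  · exact ⟨1, by decide, by decide⟩
  · exact ⟨2, by decide, by decide⟩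
  · exact ⟨0, by decide, by decide⟩
  · exact ⟨1, by decide, by decide⟩
  · exact ⟨0, by decide, by decide⟩

theorem all3 {i₀ i₁ i₂ : Fin 3} (h01 : i₀ ≠ i₁) (h02 : i₀ ≠ i₂) (h12 : i₁ ≠ i₂) (i : Fin 3) :
    i = i₀ ∨ i = i₁ ∨ i = i₂ := by
  fin_cases i₀ <;> fin_cases i₁ <;> fin_cases i₂ <;> fin_cases i <;> simp_all

theorem fm_tr (a : Fin 3 → Fin 3 → k) (x y : Fin 3 → k) : fm (tr a) y x = fm a x y := by
  unfold fm lf tr
  simp only [Fin.sum_univ_three]
  ring

theorem gd_tr {a : Fin 3 → Fin 3 → k} (h : Gd a) : Gd (tr a) := by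
  refine ⟨h.two, fun i j => h.ent j i, fun i i' j j' hi hj => ?_, ?_⟩
  · have := h.min j j' i i' hj hi
    show a j i * a j' i' ≠ a j' i * a j i'
    intro h1
    apply this
    rw [h1]; ring
  · have h1 : Matrix.of (tr a) = (Matrix.of a).transpose := by
      ext i j; rfl
    rw [h1, Matrix.det_transpose]
    exact h.det

theorem ord_tr {a : Fin 3 → Fin 3 → k} {x y : Fin 3 → k} (h : Ord (tr a) y x) : Ord a x y :=
  ⟨by rw [← fm_tr]; exact h.on, h.hy, h.hx⟩

theorem mv_tr {a : Fin 3 → Fin 3 → k} {p q : (Fin 3 → k) × (Fin 3 → k)} (h : Mv (tr a) p q) :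
    Mv a p.swap q.swap := by
  rcases h with ⟨h1, h2⟩ | ⟨h1, h2⟩
  · exact Or.inr ⟨h1, h2⟩
  · exact Or.inl ⟨h1, h2⟩

theorem ch_tr {a : Fin 3 → Fin 3 → k} {n : ℕ} {p q : (Fin 3 → k) × (Fin 3 → k)}
    (h : Ch (tr a) n p q) : Ch a n p.swap q.swap := by
  induction h with
  | refl n p => exact Ch.refl n _
  | step n p q r _ hr hm ih =>
    refine Ch.step n _ _ _ ih ?_ (mv_tr hm)
    show fm a r.2 r.1 = 0
    rw [← fm_tr]; exact hr

theorem ch_one {a : Fin 3 → Fin 3 → k} {p q : (Fin 3 → k) × (Fin 3 → k)} (hq : fm a q.1 q.2 = 0)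
    (hm : Mv a p q) (n : ℕ) : Ch a (n + 1) p q := Ch.step n p p q (Ch.refl n p) hq hm

/-- the cross product of `L(y)` and a column is not zero -/
theorem cross_ne {a : Fin 3 → Fin 3 → k} (h : Gd a) {y : Fin 3 → k} (hy : Ns y) (j : Fin 3)
    (h0 : ∀ i i', lf a y i * a i' j = lf a y i' * a i j) : False := by
  have hdet := h.det
  rw [Matrix.det_fin_three] at hdet
  simp only [Matrix.of_apply] at hdet
  have h01 := h0 0 1
  have h02 := h0 0 2
  have h12 := h0 1 2
  unfold lf at h01 h02 h12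
  simp only [Fin.sum_univ_three] at h01 h02 h12
  obtain ⟨i, i', hne, hi, hi'⟩ := hy
  fin_cases j
  · have e1 : y 1 ^ 2 = 0 := by
      apply (mul_eq_zero.1 _).resolve_left hdet
      simp only [Fin.zero_eta, Fin.isValue] at h01 h02 h12
      linear_combination -(a 2 2) * h01 + a 1 2 * h02 - a 0 2 * h12
    have e2 : y 2 ^ 2 = 0 := by
      apply (mul_eq_zero.1 _).resolve_left hdet
      simp only [Fin.zero_eta, Fin.isValue] at h01 h02 h12
      linear_combination (a 2 1) * h01 - a 1 1 * h02 + a 0 1 * h12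
    have f1 : y 1 = 0 := by simpa using e1
    have f2 : y 2 = 0 := by simpa using e2
    fin_cases i <;> fin_cases i' <;> simp_all
  · have e1 : y 0 ^ 2 = 0 := by
      apply (mul_eq_zero.1 _).resolve_left hdet
      simp only [Fin.mk_one, Fin.isValue] at h01 h02 h12
      linear_combination (a 2 2) * h01 - a 1 2 * h02 + a 0 2 * h12
    have e2 : y 2 ^ 2 = 0 := by
      apply (mul_eq_zero.1 _).resolve_left hdet
      simp only [Fin.mk_one, Fin.isValue] at h01 h02 h12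
      linear_combination -(a 2 0) * h01 + a 1 0 * h02 - a 0 0 * h12
    have f1 : y 0 = 0 := by simpa using e1
    have f2 : y 2 = 0 := by simpa using e2
    fin_cases i <;> fin_cases i' <;> simp_all
  · have e1 : y 0 ^ 2 = 0 := by
      apply (mul_eq_zero.1 _).resolve_left hdet
      simp only [Fin.reduceFinMk, Fin.isValue] at h01 h02 h12
      linear_combination -(a 2 1) * h01 + a 1 1 * h02 - a 0 1 * h12
    have e2 : y 1 ^ 2 = 0 := by
      apply (mul_eq_zero.1 _).resolve_left hdet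
      simp only [Fin.reduceFinMk, Fin.isValue] at h01 h02 h12
      linear_combination (a 2 0) * h01 - a 1 0 * h02 + a 0 0 * h12
    have f1 : y 0 = 0 := by simpa using e1
    have f2 : y 1 = 0 := by simpa using e2
    fin_cases i <;> fin_cases i' <;> simp_all

end gen

section count

variable {k : Type} [Field k] [Fintype k]

theorem bad_j {a : Fin 3 → Fin 3 → k} (h : Gd a) {y : Fin 3 → k} (hy : Ns y) (j : Fin 3) :
    {x' : Fin 3 → k | fm a x' y = 0 ∧ lf (tr a) x' j = 0}.ncard ≤ 8 * Fintype.card k := by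
  classical
  have hσ : ∀ w : k, ∃ z : k, (∃ u, u ^ 2 = w) → z ^ 2 = w := by
    intro w
    by_cases hw : ∃ u, u ^ 2 = w
    · obtain ⟨u, hu⟩ := hw
      exact ⟨u, fun _ => hu⟩
    · exact ⟨0, fun h => absurd h hw⟩
  choose σ hσ using hσ
  have hpm : ∀ x : k, x = σ (x ^ 2) ∨ x = -σ (x ^ 2) := by
    intro x
    have h1 := hσ (x ^ 2) ⟨x, rfl⟩
    exact sq_eq_sq_iff_eq_or_eq_neg.1 h1.symm
  obtain ⟨n, hn⟩ : ∃ n : Fin 3 → k, (∃ i₀, n i₀ ≠ 0) ∧ ∀ X : Fin 3 → k,
      ∑ i, lf a y i * X i = 0 → ∑ i, a i j * X i = 0 → ∀ i i', X i * n i' = X i' * n i := by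
    refine ⟨![lf a y 1 * a 2 j - lf a y 2 * a 1 j, lf a y 2 * a 0 j - lf a y 0 * a 2 j,
      lf a y 0 * a 1 j - lf a y 1 * a 0 j], ?_, ?_⟩
    · by_contra hcon
      push Not at hcon
      have e0 := hcon 0
      have e1 := hcon 1
      have e2 := hcon 2
      simp only [Matrix.cons_val_zero, Matrix.cons_val_one, Matrix.cons_val] at e0 e1 e2
      apply cross_ne h hy j
      intro i i'
      fin_cases i <;> fin_cases i'
      · rfl
      · simp only [Fin.zero_eta, Fin.mk_one, Fin.isValue, Fin.reduceFinMk]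
        linear_combination e2
      · simp only [Fin.zero_eta, Fin.mk_one, Fin.isValue, Fin.reduceFinMk]
        linear_combination -e1
      · simp only [Fin.zero_eta, Fin.mk_one, Fin.isValue, Fin.reduceFinMk]
        linear_combination -e2
      · rfl
      · simp only [Fin.zero_eta, Fin.mk_one, Fin.isValue, Fin.reduceFinMk]
        linear_combination e0
      · simp only [Fin.zero_eta, Fin.mk_one, Fin.isValue, Fin.reduceFinMk]
        linear_combination e1
      · simp only [Fin.zero_eta, Fin.mk_one, Fin.isValue, Fin.reduceFinMk]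
        linear_combination -e0
      · rfl
    · intro X h1 h2
      rw [Fin.sum_univ_three] at h1 h2
      have k01 : X 0 * (lf a y 2 * a 0 j - lf a y 0 * a 2 j) =
          X 1 * (lf a y 1 * a 2 j - lf a y 2 * a 1 j) := by
        linear_combination (lf a y 2) * h2 - (a 2 j) * h1
      have k02 : X 0 * (lf a y 0 * a 1 j - lf a y 1 * a 0 j) =
          X 2 * (lf a y 1 * a 2 j - lf a y 2 * a 1 j) := by
        linear_combination (a 1 j) * h1 - (lf a y 1) * h2
      have k12 : X 1 * (lf a y 0 * a 1 j - lf a y 1 * a 0 j) =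
          X 2 * (lf a y 2 * a 0 j - lf a y 0 * a 2 j) := by
        linear_combination (lf a y 0) * h2 - (a 0 j) * h1
      intro i i'
      fin_cases i <;> fin_cases i'
      · rfl
      · exact k01
      · exact k02
      · exact k01.symm
      · rfl
      · exact k12
      · exact k02.symm
      · exact k12.symm
      · rfl
  obtain ⟨⟨i₀, hi₀⟩, hX⟩ := hn
  let g : k × (Fin 3 → Bool) → (Fin 3 → k) := fun p i =>
    if p.2 i = true then σ (p.1 * n i) else -σ (p.1 * n i)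
  have hsub : {x' : Fin 3 → k | fm a x' y = 0 ∧ lf (tr a) x' j = 0} ⊆ g '' Set.univ := by
    rintro x ⟨h1, h2⟩
    have h3 := hX (fun i => x i ^ 2) h1 h2
    set t : k := x i₀ ^ 2 / n i₀ with ht
    have h4 : ∀ i, x i ^ 2 = t * n i := by
      intro i
      rw [ht, div_mul_eq_mul_div, eq_div_iff hi₀]
      exact h3 i i₀
    refine ⟨(t, fun i => decide (x i = σ (x i ^ 2))), Set.mem_univ _, ?_⟩
    funext i
    show (if decide (x i = σ (x i ^ 2)) = true then σ (t * n i) else -σ (t * n i)) = x i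
    rw [← h4 i]
    by_cases hx : x i = σ (x i ^ 2)
    · rw [if_pos (by simpa using hx)]
      exact hx.symm
    · rw [if_neg (by simpa using hx)]
      exact ((hpm (x i)).resolve_left hx).symm
  refine (Set.ncard_le_ncard hsub (Set.toFinite _)).trans ((Set.ncard_image_le (Set.toFinite _)).trans ?_)
  rw [Set.ncard_univ, Nat.card_eq_fintype_card, Fintype.card_prod]
  simp
  omega

theorem bad_p (hS : StmSC) {a : Fin 3 → Fin 3 → k} {y : Fin 3 → k}
    (hL : ∀ i, lf a y i ≠ 0) {x : Fin 3 → k} (hx : x ≠ 0) (hf : fm a x y = 0) :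
    {x' : Fin 3 → k | fm a x' y = 0 ∧ pl a y x x' = 0}.ncard ≤ Fintype.card k := by
  classical
  obtain ⟨i₀, hi₀⟩ : ∃ i, x i ≠ 0 := by
    by_contra hcon
    push Not at hcon
    exact hx (funext hcon)
  have hsub : {x' : Fin 3 → k | fm a x' y = 0 ∧ pl a y x x' = 0} ⊆
      (fun (t : k) => fun i => t * x i) '' Set.univ := by
    rintro x' ⟨h1, h2⟩
    have h3 := hS k (lf a y) x x' hL hf h1 h2
    refine ⟨x' i₀ / x i₀, Set.mem_univ _, ?_⟩
    funext i
    show x' i₀ / x i₀ * x i = x' i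
    rw [div_mul_eq_mul_div, div_eq_iff hi₀]
    have := h3 i₀ i
    linear_combination -this
  refine (Set.ncard_le_ncard hsub (Set.toFinite _)).trans ((Set.ncard_image_le (Set.toFinite _)).trans ?_)
  rw [Set.ncard_univ, Nat.card_eq_fintype_card]

end count

end C1FN

open C1FN

theorem c1 (hS : StmSC) (hC : StmCNT) : StmC1 := by
  intro k _ _ a h y hy hL x hx hf
  classical
  have hcard := hC k h.two (lf a y) hL
  have h0 := bad_j h hy 0
  have h1 := bad_j h hy 1
  have h2 := bad_j h hy 2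
  have hp := bad_p hS hL hx hf
  set G := {x' : Fin 3 → k | fm a x' y = 0 ∧ (∀ j, lf (tr a) x' j ≠ 0) ∧ pl a y x x' ≠ 0} with hG
  set B0 := {x' : Fin 3 → k | fm a x' y = 0 ∧ lf (tr a) x' 0 = 0}
  set B1 := {x' : Fin 3 → k | fm a x' y = 0 ∧ lf (tr a) x' 1 = 0}
  set B2 := {x' : Fin 3 → k | fm a x' y = 0 ∧ lf (tr a) x' 2 = 0}
  set P := {x' : Fin 3 → k | fm a x' y = 0 ∧ pl a y x x' = 0}
  have hsub : {x : Fin 3 → k | ∑ i, lf a y i * x i ^ 2 = 0} ⊆ G ∪ (B0 ∪ (B1 ∪ (B2 ∪ P))) := by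
    intro x' hx'
    have hx'' : fm a x' y = 0 := hx'
    by_cases e0 : lf (tr a) x' 0 = 0
    · exact Or.inr (Or.inl ⟨hx'', e0⟩)
    by_cases e1 : lf (tr a) x' 1 = 0
    · exact Or.inr (Or.inr (Or.inl ⟨hx'', e1⟩))
    by_cases e2 : lf (tr a) x' 2 = 0
    · exact Or.inr (Or.inr (Or.inr (Or.inl ⟨hx'', e2⟩)))
    by_cases e3 : pl a y x x' = 0
    · exact Or.inr (Or.inr (Or.inr (Or.inr ⟨hx'', e3⟩)))
    refine Or.inl ⟨hx'', fun j => ?_, e3⟩
    fin_cases j
    · exact e0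
    · exact e1
    · exact e2
  have hle := Set.ncard_le_ncard hsub (Set.toFinite _)
  have u1 := Set.ncard_union_le G (B0 ∪ (B1 ∪ (B2 ∪ P)))
  have u2 := Set.ncard_union_le B0 (B1 ∪ (B2 ∪ P))
  have u3 := Set.ncard_union_le B1 (B2 ∪ P)
  have u4 := Set.ncard_union_le B2 P
  rw [hcard] at hle
  omega

namespace C1FN

section fnn

variable {k : Type} [Field k] [Fintype k]

theorem ns_ne {x : Fin 3 → k} (h : Ns x) : x ≠ 0 := by
  rintro rfl
  obtain ⟨i, _, _, hi, _⟩ := h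
  exact hi rfl

theorem caseA (hC : StmC1) (hq : 31 ≤ Fintype.card k) {a : Fin 3 → Fin 3 → k} (h : Gd a)
    {x y : Fin 3 → k} (hx : x ≠ 0) (hy : Ns y) (hL : ∀ i, lf a y i ≠ 0) (hf : fm a x y = 0) :
    ∃ x', Ord a x' y ∧ pl a y x x' ≠ 0 := by
  have h1 := hC k a h y hy hL x hx hf
  have h2 : 0 < {x' : Fin 3 → k | fm a x' y = 0 ∧ (∀ j, lf (tr a) x' j ≠ 0) ∧
      pl a y x x' ≠ 0}.ncard := by
    by_contra hcon
    have h0 : {x' : Fin 3 → k | fm a x' y = 0 ∧ (∀ j, lf (tr a) x' j ≠ 0) ∧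
      pl a y x x' ≠ 0}.ncard = 0 := by omega
    rw [h0] at h1
    nlinarith
  obtain ⟨x', h3, h4, h5⟩ := (Set.ncard_pos (Set.toFinite _)).1 h2
  exact ⟨x', ⟨h3, h4, hL⟩, h5⟩

theorem caseA' (hC : StmC1) (hq : 31 ≤ Fintype.card k) {a : Fin 3 → Fin 3 → k} (h : Gd a)
    {x y : Fin 3 → k} (hx : Ns x) (hy : y ≠ 0) (hM : ∀ j, lf (tr a) x j ≠ 0)
    (hf : fm a x y = 0) : ∃ y', Ord a x y' ∧ pl (tr a) x y y' ≠ 0 := by
  obtain ⟨y', h1, h2⟩ := caseA hC hq (gd_tr h) hy hx hM (by rw [fm_tr]; exact hf)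
  exact ⟨y', ord_tr h1, h2⟩

theorem case2 (hC : StmC1) (hq : 31 ≤ Fintype.card k) {a : Fin 3 → Fin 3 → k} (h : Gd a)
    {x y : Fin 3 → k} (hx : Ns x) (hy : Ns y) (hf : fm a x y = 0) (i₀ : Fin 3)
    (hL : ∀ i, i ≠ i₀ → lf a y i ≠ 0) :
    ∃ p : (Fin 3 → k) × (Fin 3 → k), Ch a 2 (x, y) p ∧ Ord a p.1 p.2 := by
  classical
  by_cases hL0 : lf a y i₀ = 0
  · obtain ⟨i₁, i₂, h01, h02, h12⟩ := third i₀
    have hL1 := hL i₁ h01.symm
    have hL2 := hL i₂ h02.symm
    have hf' : lf a y i₁ * x i₁ ^ 2 + lf a y i₂ * x i₂ ^ 2 = 0 := by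
      have : fm a x y = lf a y i₀ * x i₀ ^ 2 + lf a y i₁ * x i₁ ^ 2 + lf a y i₂ * x i₂ ^ 2 :=
        sum3 h01 h02 h12 _
      rw [hf, hL0] at this
      rw [eq_comm] at this
      simpa using this
    have hx1 : x i₁ ≠ 0 := by
      intro h0
      rw [h0] at hf'
      have h2 : x i₂ = 0 := by
        have : lf a y i₂ * x i₂ ^ 2 = 0 := by simpa using hf'
        simpa [hL2] using this
      obtain ⟨i, j, hij, hi, hj⟩ := hx
      rcases all3 h01 h02 h12 i with rfl | rfl | rfl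
      · rcases all3 h01 h02 h12 j with rfl | rfl | rfl
        · exact hij rfl
        · exact hj h0
        · exact hj h2
      · exact hi h0
      · exact hi h2
    have hx2 : x i₂ ≠ 0 := by
      intro h0
      rw [h0] at hf'
      have : lf a y i₁ * x i₁ ^ 2 = 0 := by simpa using hf'
      rcases mul_eq_zero.1 this with h3 | h3
      · exact hL1 h3
      · exact hx1 (by simpa using h3)
    -- choice of the free coordinate
    have hr : ∀ j : Fin 3, ∃ r : k, ∀ s : k,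
        a i₀ j * s ^ 2 + a i₁ j * x i₁ ^ 2 + a i₂ j * x i₂ ^ 2 = 0 → s = r ∨ s = -r := by
      intro j
      by_cases he : ∃ r : k, a i₀ j * r ^ 2 + a i₁ j * x i₁ ^ 2 + a i₂ j * x i₂ ^ 2 = 0
      · obtain ⟨r, hr⟩ := he
        refine ⟨r, fun s hs => ?_⟩
        apply sq_eq_sq_iff_eq_or_eq_neg.1
        apply mul_left_cancel₀ (h.ent i₀ j)
        linear_combination hs - hr
      · exact ⟨0, fun s hs => absurd ⟨s, hs⟩ he⟩
    choose r hr using hr
    let T : Finset k := (Finset.univ.image r) ∪ (Finset.univ.image fun j => -r j)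
    have hT : T.card ≤ 6 := by
      refine (Finset.card_union_le _ _).trans ?_
      have h1 : (Finset.univ.image r).card ≤ 3 := Finset.card_image_le.trans (by simp)
      have h2 : (Finset.univ.image fun j => -r j).card ≤ 3 := Finset.card_image_le.trans (by simp)
      omega
    obtain ⟨s, hs⟩ : ∃ s : k, s ∉ T := by
      by_contra hcon
      push Not at hcon
      have : T = Finset.univ := Finset.eq_univ_iff_forall.2 hcon
      rw [this, Finset.card_univ] at hT
      omega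
    have hs' : ∀ j, a i₀ j * s ^ 2 + a i₁ j * x i₁ ^ 2 + a i₂ j * x i₂ ^ 2 ≠ 0 := by
      intro j h0
      apply hs
      rcases hr j s h0 with h1 | h1
      · exact Finset.mem_union_left _ (Finset.mem_image.2 ⟨j, Finset.mem_univ _, h1.symm⟩)
      · exact Finset.mem_union_right _ (Finset.mem_image.2 ⟨j, Finset.mem_univ _, h1.symm⟩)
    let x' : Fin 3 → k := fun i => if i = i₀ then s else if i = i₁ then x i₁ else -x i₂
    have e0 : x' i₀ = s := by simp [x']
    have e1 : x' i₁ = x i₁ := by simp [x', h01.symm]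
    have e2 : x' i₂ = -x i₂ := by simp [x', h02.symm, h12.symm]
    clear_value x'
    have hfx' : fm a x' y = 0 := by
      have : fm a x' y = lf a y i₀ * x' i₀ ^ 2 + lf a y i₁ * x' i₁ ^ 2 + lf a y i₂ * x' i₂ ^ 2 :=
        sum3 h01 h02 h12 _
      rw [this, e1, e2, hL0]
      linear_combination hf'
    have hpl : pl a y x x' ≠ 0 := by
      have : pl a y x x' = lf a y i₀ * x i₀ * x' i₀ + lf a y i₁ * x i₁ * x' i₁ +
          lf a y i₂ * x i₂ * x' i₂ := sum3 h01 h02 h12 _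
      rw [this, e1, e2, hL0]
      have h3 : (0 : k) * x i₀ * x' i₀ + lf a y i₁ * x i₁ * x i₁ + lf a y i₂ * x i₂ * -x i₂ =
          2 * (lf a y i₁ * x i₁ ^ 2) := by linear_combination -hf'
      rw [h3]
      exact mul_ne_zero h.two (mul_ne_zero hL1 (pow_ne_zero _ hx1))
    have hM : ∀ j, lf (tr a) x' j ≠ 0 := by
      intro j
      have : lf (tr a) x' j = tr a j i₀ * x' i₀ ^ 2 + tr a j i₁ * x' i₁ ^ 2 +
          tr a j i₂ * x' i₂ ^ 2 := sum3 h01 h02 h12 _
      rw [this, e0, e1, e2]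
      have h3 := hs' j
      unfold tr
      rwa [neg_sq]
    have hNs : Ns x' := ⟨i₁, i₂, h12, by rw [e1]; exact hx1, by rw [e2]; exact neg_ne_zero.2 hx2⟩
    obtain ⟨y', hO, hpl'⟩ := caseA' hC hq h hNs (ns_ne hy) hM hfx'
    have hm1 : Mv a (x, y) (x', y) := Or.inl ⟨rfl, hpl⟩
    have hm2 : Mv a (x', y) (x', y') := Or.inr ⟨rfl, hpl'⟩
    have hc1 : Ch a 1 (x, y) (x', y) := ch_one (p := (x, y)) (q := (x', y)) hfx' hm1 0
    have hon : fm a (x', y').1 (x', y').2 = 0 := hO.on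
    have hc2 : Ch a (1 + 1) (x, y) (x', y') := Ch.step 1 _ _ _ hc1 hon hm2
    have hO' : Ord a (x', y').1 (x', y').2 := hO
    exact ⟨(x', y'), hc2, hO'⟩
  · have hall : ∀ i, lf a y i ≠ 0 := by
      intro i
      by_cases hi : i = i₀
      · rw [hi]; exact hL0
      · exact hL i hi
    obtain ⟨x', hO, hpl⟩ := caseA hC hq h (ns_ne hx) hy hall hf
    have hm1 : Mv a (x, y) (x', y) := Or.inl ⟨rfl, hpl⟩
    exact ⟨(x', y), ch_one (p := (x, y)) (q := (x', y)) hO.on hm1 1, hO⟩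

end fnn

end C1FN

theorem fn (hC : StmC1) : StmFN := by
  refine ⟨31, fun k _ _ hq a h x y hx hy hf => ?_⟩
  classical
  by_cases h1 : ∃ i₀, ∀ i, i ≠ i₀ → lf a y i ≠ 0
  · obtain ⟨i₀, hi₀⟩ := h1
    exact case2 hC hq h hx hy hf i₀ hi₀
  · push Not at h1
    -- two zeros of `L(y)`
    obtain ⟨i₁, -, hi₁⟩ := h1 0
    obtain ⟨i₂, hne, hi₂⟩ := h1 i₁
    obtain ⟨i₀, h01, h02⟩ := other i₁ i₂ hne.symm
    have h12 : i₁ ≠ i₂ := hne.symm
    have hL0 : lf a y i₀ ≠ 0 := by
      intro h0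
      apply cross_ne h hy 0
      intro i i'
      have hz : ∀ i, lf a y i = 0 := by
        intro i
        rcases all3 h01 h02 h12 i with rfl | rfl | rfl
        · exact h0
        · exact hi₁
        · exact hi₂
      rw [hz i, hz i', zero_mul, zero_mul]
    have hx0 : x i₀ = 0 := by
      have h3 : fm a x y = lf a y i₀ * x i₀ ^ 2 + lf a y i₁ * x i₁ ^ 2 + lf a y i₂ * x i₂ ^ 2 :=
        sum3 h01 h02 h12 _
      rw [hf, hi₁, hi₂] at h3
      have h4 : lf a y i₀ * x i₀ ^ 2 = 0 := by linear_combination -h3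
      rcases mul_eq_zero.1 h4 with h5 | h5
      · exact absurd h5 hL0
      · simpa using h5
    have hx12 : x i₁ ≠ 0 ∧ x i₂ ≠ 0 := by
      obtain ⟨i, j, hij, hi, hj⟩ := hx
      rcases all3 h01 h02 h12 i with rfl | rfl | rfl
      · exact absurd hx0 hi
      · rcases all3 h01 h02 h12 j with rfl | rfl | rfl
        · exact absurd hx0 hj
        · exact absurd rfl hij
        · exact ⟨hi, hj⟩
      · rcases all3 h01 h02 h12 j with rfl | rfl | rfl
        · exact absurd hx0 hj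
        · exact ⟨hj, hi⟩
        · exact absurd rfl hij
    have hMeq : ∀ j, lf (tr a) x j = a i₁ j * x i₁ ^ 2 + a i₂ j * x i₂ ^ 2 := by
      intro j
      have h3 : lf (tr a) x j = tr a j i₀ * x i₀ ^ 2 + tr a j i₁ * x i₁ ^ 2 +
          tr a j i₂ * x i₂ ^ 2 := sum3 h01 h02 h12 _
      rw [h3, hx0]
      unfold tr
      ring
    have hM : ∀ j j', j ≠ j' → lf (tr a) x j = 0 → lf (tr a) x j' ≠ 0 := by
      intro j j' hjj h3 h4
      rw [hMeq] at h3 h4
      apply h.min i₁ i₂ j j' h12 hjj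
      have h5 : x i₂ ^ 2 ≠ 0 := pow_ne_zero _ hx12.2
      apply mul_right_cancel₀ h5
      linear_combination (a i₁ j) * h4 - (a i₁ j') * h3
    have hj₀ : ∃ j₀, ∀ j, j ≠ j₀ → lf (tr a) x j ≠ 0 := by
      by_cases h3 : ∃ j₀, lf (tr a) x j₀ = 0
      · obtain ⟨j₀, h3⟩ := h3
        exact ⟨j₀, fun j hj => hM j₀ j hj.symm h3⟩
      · push Not at h3
        exact ⟨0, fun j _ => h3 j⟩
    obtain ⟨j₀, hj₀⟩ := hj₀
    obtain ⟨p, hp, hO⟩ := case2 hC hq (gd_tr h) hy hx (by rw [fm_tr]; exact hf) j₀ hj₀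
    exact ⟨p.swap, ch_tr hp, ord_tr hO⟩

end Pool.Agent.T6.H77.DW
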