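import Pool.Agent.T6.H77.DW.RED

/-!
# The closure of the rational points is stable under moves (helper51, module CLO)
-/

set_option autoImplicit false

open Filter Topology

namespace Pool.Agent.T6.H77.DW

namespace CLO

section alg

variable {k : Type} [Field k] (a : Fin 3 → Fin 3 → k)

theorem fm_add (x u y : Fin 3 → k) (c : k) :
    fm a (x + c • u) y = fm a x y + c * (2 * pl a y x u) + c ^ 2 * fm a u y := by
  simp only [fm, pl, Fin.sum_univ_three, Pi.add_apply, Pi.smul_apply, smul_eq_mul]; ring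

theorem pl_sub (x x' y : Fin 3 → k) : pl a y x (x - x') = fm a x y - pl a y x x' := by
  simp only [fm, pl, Fin.sum_univ_three, Pi.sub_apply]; ring

theorem fm_sub (x x' y : Fin 3 → k) :
    fm a (x - x') y = fm a x y + fm a x' y - 2 * pl a y x x' := by
  simp only [fm, pl, Fin.sum_univ_three, Pi.sub_apply]; ring

/-- the second point of the line through `x` in direction `u` -/
noncomputable def rf (y u x : Fin 3 → k) : Fin 3 → k := x + (-(2 * pl a y x u) / fm a u y) • u

theorem rf_on {x u y : Fin 3 → k} (h : fm a x y = 0) (hu : fm a u y ≠ 0) :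
    fm a (rf a y u x) y = 0 := by
  rw [rf, fm_add, h]
  field_simp
  ring

theorem rf_eq {x x' y : Fin 3 → k} (h2 : (2 : k) ≠ 0) (h : fm a x y = 0) (h' : fm a x' y = 0)
    (hp : pl a y x x' ≠ 0) : fm a (x - x') y ≠ 0 ∧ rf a y (x - x') x = x' := by
  have h1 : fm a (x - x') y = - (2 * pl a y x x') := by rw [fm_sub, h, h']; ring
  have h3 : pl a y x (x - x') = - pl a y x x' := by rw [pl_sub, h]; ring
  refine ⟨?_, ?_⟩
  · rw [h1]
    exact neg_ne_zero.2 (mul_ne_zero h2 hp)
  · rw [rf, h1, h3]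
    have : -(2 * -pl a y x x') / -(2 * pl a y x x') = -1 := by
      have h4 : 2 * pl a y x x' ≠ 0 := mul_ne_zero h2 hp
      field_simp
    rw [this]
    funext i
    simp

theorem rf_stay {x y : Fin 3 → k} (h : Ord a x y) : ∃ u, fm a u y ≠ 0 ∧ rf a y u x = x := by
  have key : ∃ u, fm a u y ≠ 0 ∧ pl a y x u = 0 := by
    have h0 := h.on
    have hx : ∃ s, x s ≠ 0 := by
      by_contra hc
      push Not at hc
      exact h.hx 0 (by simp [lf, hc])
    simp only [fm, Fin.sum_univ_three] at h0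
    have l0 := h.hy 0
    have l1 := h.hy 1
    have l2 := h.hy 2
    obtain ⟨s, hs⟩ := hx
    fin_cases s
    · refine ⟨![0, lf a y 2 * x 2, - (lf a y 1 * x 1)], ?_, ?_⟩
      · have : fm a ![0, lf a y 2 * x 2, - (lf a y 1 * x 1)] y =
            - (lf a y 0 * lf a y 1 * lf a y 2 * x 0 ^ 2) := by
          simp only [fm, Fin.sum_univ_three, Matrix.cons_val_zero, Matrix.cons_val_one,
            Matrix.cons_val]
          linear_combination (lf a y 1 * lf a y 2) * h0
        rw [this]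
        exact neg_ne_zero.2 (mul_ne_zero (mul_ne_zero (mul_ne_zero l0 l1) l2) (pow_ne_zero _ hs))
      · simp only [pl, Fin.sum_univ_three, Matrix.cons_val_zero, Matrix.cons_val_one,
            Matrix.cons_val]
        ring
    · refine ⟨![lf a y 2 * x 2, 0, - (lf a y 0 * x 0)], ?_, ?_⟩
      · have : fm a ![lf a y 2 * x 2, 0, - (lf a y 0 * x 0)] y =
            - (lf a y 0 * lf a y 1 * lf a y 2 * x 1 ^ 2) := by
          simp only [fm, Fin.sum_univ_three, Matrix.cons_val_zero, Matrix.cons_val_one,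
            Matrix.cons_val]
          linear_combination (lf a y 0 * lf a y 2) * h0
        rw [this]
        exact neg_ne_zero.2 (mul_ne_zero (mul_ne_zero (mul_ne_zero l0 l1) l2) (pow_ne_zero _ hs))
      · simp only [pl, Fin.sum_univ_three, Matrix.cons_val_zero, Matrix.cons_val_one,
            Matrix.cons_val]
        ring
    · refine ⟨![lf a y 1 * x 1, - (lf a y 0 * x 0), 0], ?_, ?_⟩
      · have : fm a ![lf a y 1 * x 1, - (lf a y 0 * x 0), 0] y =
            - (lf a y 0 * lf a y 1 * lf a y 2 * x 2 ^ 2) := by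
          simp only [fm, Fin.sum_univ_three, Matrix.cons_val_zero, Matrix.cons_val_one,
            Matrix.cons_val]
          linear_combination (lf a y 0 * lf a y 1) * h0
        rw [this]
        exact neg_ne_zero.2 (mul_ne_zero (mul_ne_zero (mul_ne_zero l0 l1) l2) (pow_ne_zero _ hs))
      · simp only [pl, Fin.sum_univ_three, Matrix.cons_val_zero, Matrix.cons_val_one,
            Matrix.cons_val]
        ring
  obtain ⟨u, hu, hp⟩ := key
  refine ⟨u, hu, ?_⟩
  rw [rf, hp]
  simp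

/-- an `X`-step -/
def XS (p q : (Fin 3 → k) × (Fin 3 → k)) : Prop :=
  ∃ u, fm a u p.2 ≠ 0 ∧ q = (rf a p.2 u p.1, p.2)

/-- a `Y`-step -/
def YS (p q : (Fin 3 → k) × (Fin 3 → k)) : Prop := XS (tr a) p.swap q.swap

theorem xs_stay {p : (Fin 3 → k) × (Fin 3 → k)} (h : Ord a p.1 p.2) : XS a p p := by
  obtain ⟨u, hu, he⟩ := rf_stay a h
  exact ⟨u, hu, by rw [he]⟩

theorem ys_stay {p : (Fin 3 → k) × (Fin 3 → k)} (h : Ord a p.1 p.2) : YS a p p :=
  xs_stay (tr a) (p := p.swap) h.tr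

theorem two_steps {p q : (Fin 3 → k) × (Fin 3 → k)} (h2 : (2 : k) ≠ 0) (hp : Ord a p.1 p.2)
    (hq : Ord a q.1 q.2) (h : p = q ∨ Mv a p q) : ∃ m, XS a p m ∧ YS a m q := by
  rcases h with rfl | h | h
  · exact ⟨p, xs_stay a hp, ys_stay a hp⟩
  · refine ⟨q, ?_, ys_stay a hq⟩
    have h3 := rf_eq a h2 hp.on (by rw [h.1]; exact hq.on) h.2
    refine ⟨p.1 - q.1, h3.1, ?_⟩
    rw [h3.2, h.1]
  · refine ⟨p, xs_stay a hp, ?_⟩
    have h3 := rf_eq (tr a) h2 hp.tr.on (by rw [h.1]; exact hq.tr.on) h.2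
    refine ⟨p.2 - q.2, h3.1, ?_⟩
    change q.swap = (rf (tr a) p.1 (p.2 - q.2) p.2, p.1)
    rw [h3.2, h.1]
    rfl

end alg

section clo

variable {K : Type} [Field K] {ι : Type} {L : ι → Type} [∀ v, NontriviallyNormedField (L v)]
  (σ : ∀ v, K →+* L v) (a : Fin 3 → Fin 3 → K)

/-- the rational points -/
def kp : Set (∀ v, (Fin 3 → L v) × (Fin 3 → L v)) :=
  {S | ∃ x y : Fin 3 → K, fm a x y = 0 ∧ S = fun v => (fun i => σ v (x i), fun i => σ v (y i))}

theorem fm_map {k l : Type} [Field k] [Field l] (f : k →+* l) (a : Fin 3 → Fin 3 → k)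
    (x y : Fin 3 → k) :
    fm (fun i j => f (a i j)) (fun i => f (x i)) (fun i => f (y i)) = f (fm a x y) := by
  simp only [fm, lf, map_sum, map_mul, map_pow]

theorem pl_map {k l : Type} [Field k] [Field l] (f : k →+* l) (a : Fin 3 → Fin 3 → k)
    (y x x' : Fin 3 → k) :
    pl (fun i j => f (a i j)) (fun i => f (y i)) (fun i => f (x i)) (fun i => f (x' i)) =
      f (pl a y x x') := by
  simp only [pl, lf, map_sum, map_mul, map_pow]

theorem fm_cont {X k : Type} [TopologicalSpace X] [NontriviallyNormedField k]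
    (a : Fin 3 → Fin 3 → k) {f g : X → Fin 3 → k} (hf : Continuous f) (hg : Continuous g) :
    Continuous fun x => fm a (f x) (g x) := by
  unfold fm lf
  fun_prop

theorem pl_cont {X k : Type} [TopologicalSpace X] [NontriviallyNormedField k]
    (a : Fin 3 → Fin 3 → k) {f g h : X → Fin 3 → k} (hf : Continuous f) (hg : Continuous g)
    (hh : Continuous h) : Continuous fun x => pl a (f x) (g x) (h x) := by
  unfold pl lf
  fun_prop

theorem dens3 (hσ : DenseRange fun (b : K) (v : ι) => σ v b) (u : ∀ v, Fin 3 → L v) :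
    u ∈ closure {S : ∀ v, Fin 3 → L v | ∃ w : Fin 3 → K, S = fun v i => σ v (w i)} := by
  have h1 : DenseRange (Pi.map fun (_ : Fin 3) (b : K) (v : ι) => σ v b) :=
    DenseRange.piMap fun _ => hσ
  let Φ : (Fin 3 → ∀ v, L v) → ∀ v, Fin 3 → L v := fun c v i => c i v
  have hΦ : Continuous Φ := by
    refine continuous_pi fun v => continuous_pi fun i => ?_
    change Continuous fun c : Fin 3 → ∀ v, L v => c i v
    fun_prop
  have h2 : u = Φ fun i v => u v i := rfl
  rw [h2]
  refine map_mem_closure hΦ (h1 fun i v => u v i) ?_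
  rintro _ ⟨w, rfl⟩
  exact ⟨w, rfl⟩

theorem rf_contAt {k : Type} [NontriviallyNormedField k] (b : Fin 3 → Fin 3 → k)
    {u x y : Fin 3 → k} (hu : fm b u y ≠ 0) :
    ContinuousAt (fun q : (Fin 3 → k) × (Fin 3 → k) × (Fin 3 → k) => rf b q.2.2 q.1 q.2.1)
      (u, x, y) := by
  have c1 : Continuous fun q : (Fin 3 → k) × (Fin 3 → k) × (Fin 3 → k) => q.1 := by fun_prop
  have c2 : Continuous fun q : (Fin 3 → k) × (Fin 3 → k) × (Fin 3 → k) => q.2.1 := by fun_prop
  have c3 : Continuous fun q : (Fin 3 → k) × (Fin 3 → k) × (Fin 3 → k) => q.2.2 := by fun_prop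
  have h1 : ContinuousAt (fun q : (Fin 3 → k) × (Fin 3 → k) × (Fin 3 → k) =>
      -(2 * pl b q.2.2 q.2.1 q.1) / fm b q.1 q.2.2) (u, x, y) :=
    (continuous_const.mul (pl_cont b c3 c2 c1)).neg.continuousAt.div
      (fm_cont b c1 c3).continuousAt hu
  have h2 : ContinuousAt (fun q : (Fin 3 → k) × (Fin 3 → k) × (Fin 3 → k) =>
      (-(2 * pl b q.2.2 q.2.1 q.1) / fm b q.1 q.2.2) • q.1) (u, x, y) :=
    h1.smul c1.continuousAt
  exact c2.continuousAt.add h2

/-- **`X`-steps preserve the closure.** -/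
theorem xst (hσ : DenseRange fun (b : K) (v : ι) => σ v b)
    {P Q : ∀ v, (Fin 3 → L v) × (Fin 3 → L v)} (hP : P ∈ closure (kp σ a))
    (hPQ : ∀ v, XS (fun i j => σ v (a i j)) (P v) (Q v)) : Q ∈ closure (kp σ a) := by
  classical
  rcases isEmpty_or_nonempty ι with hι | ⟨⟨v₀⟩⟩
  · have : Q = P := Subsingleton.elim _ _
    rwa [this]
  choose u hu hQ using hPQ
  let Ψ : (∀ v, Fin 3 → L v) × (∀ v, (Fin 3 → L v) × (Fin 3 → L v)) →
      (∀ v, (Fin 3 → L v) × (Fin 3 → L v)) := fun q v =>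
    (rf (fun i j => σ v (a i j)) (q.2 v).2 (q.1 v) (q.2 v).1, (q.2 v).2)
  have hQ' : Q = Ψ (u, P) := funext hQ
  have c1 : ∀ v, Continuous fun q : (∀ v, Fin 3 → L v) ×
      (∀ v, (Fin 3 → L v) × (Fin 3 → L v)) => q.1 v := fun v => by fun_prop
  have c2 : ∀ v, Continuous fun q : (∀ v, Fin 3 → L v) ×
      (∀ v, (Fin 3 → L v) × (Fin 3 → L v)) => q.2 v := fun v => by fun_prop
  have hΨc : ContinuousAt Ψ (u, P) := by
    refine continuousAt_pi.2 fun v => ?_
    have h1 := rf_contAt (fun i j => σ v (a i j)) (x := (P v).1) (hu v)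
    have h2 : ContinuousAt (fun q : (∀ v, Fin 3 → L v) ×
        (∀ v, (Fin 3 → L v) × (Fin 3 → L v)) => (q.1 v, q.2 v)) (u, P) :=
      ((c1 v).prodMk (c2 v)).continuousAt
    have h3 : ContinuousAt (fun q : (Fin 3 → L v) × (Fin 3 → L v) × (Fin 3 → L v) =>
        (rf (fun i j => σ v (a i j)) q.2.2 q.1 q.2.1, q.2.2)) (u v, (P v).1, (P v).2) := by
      refine h1.prodMk ?_
      have : Continuous fun q : (Fin 3 → L v) × (Fin 3 → L v) × (Fin 3 → L v) => q.2.2 := by
        fun_prop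
      exact this.continuousAt
    exact ContinuousAt.comp (g := fun q : (Fin 3 → L v) × (Fin 3 → L v) × (Fin 3 → L v) =>
        (rf (fun i j => σ v (a i j)) q.2.2 q.1 q.2.1, q.2.2))
      (f := fun q : (∀ v, Fin 3 → L v) × (∀ v, (Fin 3 → L v) × (Fin 3 → L v)) =>
        (q.1 v, q.2 v)) h3 h2
  rw [hQ', mem_closure_iff_nhds]
  intro O hO
  have hW : Ψ ⁻¹' O ∩ {q | fm (fun i j => σ v₀ (a i j)) (q.1 v₀) (q.2 v₀).2 ≠ 0} ∈ 𝓝 (u, P) :=
    Filter.inter_mem (hΨc hO)
      ((fm_cont _ (c1 v₀) (continuous_snd.comp (c2 v₀))).continuousAt.eventually_ne (hu v₀))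
  have hcl : (u, P) ∈ closure ({S : ∀ v, Fin 3 → L v | ∃ w : Fin 3 → K,
      S = fun v i => σ v (w i)} ×ˢ kp σ a) := by
    rw [closure_prod_eq]
    exact ⟨dens3 σ hσ u, hP⟩
  obtain ⟨⟨_, _⟩, ⟨hq1, hq2⟩, ⟨w, rfl⟩, ⟨x, y, hz, rfl⟩⟩ := mem_closure_iff_nhds.1 hcl _ hW
  have hne : fm a w y ≠ 0 := by
    intro h
    apply hq2
    change fm (fun i j => σ v₀ (a i j)) (fun i => σ v₀ (w i)) (fun i => σ v₀ (y i)) = 0
    rw [fm_map, h, map_zero]
  refine ⟨_, hq1, rf a y w x, y, rf_on a hz hne, ?_⟩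
  funext v
  refine Prod.ext ?_ rfl
  funext i
  change (rf (fun i j => σ v (a i j)) (fun i => σ v (y i)) (fun i => σ v (w i))
    (fun i => σ v (x i))) i = σ v (rf a y w x i)
  simp only [rf, Pi.add_apply, Pi.smul_apply, smul_eq_mul]
  rw [fm_map, pl_map, map_add, map_mul, map_div₀, map_neg, map_mul, map_ofNat]

theorem swap_cl {P : ∀ v, (Fin 3 → L v) × (Fin 3 → L v)} (hP : P ∈ closure (kp σ a)) :
    (fun v => (P v).swap) ∈ closure (kp σ (tr a)) := by
  have hc : Continuous fun (P : ∀ v, (Fin 3 → L v) × (Fin 3 → L v)) v => (P v).swap :=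
    continuous_pi fun v => continuous_swap.comp (continuous_apply v)
  refine map_mem_closure hc hP ?_
  rintro _ ⟨x, y, h, rfl⟩
  exact ⟨y, x, by rw [fm_tr]; exact h, rfl⟩

/-- **`Y`-steps preserve the closure.** -/
theorem yst (hσ : DenseRange fun (b : K) (v : ι) => σ v b)
    {P Q : ∀ v, (Fin 3 → L v) × (Fin 3 → L v)} (hP : P ∈ closure (kp σ a))
    (hPQ : ∀ v, YS (fun i j => σ v (a i j)) (P v) (Q v)) : Q ∈ closure (kp σ a) := by
  have h1 := xst σ (tr a) hσ (swap_cl σ a hP) (Q := fun v => (Q v).swap) hPQ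
  exact swap_cl σ (tr a) h1

end clo

end CLO

open CLO in
theorem clo : StmCLO := by
  intro K ι _ L _ σ hσ a N P Q h2 hP hC hcl
  change P ∈ closure (kp σ a) at hcl
  change Q ∈ closure (kp σ a)
  induction N generalizing Q with
  | zero =>
    have : P = Q := by
      funext v
      have h := hC v
      generalize P v = p at h
      generalize Q v = q at h
      cases h
      rfl
    rwa [← this]
  | succ N ih =>
    have h : ∀ v, ∃ r, Cn (fun i j => σ v (a i j)) N (P v) r ∧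
        (r = Q v ∨ Mv (fun i j => σ v (a i j)) r (Q v)) ∧
        Ord (fun i j => σ v (a i j)) (Q v).1 (Q v).2 := by
      intro v
      have h := hC v
      have ho := h.ord (hP v)
      generalize P v = p at h
      generalize Q v = q at h ho
      cases h with
      | refl => exact ⟨p, Cn.refl _ _, Or.inl rfl, ho⟩
      | step _ _ r _ hr _ hm => exact ⟨r, hr, Or.inr hm, ho⟩
    choose R hR hRQ hQ using h
    have hRc := ih R hR
    choose m hm1 hm2 using fun v => two_steps (fun i j => σ v (a i j)) (h2 v)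
      ((hR v).ord (hP v)) (hQ v) (hRQ v)
    exact yst σ a hσ (xst σ a hσ hRc hm1) hm2

end Pool.Agent.T6.H77.DW
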