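import Pool.Agent.T6.H77.DW.Stm

/-! # Module DEN: ordinary points are dense (helper29) -/

set_option autoImplicit false

namespace Pool.Agent.T6.H77.DW

open Filter Topology

namespace DEN

theorem sum3 {k : Type} [Field k] (f : Fin 3 → k) {i j l : Fin 3} (h : i ≠ j) (h' : i ≠ l)
    (h'' : j ≠ l) : ∑ s, f s = f i + f j + f l := by
  rw [Fin.sum_univ_three]
  revert h h' h''
  revert i j l
  intro i j l
  fin_cases i <;> fin_cases j <;> fin_cases l <;> simp <;> ring

theorem third (i j : Fin 3) : ∃ l : Fin 3, l ≠ i ∧ l ≠ j := by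
  revert i j; decide

theorem gd_tr {k : Type} [Field k] {a : Fin 3 → Fin 3 → k} (h : Gd a) : Gd (tr a) where
  two := h.two
  ent i j := h.ent j i
  min i i' j j' hi hj := by
    have := h.min j j' i i' hj hi
    intro h1
    apply this
    simp only [tr] at h1
    rw [h1]; ring
  det := by
    have : Matrix.of (tr a) = (Matrix.of a).transpose := by ext i j; rfl
    rw [this, Matrix.det_transpose]
    exact h.det

theorem fm_tr {k : Type} [Field k] (a : Fin 3 → Fin 3 → k) (x y : Fin 3 → k) :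
    fm (tr a) y x = fm a x y := by
  simp only [fm, lf, tr, Fin.sum_univ_three]
  ring

/-- a nonzero vector has nonzero image under the matrix -/
theorem det_inj {k : Type} [Field k] {a : Fin 3 → Fin 3 → k} (h : Gd a) (v : Fin 3 → k)
    (hv : ∀ i, ∑ j, a i j * v j = 0) : v = 0 := by
  by_contra hne
  apply h.det
  rw [← Matrix.exists_mulVec_eq_zero_iff]
  refine ⟨v, hne, ?_⟩
  ext i
  simpa [Matrix.mulVec, dotProduct] using hv i

theorem step1 {k : Type} [Field k] {a : Fin 3 → Fin 3 → k} (h : Gd a) (x y : Fin 3 → k)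
    (hx : x ≠ 0) (hy : y ≠ 0) (h1 : ∀ i, lf a y i * x i = 0) (h2 : ∀ j, lf (tr a) x j * y j = 0) :
    False := by
  by_cases hall : ∀ i, x i ≠ 0
  · apply hy
    have h3 : ∀ i, lf a y i = 0 := fun i => (mul_eq_zero.1 (h1 i)).resolve_right (hall i)
    have h4 := det_inj h (fun j => y j ^ 2) h3
    ext j
    have := congrFun h4 j
    simpa using this
  push Not at hall
  obtain ⟨i3, hi3⟩ := hall
  obtain ⟨i1, hi1⟩ : ∃ i, x i ≠ 0 := by
    by_contra hcon
    push Not at hcon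
    exact hx (funext hcon)
  have h13 : i1 ≠ i3 := by rintro rfl; exact hi1 hi3
  obtain ⟨i2, h21, h23⟩ := third i1 i3
  have hM : ∀ j, lf (tr a) x j = a i1 j * x i1 ^ 2 + a i2 j * x i2 ^ 2 := by
    intro j
    unfold lf tr
    rw [sum3 _ h21.symm h13 h23, hi3]
    ring
  by_cases hi2 : x i2 = 0
  · apply hy
    ext j
    refine (mul_eq_zero.1 (h2 j)).resolve_left ?_
    rw [hM, hi2]
    simpa using ⟨h.ent i1 j, hi1⟩
  · obtain ⟨m, hm⟩ : ∃ m, y m ≠ 0 := by
      by_contra hcon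
      push Not at hcon
      exact hy (funext hcon)
    have hMm := (mul_eq_zero.1 (h2 m)).resolve_right hm
    have hother : ∀ j, j ≠ m → y j = 0 := by
      intro j hj
      by_contra hyj
      have hMj := (mul_eq_zero.1 (h2 j)).resolve_right hyj
      rw [hM] at hMm hMj
      have := h.min i1 i2 j m h21.symm hj
      apply this
      have e1 : (a i1 j * a i2 m - a i1 m * a i2 j) * x i1 ^ 2 = 0 := by
        linear_combination (a i2 m) * hMj - (a i2 j) * hMm
      have e2 := (mul_eq_zero.1 e1).resolve_right (pow_ne_zero 2 hi1)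
      exact sub_eq_zero.1 e2
    have hL := (mul_eq_zero.1 (h1 i1)).resolve_right hi1
    unfold lf at hL
    rw [Finset.sum_eq_single m] at hL
    · rcases mul_eq_zero.1 hL with h5 | h5
      · exact h.ent i1 m h5
      · exact hm (pow_eq_zero_iff (two_ne_zero) |>.1 h5)
    · intro j _ hj
      rw [hother j hj]; simp
    · simp

theorem ev2 {L : Type} [NontriviallyNormedField L] (c0 c1 c2 : L)
    (h : c0 ≠ 0 ∨ c1 ≠ 0 ∨ c2 ≠ 0) : ∀ᶠ t in 𝓝[≠] (0 : L), c0 + c1 * t + c2 * t ^ 2 ≠ 0 := by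
  by_cases h0 : c0 = 0
  · by_cases h1 : c1 = 0
    · have h2 : c2 ≠ 0 := by
        rcases h with h | h | h
        · exact absurd h0 h
        · exact absurd h1 h
        · exact h
      filter_upwards [self_mem_nhdsWithin] with t ht
      have ht' : t ≠ 0 := ht
      rw [h0, h1]
      simp [h2, ht']
    · have hc : ContinuousAt (fun t : L => c1 + c2 * t) 0 := by fun_prop
      have h3 : ∀ᶠ t in 𝓝 (0 : L), c1 + c2 * t ≠ 0 := hc.eventually_ne (by simpa using h1)
      filter_upwards [self_mem_nhdsWithin, nhdsWithin_le_nhds h3] with t ht h4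
      have ht' : t ≠ 0 := ht
      rw [h0, show (0 : L) + c1 * t + c2 * t ^ 2 = t * (c1 + c2 * t) by ring]
      exact mul_ne_zero ht' h4
  · have hc : ContinuousAt (fun t : L => c0 + c1 * t + c2 * t ^ 2) 0 := by fun_prop
    exact nhdsWithin_le_nhds (hc.eventually_ne (by simpa using h0))

theorem exists_w {L : Type} [NontriviallyNormedField L] (a : Fin 3 → Fin 3 → L) (h : Gd a) :
    ∃ w : Fin 3 → L, (∀ j, w j ≠ 0) ∧ ∀ i, lf a w i ≠ 0 := by
  have h1 : ∀ i, ∀ᶠ s in 𝓝 (0 : L), a i 0 + a i 1 * s ^ 2 + a i 2 * s ^ 4 ≠ 0 := by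
    intro i
    have hc : ContinuousAt (fun s : L => a i 0 + a i 1 * s ^ 2 + a i 2 * s ^ 4) 0 := by fun_prop
    exact hc.eventually_ne (by simpa using h.ent i 0)
  have h2 : ∀ᶠ s in 𝓝[≠] (0 : L), s ≠ 0 ∧ ∀ i, a i 0 + a i 1 * s ^ 2 + a i 2 * s ^ 4 ≠ 0 := by
    filter_upwards [self_mem_nhdsWithin, nhdsWithin_le_nhds (eventually_all.2 h1)] with s hs h3
    exact ⟨hs, h3⟩
  obtain ⟨s, hs, h3⟩ := h2.exists
  refine ⟨![1, s, s ^ 2], ?_, ?_⟩
  · intro j
    fin_cases j <;> simp [hs]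
  · intro i
    have := h3 i
    simp only [lf, Fin.sum_univ_three]
    simpa [← pow_mul] using this

theorem half (hU : StmU) (L : Type) [NontriviallyNormedField L] [IsUltrametricDist L]
    [CompleteSpace L] (h2 : ‖(2 : L)‖ = 1) (a : Fin 3 → Fin 3 → L) (ha : Gd a) (x y : Fin 3 → L)
    (hF : fm a x y = 0) (p : Fin 3) (hp : lf a y p * x p ≠ 0) (ε : ℝ) (hε : 0 < ε) :
    ∃ x' y' : Fin 3 → L, Ord a x' y' ∧ ∀ i, ‖x' i - x i‖ < ε ∧ ‖y' i - y i‖ < ε := by
  obtain ⟨w, hw1, hw2⟩ := exists_w a ha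
  have hLp : lf a y p ≠ 0 := left_ne_zero_of_mul hp
  have hxp : x p ≠ 0 := right_ne_zero_of_mul hp
  -- delta
  obtain ⟨δ, hδ0, hδ1, hδ2⟩ : ∃ δ : ℝ, 0 < δ ∧ δ < 1 ∧ δ * ‖x p‖ < ε := by
    have hn : 0 < ‖x p‖ := norm_pos_iff.2 hxp
    refine ⟨min (1 / 2) (ε / (2 * ‖x p‖)), by positivity, ?_, ?_⟩
    · exact lt_of_le_of_lt (min_le_left _ _) (by norm_num)
    · have : min (1 / 2) (ε / (2 * ‖x p‖)) * ‖x p‖ ≤ ε / (2 * ‖x p‖) * ‖x p‖ :=
        mul_le_mul_of_nonneg_right (min_le_right _ _) hn.le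
      refine this.trans_lt ?_
      rw [div_mul_eq_mul_div, mul_comm ε, div_lt_iff₀ (by positivity)]
      nlinarith
  have e1 : ∀ j, ∀ᶠ t in 𝓝[≠] (0 : L), y j + t * w j ≠ 0 := by
    intro j
    filter_upwards [ev2 (y j) (w j) 0 (Or.inr (Or.inl (hw1 j)))] with t ht
    rw [mul_comm]; simpa using ht
  have e2 : ∀ i, ∀ᶠ t in 𝓝[≠] (0 : L), lf a (fun j => y j + t * w j) i ≠ 0 := by
    intro i
    filter_upwards [ev2 (lf a y i) (2 * ∑ j, a i j * (y j * w j)) (lf a w i)
      (Or.inr (Or.inr (hw2 i)))] with t ht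
    convert ht using 1
    simp only [lf, Fin.sum_univ_three]
    ring
  have e3 : ∀ᶠ t in 𝓝 (0 : L), ‖fm a x (fun j => y j + t * w j)‖ <
      δ * (‖lf a (fun j => y j + t * w j) p‖ * ‖x p‖ ^ 2) := by
    have c1 : ContinuousAt (fun t : L => ‖fm a x (fun j => y j + t * w j)‖) 0 := by
      unfold fm lf; fun_prop
    have c2 : ContinuousAt (fun t : L => δ * (‖lf a (fun j => y j + t * w j) p‖ * ‖x p‖ ^ 2)) 0 := by
      unfold lf; fun_prop
    refine c1.eventually_lt c2 ?_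
    simp only [zero_mul, add_zero]
    rw [hF, norm_zero]
    positivity
  have e4 : ∀ j, ∀ᶠ t in 𝓝 (0 : L), ‖y j + t * w j - y j‖ < ε := by
    intro j
    have c1 : ContinuousAt (fun t : L => ‖y j + t * w j - y j‖) 0 := by fun_prop
    exact c1.eventually_lt continuousAt_const (by simpa using hε)
  have e5 := (eventually_all.2 e1).and ((eventually_all.2 e2).and
    (nhdsWithin_le_nhds (e3.and (eventually_all.2 e4))))
  obtain ⟨t, ht1, ht2, ht3, ht4⟩ := e5.exists
  set y' : Fin 3 → L := fun j => y j + t * w j with hy'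
  have hprop : ∀ j, ∃ i i', lf a y' i * a i' j ≠ lf a y' i' * a i j := by
    intro j
    by_contra hcon
    push Not at hcon
    set c := lf a y' 0 / a 0 j with hc
    have hc' : ∀ i, lf a y' i = c * a i j := by
      intro i
      have := hcon i 0
      rw [hc, div_mul_eq_mul_div, eq_div_iff (ha.ent 0 j), this]
    have hv := det_inj ha (fun m => y' m ^ 2 - if m = j then c else 0) (by
      intro i
      have : ∑ m, a i m * (y' m ^ 2 - if m = j then c else 0) = lf a y' i - c * a i j := by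
        simp only [mul_sub, Finset.sum_sub_distrib, lf, mul_ite, mul_zero, Finset.sum_ite_eq',
          Finset.mem_univ, if_true]
        ring
      rw [this, hc' i, sub_self])
    obtain ⟨m, hm, _⟩ := third j j
    have := congrFun hv m
    simp only [if_neg hm, sub_zero, Pi.zero_apply] at this
    exact ht1 m (pow_eq_zero_iff (two_ne_zero) |>.1 this)
  obtain ⟨x', hx1, hx2, hx3⟩ := hU L h2 a y' ht2 hprop x p hxp δ hδ0 hδ1 ht3.le
  exact ⟨x', y', ⟨hx1, hx2, ht2⟩, fun i => ⟨(hx3 i).trans_lt hδ2, ht4 i⟩⟩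

end DEN

/-- module DEN -/
theorem den (hU : StmU) : StmDEN := by
  intro L _ _ _ h2 a ha x y hx hy hF ε hε
  by_cases h : ∃ p, lf a y p * x p ≠ 0
  · obtain ⟨p, hp⟩ := h
    exact DEN.half hU L h2 a ha x y hF p hp ε hε
  by_cases h' : ∃ j, lf (tr a) x j * y j ≠ 0
  · obtain ⟨j, hj⟩ := h'
    obtain ⟨y', x', ho, hn⟩ := DEN.half hU L h2 (tr a) (DEN.gd_tr ha) y x
      (by rw [DEN.fm_tr]; exact hF) j hj ε hε
    refine ⟨x', y', ⟨?_, ho.hy, ho.hx⟩, fun i => ⟨(hn i).2, (hn i).1⟩⟩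
    rw [← DEN.fm_tr]; exact ho.on
  · push Not at h h'
    exact (DEN.step1 ha x y hx hy h h').elim

end Pool.Agent.T6.H77.DW
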