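import Pool.Agent.T6.H77.DW.RED

/-!
# A rational point with non-special components gives an ordinary one (helper51, module ENT)
-/

set_option autoImplicit false

namespace Pool.Agent.T6.H77.DW

namespace ENT

open Polynomial in
/-- finitely many non-zero polynomials over an infinite field -/
theorem av {K : Type} [Field K] [Infinite K] (c : Fin 3 → Fin 5 → K)
    (hc : ∀ j, ∃ i, c j i ≠ 0) : ∃ t : K, t ≠ 0 ∧ ∀ j, ∑ i, c j i * t ^ (i : ℕ) ≠ 0 := by
  by_contra hcon
  push Not at hcon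
  have hQ : (X * ∏ j, ∑ i, C (c j i) * X ^ (i : ℕ) : K[X]) = 0 := by
    refine Polynomial.funext fun t => ?_
    rw [eval_mul, eval_X, eval_prod, eval_zero]
    by_cases ht : t = 0
    · rw [ht, zero_mul]
    obtain ⟨j, hj⟩ := hcon t ht
    have : ∏ j, eval t (∑ i, C (c j i) * X ^ (i : ℕ)) = 0 := by
      refine Finset.prod_eq_zero (Finset.mem_univ j) ?_
      rw [eval_finsetSum, ← hj]
      refine Finset.sum_congr rfl fun i _ => ?_
      simp
    rw [this, mul_zero]
  rcases mul_eq_zero.1 hQ with h | h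
  · exact X_ne_zero h
  · obtain ⟨j, _, hj⟩ := Finset.prod_eq_zero_iff.1 h
    obtain ⟨i, hi⟩ := hc j
    apply hi
    have h3 := congrArg (fun p : K[X] => p.coeff (i : ℕ)) hj
    simp only [finsetSum_coeff, coeff_C_mul, coeff_X_pow, coeff_zero] at h3
    rw [Finset.sum_eq_single i] at h3
    · simpa using h3
    · intro b _ hb
      rw [if_neg (fun h => hb (Fin.ext h.symm)), mul_zero]
    · intro h
      exact absurd (Finset.mem_univ i) h

variable {K : Type} [Field K] [Infinite K]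

theorem stepA0 (l x : Fin 3 → K) (m : Fin 3 → Fin 3 → K) (h2 : (2 : K) ≠ 0)
    (hl : ∀ i, l i ≠ 0) (hx2 : x 2 ≠ 0) (hF : ∑ i, l i * x i ^ 2 = 0)
    (hm : ∀ j, ¬ ∀ i i', m j i * l i' = m j i' * l i) :
    ∃ x' : Fin 3 → K, ∑ i, l i * x' i ^ 2 = 0 ∧ ∀ j, ∑ i, m j i * x' i ^ 2 ≠ 0 := by
  rw [Fin.sum_univ_three] at hF
  have h4 : (4 : K) ≠ 0 := by
    have : (4 : K) = 2 * 2 := by norm_num
    rw [this]
    exact mul_ne_zero h2 h2
  obtain ⟨t, -, ht⟩ := av (fun j => ![l 0 ^ 2 * (m j 0 * x 0 ^ 2 + m j 1 * x 1 ^ 2 + m j 2 * x 2 ^ 2),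
    4 * l 0 * x 0 * x 1 * (m j 0 * l 1 - m j 1 * l 0),
    m j 0 * (4 * l 1 ^ 2 * x 1 ^ 2 - 2 * l 0 * l 1 * x 0 ^ 2) +
      m j 1 * (4 * l 0 ^ 2 * x 0 ^ 2 - 2 * l 0 * l 1 * x 1 ^ 2) +
      m j 2 * (2 * l 0 * l 1 * x 2 ^ 2),
    4 * l 1 * x 0 * x 1 * (m j 1 * l 0 - m j 0 * l 1),
    l 1 ^ 2 * (m j 0 * x 0 ^ 2 + m j 1 * x 1 ^ 2 + m j 2 * x 2 ^ 2)]) (by
    intro j
    by_contra hcon
    push Not at hcon
    apply hm j
    have c0 := hcon 0
    have c1 := hcon 1
    have c2 := hcon 2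
    simp only [Matrix.cons_val_zero, Matrix.cons_val_one, Matrix.cons_val] at c0 c1 c2
    have hM : m j 0 * x 0 ^ 2 + m j 1 * x 1 ^ 2 + m j 2 * x 2 ^ 2 = 0 :=
      (mul_eq_zero.1 c0).resolve_left (pow_ne_zero _ (hl 0))
    have e2 : 4 * ((m j 0 * l 1 - m j 1 * l 0) * (l 1 * x 1 ^ 2 - l 0 * x 0 ^ 2)) = 0 := by
      linear_combination c2 - 2 * l 0 * l 1 * hM
    have e01 : m j 0 * l 1 - m j 1 * l 0 = 0 := by
      by_cases hx0 : x 0 = 0
      · have hx1 : x 1 ≠ 0 := by
          intro hx1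
          rw [hx0, hx1] at hF
          apply mul_ne_zero (hl 2) (pow_ne_zero 2 hx2)
          linear_combination hF
        have e3 := (mul_eq_zero.1 e2).resolve_left h4
        refine (mul_eq_zero.1 e3).resolve_right ?_
        rw [hx0]
        have := mul_ne_zero (hl 1) (pow_ne_zero 2 hx1)
        intro h
        apply this
        linear_combination h
      · by_cases hx1 : x 1 = 0
        · have e3 := (mul_eq_zero.1 e2).resolve_left h4
          refine (mul_eq_zero.1 e3).resolve_right ?_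
          rw [hx1]
          have := mul_ne_zero (hl 0) (pow_ne_zero 2 hx0)
          intro h
          apply this
          linear_combination -h
        · refine (mul_eq_zero.1 c1).resolve_left ?_
          exact mul_ne_zero (mul_ne_zero (mul_ne_zero h4 (hl 0)) hx0) hx1
    have e02 : m j 2 * l 0 - m j 0 * l 2 = 0 := by
      have : x 2 ^ 2 * (m j 2 * l 0 - m j 0 * l 2) = 0 := by
        linear_combination l 0 * hM - m j 0 * hF + x 1 ^ 2 * e01
      exact (mul_eq_zero.1 this).resolve_left (pow_ne_zero _ hx2)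
    have e12 : m j 2 * l 1 - m j 1 * l 2 = 0 := by
      have : x 2 ^ 2 * (m j 2 * l 1 - m j 1 * l 2) = 0 := by
        linear_combination l 1 * hM - m j 1 * hF - x 0 ^ 2 * e01
      exact (mul_eq_zero.1 this).resolve_left (pow_ne_zero _ hx2)
    intro i i'
    fin_cases i <;> fin_cases i' <;> simp only [Fin.zero_eta, Fin.mk_one, Fin.reduceFinMk]
    · linear_combination e01
    · linear_combination -e02
    · linear_combination -e01
    · linear_combination -e12
    · linear_combination e02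
    · linear_combination e12)
  refine ⟨![l 1 * x 0 * t ^ 2 - 2 * l 1 * x 1 * t - l 0 * x 0,
    -(l 1 * x 1 * t ^ 2) - 2 * l 0 * x 0 * t + l 0 * x 1, x 2 * (l 0 + l 1 * t ^ 2)], ?_, ?_⟩
  · rw [Fin.sum_univ_three]
    simp only [Matrix.cons_val_zero, Matrix.cons_val_one, Matrix.cons_val]
    linear_combination (l 0 + l 1 * t ^ 2) ^ 2 * hF
  · intro j
    have h := ht j
    rw [Fin.sum_univ_five] at h
    simp only [Matrix.cons_val_zero, Matrix.cons_val_one, Matrix.cons_val] at h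
    rw [Fin.sum_univ_three]
    simp only [Matrix.cons_val_zero, Matrix.cons_val_one, Matrix.cons_val]
    intro h0
    apply h
    rw [← h0]
    simp only [Fin.val_zero, Fin.val_one, Fin.val_two, pow_zero, mul_one, pow_one]
    norm_num [Fin.val]
    ring

theorem stepA (l x : Fin 3 → K) (m : Fin 3 → Fin 3 → K) (h2 : (2 : K) ≠ 0)
    (hl : ∀ i, l i ≠ 0) (hx : x ≠ 0) (hF : ∑ i, l i * x i ^ 2 = 0)
    (hm : ∀ j, ¬ ∀ i i', m j i * l i' = m j i' * l i) :
    ∃ x' : Fin 3 → K, ∑ i, l i * x' i ^ 2 = 0 ∧ ∀ j, ∑ i, m j i * x' i ^ 2 ≠ 0 := by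
  obtain ⟨s, hs⟩ : ∃ s, x s ≠ 0 := by
    by_contra hc
    push Not at hc
    exact hx (funext hc)
  let e : Equiv.Perm (Fin 3) := Equiv.swap s 2
  obtain ⟨x', h1, h3⟩ := stepA0 (fun i => l (e i)) (fun i => x (e i)) (fun j i => m j (e i)) h2
    (fun i => hl _) (by simpa [e] using hs)
    (by rw [← hF]; exact Equiv.sum_comp e fun i => l i * x i ^ 2)
    (fun j h => hm j fun i i' => by simpa [e] using h (e i) (e i'))
  refine ⟨fun i => x' (e i), ?_, fun j => ?_⟩
  · rw [← h1, ← Equiv.sum_comp e fun i => l i * x' (e i) ^ 2]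
    exact Finset.sum_congr rfl fun i _ => by simp [e]
  · have h4 := h3 j
    rw [← Equiv.sum_comp e fun i => m j i * x' (e i) ^ 2]
    convert h4 using 2 with i
    have h5 : e (e i) = i := by simp [e]
    rw [h5]

omit [Infinite K] in
theorem nonprop {a : Fin 3 → Fin 3 → K} (h : Gd a) {y : Fin 3 → K} (hy : Ns y) (j : Fin 3) :
    ¬ ∀ i i', a i j * lf a y i' = a i' j * lf a y i := by
  intro hp
  obtain ⟨c, hc⟩ : ∃ c, ∀ i, lf a y i = a i j * c := by
    refine ⟨lf a y 0 / a 0 j, fun i => ?_⟩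
    have h1 := hp 0 i
    have h0 := h.ent 0 j
    field_simp
    linear_combination h1
  have hv : (Matrix.of a).mulVec (fun l => y l ^ 2 - if l = j then c else 0) = 0 := by
    funext i
    simp only [Matrix.mulVec, dotProduct, Matrix.of_apply, mul_sub, Finset.sum_sub_distrib,
      mul_ite, mul_zero, Finset.sum_ite_eq', Finset.mem_univ, if_true, Pi.zero_apply]
    have h1 := hc i
    rw [lf] at h1
    rw [h1, sub_self]
  have h3 := Matrix.eq_zero_of_mulVec_eq_zero h.det hv
  obtain ⟨p, q, hpq, hyp, hyq⟩ := hy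
  by_cases hj : p = j
  · have h4 := congrFun h3 q
    simp only [Pi.zero_apply] at h4
    rw [if_neg (fun h => hpq (hj.trans h.symm)), sub_zero] at h4
    exact hyq (pow_eq_zero_iff (two_ne_zero)|>.1 h4)
  · have h4 := congrFun h3 p
    simp only [Pi.zero_apply] at h4
    rw [if_neg hj, sub_zero] at h4
    exact hyp (pow_eq_zero_iff (two_ne_zero)|>.1 h4)

/-- step A -/
theorem A {a : Fin 3 → Fin 3 → K} (h : Gd a) {x y : Fin 3 → K} (hy : Ns y) (hx : x ≠ 0)
    (hl : ∀ i, lf a y i ≠ 0) (hF : fm a x y = 0) : ∃ x', Ord a x' y := by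
  obtain ⟨x', h1, h3⟩ := stepA (lf a y) x (fun j i => a i j) h.two hl hx hF
    (fun j hj => nonprop h hy j hj)
  exact ⟨x', h1, fun j => h3 j, hl⟩

end ENT

open ENT in
theorem ent : StmENT := by
  intro K _ _ a h x y hx hy hF
  have hx0 : x ≠ 0 := by
    rintro rfl
    obtain ⟨i, j, -, hi, -⟩ := hx
    exact hi rfl
  have hy0 : y ≠ 0 := by
    rintro rfl
    obtain ⟨i, j, -, hi, -⟩ := hy
    exact hi rfl
  by_cases hl : ∀ i, lf a y i ≠ 0
  · obtain ⟨x', h1⟩ := A h hy hx0 hl hF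
    exact ⟨x', y, h1⟩
  push Not at hl
  obtain ⟨p, hp⟩ := hl
  have hM : ∀ (t : K) (j : Fin 3), lf (tr a) (Function.update x p t) j =
      (∑ i ∈ Finset.univ.erase p, a i j * x i ^ 2) + a p j * t ^ 2 := by
    intro t j
    rw [lf, ← Finset.sum_erase_add _ _ (Finset.mem_univ p), Function.update_self]
    congr 1
    refine Finset.sum_congr rfl fun i hi => ?_
    rw [Function.update_of_ne (Finset.ne_of_mem_erase hi)]
    rfl
  obtain ⟨t, ht0, ht⟩ := av (fun j => ![∑ i ∈ Finset.univ.erase p, a i j * x i ^ 2, 0, a p j, 0, 0])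
    (fun j => ⟨2, h.ent p j⟩)
  have hM' : ∀ j, lf (tr a) (Function.update x p t) j ≠ 0 := by
    intro j
    rw [hM]
    have h1 := ht j
    rw [Fin.sum_univ_five] at h1
    intro h0
    apply h1
    simp only [Matrix.cons_val_zero, Matrix.cons_val_one, Matrix.cons_val]
    have e2 : ((2 : Fin 5) : ℕ) = 2 := rfl
    rw [e2, Fin.val_zero]
    linear_combination h0
  have hF' : fm a (Function.update x p t) y = 0 := by
    rw [← hF, fm, fm, ← Finset.sum_erase_add _ _ (Finset.mem_univ p),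
      ← Finset.sum_erase_add _ _ (Finset.mem_univ p), hp, zero_mul, zero_mul]
    congr 1
    refine Finset.sum_congr rfl fun i hi => ?_
    rw [Function.update_of_ne (Finset.ne_of_mem_erase hi)]
  have hNs : Ns (Function.update x p t) := by
    obtain ⟨i, j, hij, hi, hj⟩ := hx
    by_cases hip : i = p
    · refine ⟨p, j, fun h => hij (hip.trans h), ?_, ?_⟩
      · rwa [Function.update_self]
      · rwa [Function.update_of_ne (fun h => hij (hip.trans h.symm))]
    · refine ⟨p, i, fun h => hip h.symm, ?_, ?_⟩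
      · rwa [Function.update_self]
      · rwa [Function.update_of_ne hip]
  obtain ⟨y', h1⟩ := A h.tr (x := y) hNs hy0 hM' (by rw [fm_tr]; exact hF')
  exact ⟨_, y', h1.tr⟩

end Pool.Agent.T6.H77.DW
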