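import Pool.Agent.T6.H77.DW.RED

/-!
# Diagonal hypersurfaces of bidegree (2, 2): escape from special reductions (helper89)
-/

set_option autoImplicit false

namespace Pool.Agent.T6.H77.DW

namespace ESC

theorem sum_cyc {M : Type} [CommRing M] (f : Fin 3 → M) (j : Fin 3) :
    ∑ i, f i = f j + f (j + 1) + f (j + 2) := by
  rw [Fin.sum_univ_three]
  fin_cases j
  · rfl
  · show f 0 + f 1 + f 2 = f 1 + f 2 + f 0
    ring
  · show f 0 + f 1 + f 2 = f 2 + f 0 + f 1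
    ring

theorem det_cyc {k : Type} [Field k] (A : Fin 3 → Fin 3 → k) (j : Fin 3) :
    (Matrix.of A).det =
      A 0 j * (A 1 (j + 1) * A 2 (j + 2) - A 2 (j + 1) * A 1 (j + 2)) -
      A 1 j * (A 0 (j + 1) * A 2 (j + 2) - A 2 (j + 1) * A 0 (j + 2)) +
      A 2 j * (A 0 (j + 1) * A 1 (j + 2) - A 1 (j + 1) * A 0 (j + 2)) := by
  rw [Matrix.det_fin_three]
  fin_cases j
  · show A 0 0 * A 1 1 * A 2 2 - A 0 0 * A 1 2 * A 2 1 - A 0 1 * A 1 0 * A 2 2 +
      A 0 1 * A 1 2 * A 2 0 + A 0 2 * A 1 0 * A 2 1 - A 0 2 * A 1 1 * A 2 0 =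
      A 0 0 * (A 1 1 * A 2 2 - A 2 1 * A 1 2) - A 1 0 * (A 0 1 * A 2 2 - A 2 1 * A 0 2) +
      A 2 0 * (A 0 1 * A 1 2 - A 1 1 * A 0 2)
    ring
  · show A 0 0 * A 1 1 * A 2 2 - A 0 0 * A 1 2 * A 2 1 - A 0 1 * A 1 0 * A 2 2 +
      A 0 1 * A 1 2 * A 2 0 + A 0 2 * A 1 0 * A 2 1 - A 0 2 * A 1 1 * A 2 0 =
      A 0 1 * (A 1 2 * A 2 0 - A 2 2 * A 1 0) - A 1 1 * (A 0 2 * A 2 0 - A 2 2 * A 0 0) +
      A 2 1 * (A 0 2 * A 1 0 - A 1 2 * A 0 0)
    ring
  · show A 0 0 * A 1 1 * A 2 2 - A 0 0 * A 1 2 * A 2 1 - A 0 1 * A 1 0 * A 2 2 +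
      A 0 1 * A 1 2 * A 2 0 + A 0 2 * A 1 0 * A 2 1 - A 0 2 * A 1 1 * A 2 0 =
      A 0 2 * (A 1 0 * A 2 1 - A 2 0 * A 1 1) - A 1 2 * (A 0 0 * A 2 1 - A 2 0 * A 0 1) +
      A 2 2 * (A 0 0 * A 1 1 - A 1 0 * A 0 1)
    ring

/-- the algebra of the escape: a vector `z` orthogonal to `u` and to `t² v + w` -/
theorem core (q₀ : ℕ) (hW : ∀ (k : Type) [Field k] [Fintype k], (2 : k) ≠ 0 →
      q₀ ≤ Fintype.card k → ∀ p r : Fin 3 → k, (∀ i, p i ≠ 0) → (∀ i, r i ≠ 0) →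
      (∀ i j, i ≠ j → p i * r j ≠ p j * r i) →
      ∃ (t c : k) (x : Fin 3 → k), t ≠ 0 ∧ c ≠ 0 ∧ (∀ i, x i ≠ 0) ∧
        ∀ i, p i * t ^ 2 + r i = c * x i ^ 2)
    {k : Type} [Field k] [Fintype k] (h2 : (2 : k) ≠ 0) (hq : q₀ ≤ Fintype.card k)
    (u v w : Fin 3 → k) (hu : ∀ i, u i ≠ 0) (huv : ∀ i i', i ≠ i' → u i * v i' ≠ u i' * v i)
    (huw : ∀ i i', i ≠ i' → u i * w i' ≠ u i' * w i)
    (hD : u 0 * (v 1 * w 2 - v 2 * w 1) - u 1 * (v 0 * w 2 - v 2 * w 0) +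
      u 2 * (v 0 * w 1 - v 1 * w 0) ≠ 0) :
    ∃ (t : k) (z : Fin 3 → k), t ≠ 0 ∧ (∀ i, z i ≠ 0) ∧ ∑ i, u i * z i ^ 2 = 0 ∧
      (∑ i, v i * z i ^ 2) * t ^ 2 + ∑ i, w i * z i ^ 2 = 0 ∧ ∑ i, v i * z i ^ 2 ≠ 0 := by
  set D := u 0 * (v 1 * w 2 - v 2 * w 1) - u 1 * (v 0 * w 2 - v 2 * w 0) +
      u 2 * (v 0 * w 1 - v 1 * w 0) with hDdef
  have e01 : (0 : Fin 3) ≠ 1 := by decide
  have e12 : (1 : Fin 3) ≠ 2 := by decide
  have e20 : (2 : Fin 3) ≠ 0 := by decide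
  obtain ⟨t, c, z, ht, hc, hz, h⟩ := hW k h2 hq
    ![u 1 * v 2 - u 2 * v 1, u 2 * v 0 - u 0 * v 2, u 0 * v 1 - u 1 * v 0]
    ![u 1 * w 2 - u 2 * w 1, u 2 * w 0 - u 0 * w 2, u 0 * w 1 - u 1 * w 0]
    (by
      intro i
      fin_cases i
      · exact sub_ne_zero.2 (huv 1 2 e12)
      · exact sub_ne_zero.2 (huv 2 0 e20)
      · exact sub_ne_zero.2 (huv 0 1 e01))
    (by
      intro i
      fin_cases i
      · exact sub_ne_zero.2 (huw 1 2 e12)
      · exact sub_ne_zero.2 (huw 2 0 e20)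
      · exact sub_ne_zero.2 (huw 0 1 e01))
    (by
      have h01 : (u 1 * v 2 - u 2 * v 1) * (u 2 * w 0 - u 0 * w 2) -
          (u 2 * v 0 - u 0 * v 2) * (u 1 * w 2 - u 2 * w 1) = D * u 2 := by
        rw [hDdef]; ring
      have h12 : (u 2 * v 0 - u 0 * v 2) * (u 0 * w 1 - u 1 * w 0) -
          (u 0 * v 1 - u 1 * v 0) * (u 2 * w 0 - u 0 * w 2) = D * u 0 := by
        rw [hDdef]; ring
      have h20 : (u 0 * v 1 - u 1 * v 0) * (u 1 * w 2 - u 2 * w 1) -
          (u 1 * v 2 - u 2 * v 1) * (u 0 * w 1 - u 1 * w 0) = D * u 1 := by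
        rw [hDdef]; ring
      have k01 := mul_ne_zero hD (hu 2)
      have k12 := mul_ne_zero hD (hu 0)
      have k20 := mul_ne_zero hD (hu 1)
      rw [← h01] at k01
      rw [← h12] at k12
      rw [← h20] at k20
      have l01 := sub_ne_zero.1 k01
      have l12 := sub_ne_zero.1 k12
      have l20 := sub_ne_zero.1 k20
      intro i j hij
      fin_cases i <;> fin_cases j
      · exact absurd rfl hij
      · exact l01
      · exact l20.symm
      · exact l01.symm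
      · exact absurd rfl hij
      · exact l12
      · exact l20
      · exact l12.symm
      · exact absurd rfl hij)
  have z0 : (u 1 * v 2 - u 2 * v 1) * t ^ 2 + (u 1 * w 2 - u 2 * w 1) = c * z 0 ^ 2 := h 0
  have z1 : (u 2 * v 0 - u 0 * v 2) * t ^ 2 + (u 2 * w 0 - u 0 * w 2) = c * z 1 ^ 2 := h 1
  have z2 : (u 0 * v 1 - u 1 * v 0) * t ^ 2 + (u 0 * w 1 - u 1 * w 0) = c * z 2 ^ 2 := h 2
  have hU0 : u 0 * z 0 ^ 2 + u 1 * z 1 ^ 2 + u 2 * z 2 ^ 2 = 0 := by
    have : c * (u 0 * z 0 ^ 2 + u 1 * z 1 ^ 2 + u 2 * z 2 ^ 2) = 0 := by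
      linear_combination (-(u 0)) * z0 - u 1 * z1 - u 2 * z2
    exact (mul_eq_zero.1 this).resolve_left hc
  have hV0 : (v 0 * z 0 ^ 2 + v 1 * z 1 ^ 2 + v 2 * z 2 ^ 2) * t ^ 2 +
      (w 0 * z 0 ^ 2 + w 1 * z 1 ^ 2 + w 2 * z 2 ^ 2) = 0 := by
    have : c * ((v 0 * z 0 ^ 2 + v 1 * z 1 ^ 2 + v 2 * z 2 ^ 2) * t ^ 2 +
      (w 0 * z 0 ^ 2 + w 1 * z 1 ^ 2 + w 2 * z 2 ^ 2)) = 0 := by
      linear_combination (-(v 0 * t ^ 2 + w 0)) * z0 - (v 1 * t ^ 2 + w 1) * z1 -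
        (v 2 * t ^ 2 + w 2) * z2
    exact (mul_eq_zero.1 this).resolve_left hc
  refine ⟨t, z, ht, hz, ?_, ?_, ?_⟩
  · rw [Fin.sum_univ_three]
    exact hU0
  · rw [Fin.sum_univ_three, Fin.sum_univ_three]
    exact hV0
  · rw [Fin.sum_univ_three]
    intro hv
    rw [hv, zero_mul, zero_add] at hV0
    have : D * z 0 ^ 2 = 0 := by
      rw [hDdef]
      linear_combination (v 1 * w 2 - v 2 * w 1) * hU0 - (u 1 * w 2 - u 2 * w 1) * hv +
        (u 1 * v 2 - u 2 * v 1) * hV0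
    exact mul_ne_zero hD (pow_ne_zero 2 (hz 0)) this

theorem two_norm {L k : Type} [NontriviallyNormedField L] [IsUltrametricDist L] [Field k]
    {π : L → k} (h : Res π) (h2 : (2 : k) ≠ 0) : ‖(2 : L)‖ = 1 := by
  have h1 : ‖(2 : L)‖ ≤ 1 := by
    have : (2 : L) = 1 + 1 := by norm_num
    rw [this]
    exact (IsUltrametricDist.norm_add_le_max _ _).trans (by simp)
  have h3 : π 2 = 2 := by
    have : (2 : L) = 1 + 1 := by norm_num
    rw [this, h.add 1 1 (by simp) (by simp), h.one]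
    norm_num
  rcases lt_or_eq_of_le h1 with hlt | heq
  · exact absurd ((h.ker 2 h1).2 hlt) (by rw [h3]; exact h2)
  · exact heq

theorem norm_eq_one {L k : Type} [NontriviallyNormedField L] [Field k]
    {π : L → k} (h : Res π) {x : L} (hx : ‖x‖ ≤ 1) (hpi : π x ≠ 0) : ‖x‖ = 1 := by
  rcases lt_or_eq_of_le hx with hlt | heq
  · exact absurd ((h.ker x hx).2 hlt) hpi
  · exact heq

theorem red_near {L k : Type} [NontriviallyNormedField L] [IsUltrametricDist L] [Field k]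
    {π : L → k} (h : Res π) {x y : L} (hy : ‖y‖ ≤ 1) (hxy : ‖x - y‖ < 1) :
    ‖x‖ ≤ 1 ∧ π x = π y := by
  have h1 : x = (x - y) + y := by ring
  constructor
  · rw [h1]
    exact (IsUltrametricDist.norm_add_le_max _ _).trans (max_le hxy.le hy)
  · rw [h1, h.add _ _ hxy.le hy, (h.ker _ hxy.le).2 hxy, zero_add]

end ESC

open ESC in
theorem esc (hS : StmSC) (hW : StmFW) (hU : StmU) (hL : StmLIFT) : StmESC := by
  obtain ⟨q₀, hW⟩ := hW
  refine ⟨q₀, ?_⟩
  intro L k _ _ _ _ _ π hπ hq a ha hg x y hxy hx hy hx0 hy0 hns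
  have htwo : ‖(2 : L)‖ = 1 := two_norm hπ hg.two
  obtain ⟨i₀, hi₀⟩ := hx0
  obtain ⟨j, hj⟩ := hy0
  have hyz : ∀ i, i ≠ j → π (y i) = 0 := by
    intro i hi
    by_contra hc
    exact hns ⟨i, j, hi, hc, hj⟩
  have hj1 : j + 1 ≠ j := by fin_cases j <;> decide
  have hj2 : j + 2 ≠ j := by fin_cases j <;> decide
  have hj12 : j + 1 ≠ j + 2 := by fin_cases j <;> decide
  have hcase : ∀ i : Fin 3, i = j ∨ i = j + 1 ∨ i = j + 2 := by
    intro i
    fin_cases i <;> fin_cases j <;> decide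
  -- the vector over the residue field
  obtain ⟨t, z, ht, hz, hzu, hzv, hzn⟩ := core q₀ hW hg.two hq
    (fun i => π (a i j)) (fun i => π (a i (j + 1))) (fun i => π (a i (j + 2)))
    (fun i => hg.ent i j)
    (fun i i' hii' => by
      have := hg.min i i' j (j + 1) hii' (Ne.symm hj1)
      intro e
      apply this
      show π (a i j) * π (a i' (j + 1)) = π (a i (j + 1)) * π (a i' j)
      rw [e, mul_comm])
    (fun i i' hii' => by
      have := hg.min i i' j (j + 2) hii' (Ne.symm hj2)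
      intro e
      apply this
      show π (a i j) * π (a i' (j + 2)) = π (a i (j + 2)) * π (a i' j)
      rw [e, mul_comm])
    (by
      have := hg.det
      rw [det_cyc _ j] at this
      exact this)
  -- the coefficients of the conic over the residue field
  have hlf : ∀ i, lf (fun i j => π (a i j)) (fun i => π (y i)) i = π (a i j) * π (y j) ^ 2 := by
    intro i
    unfold lf
    rw [sum_cyc _ j]
    show π (a i j) * π (y j) ^ 2 + π (a i (j + 1)) * π (y (j + 1)) ^ 2 +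
      π (a i (j + 2)) * π (y (j + 2)) ^ 2 = π (a i j) * π (y j) ^ 2
    rw [hyz _ hj1, hyz _ hj2]
    ring
  -- choice of signs
  obtain ⟨z', hz'sq, hz'0, hz'pl⟩ : ∃ z' : Fin 3 → k, (∀ i, z' i ^ 2 = z i ^ 2) ∧
      (∀ i, z' i ≠ 0) ∧
      pl (fun i j => π (a i j)) (fun i => π (y i)) (fun i => π (x i)) z' ≠ 0 := by
    by_cases hp : pl (fun i j => π (a i j)) (fun i => π (y i)) (fun i => π (x i)) z = 0
    · refine ⟨Function.update z i₀ (-z i₀), ?_, ?_, ?_⟩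
      · intro i
        by_cases h : i = i₀
        · rw [h, Function.update_self]
          ring
        · rw [Function.update_of_ne h]
      · intro i
        by_cases h : i = i₀
        · rw [h, Function.update_self]
          exact neg_ne_zero.2 (hz i₀)
        · rw [Function.update_of_ne h]
          exact hz i
      · intro hc
        have h1 : pl (fun i j => π (a i j)) (fun i => π (y i)) (fun i => π (x i)) z -
            pl (fun i j => π (a i j)) (fun i => π (y i)) (fun i => π (x i))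
              (Function.update z i₀ (-z i₀)) =
            2 * (π (a i₀ j) * π (y j) ^ 2 * π (x i₀) * z i₀) := by
          unfold pl
          rw [← Finset.sum_sub_distrib, Finset.sum_eq_single i₀]
          · rw [hlf, Function.update_self]
            ring
          · intro i _ hi
            rw [Function.update_of_ne hi, sub_self]
          · intro h
            exact absurd (Finset.mem_univ i₀) h
        rw [hp, hc, sub_zero] at h1
        exact mul_ne_zero hg.two (mul_ne_zero (mul_ne_zero (mul_ne_zero (hg.ent i₀ j)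
          (pow_ne_zero 2 hj)) hi₀) (hz i₀)) h1.symm
    · exact ⟨z, fun i => rfl, hz, hp⟩
  -- the first move
  have hfm : fm (fun i j => π (a i j)) z' (fun i => π (y i)) = 0 := by
    unfold fm
    have h1 : ∀ i, lf (fun i j => π (a i j)) (fun i => π (y i)) i * z' i ^ 2 =
        π (y j) ^ 2 * (π (a i j) * z i ^ 2) := by
      intro i
      rw [hlf, hz'sq]
      ring
    rw [Finset.sum_congr rfl fun i _ => h1 i, ← Finset.mul_sum, hzu, mul_zero]
  obtain ⟨x', hx', hx'z, hord', hpl'⟩ := hL L k π hπ a ha hg x y hxy hx hy z' hfm hz'pl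
  -- reductions of `M_j (x')`
  have hM : ∀ m, π (lf (tr a) x' m) = ∑ i, π (a i m) * z i ^ 2 := by
    intro m
    have hat : ∀ i j, ‖tr a i j‖ ≤ 1 := fun i j => ha j i
    rw [lf_red hat hπ hx' m]
    unfold lf tr
    refine Finset.sum_congr rfl fun i _ => ?_
    show π (a i m) * π (x' i) ^ 2 = π (a i m) * z i ^ 2
    rw [hx'z, hz'sq]
  obtain ⟨t', ht'1, ht't⟩ := hπ.surj t
  have hat : ∀ i j, ‖tr a i j‖ ≤ 1 := fun i j => ha j i
  -- the second move
  set w : Fin 3 → L := fun i => if i = j then 0 else if i = j + 1 then t' else 1 with hw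
  have hwj : w j = 0 := by simp [hw]
  have hwj1 : w (j + 1) = t' := by simp [hw, hj1]
  have hwj2 : w (j + 2) = 1 := by simp [hw, hj2, hj12.symm]
  have hw1 : ∀ i, ‖w i‖ ≤ 1 := by
    intro i
    rcases hcase i with h | h | h
    · rw [h, hwj]; simp
    · rw [h, hwj1]; exact ht'1
    · rw [h, hwj2]; simp
  have ht'n : ‖t'‖ = 1 := norm_eq_one hπ ht'1 (by rw [ht't]; exact ht)
  have hMn : ‖lf (tr a) x' (j + 1)‖ = 1 := by
    refine norm_eq_one hπ (lf_le hat hx' _) ?_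
    rw [hM]
    exact hzn
  have hF : ‖fm (tr a) w x'‖ < 1 := by
    have h1 : ‖fm (tr a) w x'‖ ≤ 1 :=
      sum3_le fun i => mul_le1 (lf_le hat hx' i) (sq_le1 (hw1 i))
    refine (hπ.ker _ h1).1 ?_
    unfold fm
    rw [hπ.sum3 fun i => mul_le1 (lf_le hat hx' i) (sq_le1 (hw1 i))]
    have h2 : ∀ i, π (lf (tr a) x' i * w i ^ 2) = π (lf (tr a) x' i) * π (w i) ^ 2 := by
      intro i
      rw [hπ.mul _ _ (lf_le hat hx' i) (sq_le1 (hw1 i)), hπ.sq (hw1 i)]
    rw [Finset.sum_congr rfl fun i _ => h2 i, sum_cyc _ j, hwj, hwj1, hwj2, hπ.zero, hπ.one, ht't,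
      hM, hM, hM]
    have h3 : (∑ i, π (a i j) * z i ^ 2) = 0 := hzu
    have h4 : (∑ i, π (a i (j + 1)) * z i ^ 2) * t ^ 2 + ∑ i, π (a i (j + 2)) * z i ^ 2 = 0 := hzv
    rw [h3]
    linear_combination h4
  obtain ⟨y', hy'0, hy'M, hy'n⟩ := hU L htwo (tr a) x' hord'.hx
    (by
      intro m
      by_contra hc
      push Not at hc
      have h1 : a m 0 * fm a x' y = lf (tr a) x' 0 * lf a y m := by
        rw [← fm_tr]
        have h3 : lf a y m = ∑ i, a m i * y i ^ 2 := rfl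
        unfold fm
        rw [h3, Finset.mul_sum, Finset.mul_sum]
        refine Finset.sum_congr rfl fun i _ => ?_
        have h2 : lf (tr a) x' i * a m 0 = lf (tr a) x' 0 * a m i := hc i 0
        linear_combination (y i ^ 2) * h2
      rw [hord'.on, mul_zero] at h1
      exact mul_ne_zero (hord'.hx 0) (hord'.hy m) h1.symm)
    w (j + 1) (by rw [hwj1]; intro h0; rw [h0, norm_zero] at ht'n; exact zero_ne_one ht'n)
    (max ‖fm (tr a) w x'‖ (1 / 2)) (lt_max_of_lt_right (by norm_num))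
    (max_lt hF (by norm_num))
    (by rw [hMn, hwj1, ht'n, one_pow, mul_one, mul_one]; exact le_max_left _ _)
  have hδ : max ‖fm (tr a) w x'‖ (1 / 2) < 1 := max_lt hF (by norm_num)
  have hy'w : ∀ i, ‖y' i‖ ≤ 1 ∧ π (y' i) = π (w i) := by
    intro i
    refine red_near hπ (hw1 i) (lt_of_le_of_lt (hy'n i) ?_)
    rw [hwj1, ht'n, mul_one]
    exact hδ
  have hord'' : Ord a x' y' := by
    refine ⟨?_, hord'.hx, ?_⟩
    · rw [← fm_tr]
      exact hy'0
    · exact hy'M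
  have hpl'' : pl (tr a) x' y y' ≠ 0 := by
    intro hc
    have h1 := hS L (lf (tr a) x') y y' hord'.hx
      (by have := hord'.on; rw [← fm_tr] at this; exact this)
      hy'0 hc j (j + 2)
    have h2 : π (y j) * π (y' (j + 2)) = π (y (j + 2)) * π (y' j) := by
      rw [← hπ.mul _ _ (hy j) (hy'w _).1, ← hπ.mul _ _ (hy _) (hy'w _).1, h1]
    rw [(hy'w (j + 2)).2, hwj2, hπ.one, hyz _ hj2, zero_mul, mul_one] at h2
    exact hj h2
  refine ⟨x', y', hx', fun i => (hy'w i).1, hord'', ?_, ?_, ?_⟩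
  · refine Cn.step 1 _ (x', y) _ (Cn.step 0 _ (x, y) _ (Cn.refl 0 _) hord' ?_) hord'' ?_
    · exact Or.inl ⟨rfl, hpl'⟩
    · exact Or.inr ⟨rfl, hpl''⟩
  · refine ⟨0, 1, by decide, ?_, ?_⟩
    · show π (x' 0) ≠ 0
      rw [hx'z]
      exact hz'0 0
    · show π (x' 1) ≠ 0
      rw [hx'z]
      exact hz'0 1
  · refine ⟨j + 1, j + 2, hj12, ?_, ?_⟩
    · show π (y' (j + 1)) ≠ 0
      rw [(hy'w _).2, hwj1, ht't]
      exact ht
    · show π (y' (j + 2)) ≠ 0
      rw [(hy'w _).2, hwj2, hπ.one]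
      exact one_ne_zero

end Pool.Agent.T6.H77.DW
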