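import Pool.Agent.T6.H77.DW.RED

/-!
# Growth and mixing over a large finite field (module FG, helper61)
-/

set_option autoImplicit false

namespace Pool.Agent.T6.H77.DW

namespace FG

variable {k : Type} [Field k]

/-- the vector of the squares -/
def sq (w : Fin 3 → k) : Fin 3 → k := fun i => w i ^ 2

theorem card_sq (X : Fin 3 → k) : {w : Fin 3 → k | sq w = X}.ncard ≤ 8 := by
  classical
  rcases Set.eq_empty_or_nonempty {w : Fin 3 → k | sq w = X} with h | ⟨w0, hw0⟩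
  · rw [h]; simp
  · have hsub : {w : Fin 3 → k | sq w = X} ⊆
        (fun s : Fin 3 → Bool => fun i => if s i then w0 i else - w0 i) '' Set.univ := by
      intro w hw
      refine ⟨fun i => decide (w i = w0 i), Set.mem_univ _, ?_⟩
      funext i
      have h1 : w i ^ 2 = w0 i ^ 2 := by
        have e1 := congrFun hw i
        have e2 := congrFun hw0 i
        simp only [sq] at e1 e2
        rw [e1, e2]
      rcases sq_eq_sq_iff_eq_or_eq_neg.1 h1 with h2 | h2
      · simp [h2]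
      · by_cases h3 : w i = w0 i
        · simp [h3]
        · simp only [h3, decide_false]
          rw [h2]; simp
    refine (Set.ncard_le_ncard hsub (Set.toFinite _)).trans ?_
    refine (Set.ncard_image_le (Set.toFinite _)).trans ?_
    rw [Set.ncard_univ, Nat.card_eq_fintype_card]
    simp

variable [Fintype k]

theorem card_sq_le (S : Set (Fin 3 → k)) : {w : Fin 3 → k | sq w ∈ S}.ncard ≤ 8 * S.ncard := by
  classical
  rw [Set.ncard_eq_toFinset_card _ (Set.toFinite _), Set.ncard_eq_toFinset_card S (Set.toFinite _)]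
  refine Finset.card_le_mul_card_image_of_maps_to (f := sq) (fun w hw => ?_) 8 (fun X _ => ?_)
  · rw [Set.Finite.mem_toFinset] at hw ⊢
    exact hw
  · have h := card_sq X
    rw [Set.ncard_eq_toFinset_card _ (Set.toFinite _)] at h
    refine (Finset.card_le_card ?_).trans h
    intro w hw
    rw [Finset.mem_filter] at hw
    rw [Set.Finite.mem_toFinset]
    exact hw.2

theorem card_line (n : Fin 3 → k) :
    {w : Fin 3 → k | ∃ c : k, ∀ i, w i ^ 2 = c * n i}.ncard ≤ 8 * Fintype.card k := by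
  have h := card_sq_le ((fun (c : k) (i : Fin 3) => c * n i) '' Set.univ)
  have h1 : ((fun (c : k) (i : Fin 3) => c * n i) '' Set.univ).ncard ≤ Fintype.card k := by
    refine (Set.ncard_image_le (Set.toFinite _)).trans ?_
    rw [Set.ncard_univ, Nat.card_eq_fintype_card]
  refine (Set.ncard_le_ncard ?_ (Set.toFinite _)).trans (h.trans (Nat.mul_le_mul_left 8 h1))
  rintro w ⟨c, hc⟩
  exact ⟨c, Set.mem_univ _, (funext fun i => (hc i)).symm⟩

theorem card_prop {a : Fin 3 → Fin 3 → k} (hG : Gd a) (y : Fin 3 → k) (hy : ∃ i, lf a y i ≠ 0) :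
    {y' : Fin 3 → k | ∀ i i', lf a y i * lf a y' i' = lf a y i' * lf a y' i}.ncard ≤
      8 * Fintype.card k := by
  obtain ⟨i0, h0⟩ := hy
  refine (Set.ncard_le_ncard ?_ (Set.toFinite _)).trans (card_line (sq y))
  intro y' hy'
  refine ⟨lf a y' i0 / lf a y i0, ?_⟩
  set c := lf a y' i0 / lf a y i0 with hc
  have h1 : ∀ i, lf a y' i = c * lf a y i := by
    intro i
    have := hy' i0 i
    rw [hc]
    field_simp
    linear_combination this
  have h2 : (Matrix.of a).mulVec (fun j => y' j ^ 2 - c * y j ^ 2) = 0 := by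
    funext i
    have h3 := h1 i
    simp only [lf] at h3
    simp only [Matrix.mulVec, dotProduct, Matrix.of_apply, Pi.zero_apply, mul_sub,
      Finset.sum_sub_distrib]
    rw [h3, Finset.mul_sum, sub_eq_zero]
    exact Finset.sum_congr rfl fun j _ => by ring
  have h4 := Matrix.eq_zero_of_mulVec_eq_zero hG.det h2
  intro j
  have h5 := congrFun h4 j
  simp only [Pi.zero_apply, sub_eq_zero] at h5
  exact h5

theorem card_two (l m : Fin 3 → k) (h : ∃ i i', l i * m i' ≠ l i' * m i) :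
    {x : Fin 3 → k | ∑ i, l i * x i ^ 2 = 0 ∧ ∑ i, m i * x i ^ 2 = 0}.ncard ≤
      8 * Fintype.card k := by
  refine (Set.ncard_le_ncard ?_ (Set.toFinite _)).trans
    (card_line ![l 1 * m 2 - l 2 * m 1, l 2 * m 0 - l 0 * m 2, l 0 * m 1 - l 1 * m 0])
  rintro x ⟨h1, h2⟩
  rw [Fin.sum_univ_three] at h1 h2
  set n : Fin 3 → k := ![l 1 * m 2 - l 2 * m 1, l 2 * m 0 - l 0 * m 2, l 0 * m 1 - l 1 * m 0]
    with hn
  have n0 : n 0 = l 1 * m 2 - l 2 * m 1 := rfl
  have n1 : n 1 = l 2 * m 0 - l 0 * m 2 := rfl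
  have n2 : n 2 = l 0 * m 1 - l 1 * m 0 := rfl
  have e01 : x 0 ^ 2 * n 1 = x 1 ^ 2 * n 0 := by
    rw [n0, n1]; linear_combination m 2 * (-1) * h1 + l 2 * h2
  have e02 : x 0 ^ 2 * n 2 = x 2 ^ 2 * n 0 := by
    rw [n0, n2]; linear_combination m 1 * h1 - l 1 * h2
  have e12 : x 1 ^ 2 * n 2 = x 2 ^ 2 * n 1 := by
    rw [n1, n2]; linear_combination (-1) * m 0 * h1 + l 0 * h2
  have hne : ∃ p, n p ≠ 0 := by
    by_contra hcon
    push Not at hcon
    have c0 := hcon 0
    have c1 := hcon 1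
    have c2 := hcon 2
    rw [n0] at c0
    rw [n1] at c1
    rw [n2] at c2
    obtain ⟨i, i', hii⟩ := h
    apply hii
    fin_cases i <;> fin_cases i' <;> simp only [Fin.zero_eta, Fin.mk_one, Fin.reduceFinMk] <;>
      first
      | ring1
      | linear_combination c0
      | linear_combination c1
      | linear_combination c2
      | linear_combination (-1) * c0
      | linear_combination (-1) * c1
      | linear_combination (-1) * c2
  obtain ⟨p, hp⟩ := hne
  refine ⟨x p ^ 2 / n p, fun i => ?_⟩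
  have key : x i ^ 2 * n p = x p ^ 2 * n i := by
    fin_cases p <;> fin_cases i <;> simp only [Fin.zero_eta, Fin.mk_one, Fin.reduceFinMk] <;>
      first
      | rfl
      | exact e01
      | exact e02
      | exact e12
      | exact e01.symm
      | exact e02.symm
      | exact e12.symm
  field_simp
  exact key

theorem card_plane (l : Fin 3 → k) (i0 : Fin 3) (h0 : l i0 ≠ 0) :
    {X : Fin 3 → k | ∑ i, l i * X i = 0}.ncard ≤ Fintype.card k ^ 2 := by
  have h : {X : Fin 3 → k | ∑ i, l i * X i = 0}.ncard ≤ (Set.univ : Set (Fin 2 → k)).ncard := by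
    refine Set.ncard_le_ncard_of_injOn (fun X j => X (i0.succAbove j)) (fun _ _ => Set.mem_univ _)
      ?_ (Set.toFinite _)
    intro X hX Y hY hXY
    have e1 : ∀ j, X (i0.succAbove j) = Y (i0.succAbove j) := fun j => congrFun hXY j
    have hX' : ∑ i, l i * X i = 0 := hX
    have hY' : ∑ i, l i * Y i = 0 := hY
    rw [Fin.sum_univ_succAbove _ i0] at hX' hY'
    have e2 : l i0 * X i0 = l i0 * Y i0 := by
      have : ∑ j, l (i0.succAbove j) * X (i0.succAbove j) =
          ∑ j, l (i0.succAbove j) * Y (i0.succAbove j) :=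
        Finset.sum_congr rfl fun j _ => by rw [e1 j]
      rw [this] at hX'
      linear_combination hX' - hY'
    have e3 : X i0 = Y i0 := mul_left_cancel₀ h0 e2
    funext i
    by_cases hi : i = i0
    · rw [hi, e3]
    · obtain ⟨j, rfl⟩ := Fin.exists_succAbove_eq hi
      exact e1 j
  rw [Set.ncard_univ, Nat.card_eq_fintype_card] at h
  simpa using h

theorem card_M {a : Fin 3 → Fin 3 → k} (hG : Gd a) (j : Fin 3) :
    {w : Fin 3 → k | lf (tr a) w j = 0}.ncard ≤ 8 * Fintype.card k ^ 2 := by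
  have h := card_sq_le {X : Fin 3 → k | ∑ i, a i j * X i = 0}
  have h1 := card_plane (fun i => a i j) 0 (hG.ent 0 j)
  exact h.trans (Nat.mul_le_mul_left 8 h1)

theorem card_coord (j : Fin 3) : {w : Fin 3 → k | w j = 0}.ncard ≤ Fintype.card k ^ 2 := by
  classical
  have h1 := card_plane (Pi.single j (1 : k)) j (by simp)
  refine (Set.ncard_le_ncard ?_ (Set.toFinite _)).trans h1
  intro w hw
  have hw' : w j = 0 := hw
  change ∑ i, (Pi.single j (1 : k) : Fin 3 → k) i * w i = 0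
  rw [Finset.sum_eq_single j (fun i _ hij => by simp [Pi.single_eq_of_ne hij])
    (fun h => absurd (Finset.mem_univ j) h)]
  simp [hw']

/-- the ordinary second components which are reached in two moves -/
def R (a : Fin 3 → Fin 3 → k) (x y : Fin 3 → k) : Set (Fin 3 → k) :=
  {y2 | (∃ x1, fm a x1 y = 0 ∧ pl a y x x1 ≠ 0 ∧ Ord a x1 y2 ∧ pl (tr a) x1 y y2 ≠ 0) ∧
    ∃ i i', lf a y i * lf a y2 i' ≠ lf a y i' * lf a y2 i}

theorem growth (hC : StmC1) {a : Fin 3 → Fin 3 → k} (hG : Gd a) {x y : Fin 3 → k}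
    (h : Ord a x y) (hq : 1000 ≤ Fintype.card k) :
    Fintype.card k ^ 3 ≤ 10 * (R a x y).ncard := by
  classical
  have hx0 : x ≠ 0 := by
    rintro rfl
    exact h.hx 0 (by simp [lf])
  have hy0 : y ≠ 0 := by
    rintro rfl
    exact h.hy 0 (by simp [lf])
  set q := Fintype.card k with hqd
  set S : Set (Fin 3 → k) :=
    {x' | fm a x' y = 0 ∧ (∀ j, lf (tr a) x' j ≠ 0) ∧ pl a y x x' ≠ 0} with hS
  have hS1 : q ^ 2 ≤ 30 * q + S.ncard := hC k a hG y h.ns_right h.hy x hx0 h.on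
  set T : (Fin 3 → k) → Set (Fin 3 → k) := fun x1 =>
    {y2 | fm (tr a) y2 x1 = 0 ∧ (∀ i, lf a y2 i ≠ 0) ∧ pl (tr a) x1 y y2 ≠ 0} with hT
  set P : Set (Fin 3 → k) := {y' | ∀ i i', lf a y i * lf a y' i' = lf a y i' * lf a y' i} with hP
  have hP1 : P.ncard ≤ 8 * q := card_prop hG y ⟨0, h.hy 0⟩
  have hordS : ∀ x1 ∈ S, Ord a x1 y := fun x1 hx1 => ⟨hx1.1, hx1.2.1, h.hy⟩
  have hT1 : ∀ x1 ∈ S, q ^ 2 ≤ 38 * q + (T x1 \ P).ncard := by
    intro x1 hx1
    have ho := hordS x1 hx1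
    have h1 : q ^ 2 ≤ 30 * q + (T x1).ncard :=
      hC k (tr a) hG.tr x1 ho.ns_left ho.hx y hy0 (by rw [fm_tr]; exact ho.on)
    have h2 : (T x1).ncard ≤ (T x1 \ P).ncard + P.ncard := by
      have h3 : T x1 ⊆ (T x1 \ P) ∪ P := by
        intro z hz
        by_cases hzP : z ∈ P
        · exact Or.inr hzP
        · exact Or.inl ⟨hz, hzP⟩
      exact (Set.ncard_le_ncard h3 (Set.toFinite _)).trans (Set.ncard_union_le _ _)
    omega
  have hmul := Finset.card_mul_le_card_mul (s := (Set.toFinite S).toFinset)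
    (t := (Set.toFinite (R a x y)).toFinset) (m := q ^ 2 - 38 * q) (n := 8 * q)
    (fun x1 y2 => y2 ∈ T x1 \ P) (by
      intro x1 hx1
      have hx1' : x1 ∈ S := by simpa only [Set.Finite.mem_toFinset] using hx1
      have h1 := hT1 x1 hx1'
      rw [Set.ncard_eq_toFinset_card _ (Set.toFinite _)] at h1
      have h2 : (Set.toFinite (T x1 \ P)).toFinset ⊆
          ((Set.toFinite (R a x y)).toFinset).bipartiteAbove (fun x1 y2 => y2 ∈ T x1 \ P) x1 := by
        intro y2 hy2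
        have hy2' : y2 ∈ T x1 \ P := by
          simpa only [Set.Finite.mem_toFinset] using hy2
        rw [Finset.mem_bipartiteAbove]
        refine ⟨?_, hy2'⟩
        rw [Set.Finite.mem_toFinset]
        refine ⟨⟨x1, hx1'.1, hx1'.2.2, ⟨?_, hx1'.2.1, hy2'.1.2.1⟩, hy2'.1.2.2⟩, ?_⟩
        · have := hy2'.1.1
          rw [fm_tr] at this
          exact this
        · have h3 := hy2'.2
          by_contra h4
          push Not at h4
          exact h3 h4
      have h3 := Finset.card_le_card h2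
      omega) (by
      intro y2 hy2
      have hy2' : y2 ∈ R a x y := by simpa only [Set.Finite.mem_toFinset] using hy2
      obtain ⟨_, hnp⟩ := hy2'
      have h1 := card_two (lf a y) (lf a y2) hnp
      refine le_trans ?_ h1
      rw [Set.ncard_eq_toFinset_card _ (Set.toFinite _)]
      refine Finset.card_le_card ?_
      intro x1 hx1
      rw [Finset.mem_bipartiteBelow] at hx1
      have hx1S : x1 ∈ S := by simpa only [Set.Finite.mem_toFinset] using hx1.1
      rw [Set.Finite.mem_toFinset]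
      refine ⟨hx1S.1, ?_⟩
      have := hx1.2.1.1
      rw [fm_tr] at this
      exact this)
  rw [← Set.ncard_eq_toFinset_card, ← Set.ncard_eq_toFinset_card] at hmul
  obtain ⟨p, hp⟩ : ∃ p, q = p + 38 := ⟨q - 38, by omega⟩
  have e1 : q ^ 2 - 38 * q = p * (p + 38) := by
    rw [hp]
    have : (p + 38) ^ 2 = p * (p + 38) + 38 * (p + 38) := by ring
    omega
  have e2 : (p + 8) * (p + 38) ≤ S.ncard := by
    have : (p + 38) ^ 2 = (p + 8) * (p + 38) + 30 * (p + 38) := by ring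
    rw [hp] at hS1
    omega
  rw [e1] at hmul
  have e3 : (p + 8) * (p + 38) * (p * (p + 38)) ≤ (R a x y).ncard * (8 * q) :=
    (Nat.mul_le_mul_right _ e2).trans hmul
  have e4 : 8 * (p + 38) ^ 4 ≤ 10 * ((p + 8) * (p + 38) * (p * (p + 38))) := by
    have h5 : 962 ≤ p := by omega
    have h6 : 8 * (p + 38) ^ 2 ≤ 10 * ((p + 8) * p) := by nlinarith
    calc 8 * (p + 38) ^ 4 = (8 * (p + 38) ^ 2) * (p + 38) ^ 2 := by ring
      _ ≤ (10 * ((p + 8) * p)) * (p + 38) ^ 2 := Nat.mul_le_mul_right _ h6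
      _ = _ := by ring
  have e5 : (8 * q) * q ^ 3 ≤ (8 * q) * (10 * (R a x y).ncard) := by
    calc (8 * q) * q ^ 3 = 8 * (p + 38) ^ 4 := by rw [hp]; ring
      _ ≤ _ := e4
      _ ≤ 10 * ((R a x y).ncard * (8 * q)) := Nat.mul_le_mul_left 10 e3
      _ = _ := by ring
  exact Nat.le_of_mul_le_mul_left e5 (by omega)

theorem mixing (hM : StmMX) {a : Fin 3 → Fin 3 → k} (hG : Gd a) {x y : Fin 3 → k}
    (hg : Fintype.card k ^ 3 ≤ 10 * (R a x y).ncard) :
    {w : Fin 3 → k | 2 * Fintype.card k *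
      {y2 | y2 ∈ R a x y ∧ ∑ i, w i ^ 2 * lf a y2 i = 0}.ncard < (R a x y).ncard}.ncard ≤
      2560 * Fintype.card k ^ 2 := by
  have hq0 : 0 < Fintype.card k := Fintype.card_pos
  have h0 : (0 : Fin 3 → k) ∉ R a x y := by
    rintro ⟨⟨x1, _, _, ho, _⟩, _⟩
    exact ho.hy 0 (by simp [lf])
  have h1 := hM k a hG (R a x y) h0
  set Z : Set (Fin 3 → k) := {X : Fin 3 → k | 2 * Fintype.card k *
      {y2 | y2 ∈ R a x y ∧ ∑ i, X i * lf a y2 i = 0}.ncard < (R a x y).ncard} with hZ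
  have h2 : Z.ncard ≤ 320 * Fintype.card k ^ 2 := by
    have h3 : Fintype.card k ^ 3 * Z.ncard ≤ Fintype.card k ^ 3 * (320 * Fintype.card k ^ 2) := by
      calc Fintype.card k ^ 3 * Z.ncard ≤ (10 * (R a x y).ncard) * Z.ncard :=
            Nat.mul_le_mul_right _ hg
        _ = 10 * (Z.ncard * (R a x y).ncard) := by ring
        _ ≤ 10 * (32 * Fintype.card k ^ 5) := Nat.mul_le_mul_left 10 h1
        _ = _ := by ring
    exact Nat.le_of_mul_le_mul_left h3 (by positivity)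
  have h4 := card_sq_le Z
  have h5 : {w : Fin 3 → k | sq w ∈ Z}.ncard ≤ 2560 * Fintype.card k ^ 2 := by
    calc _ ≤ 8 * Z.ncard := h4
      _ ≤ 8 * (320 * Fintype.card k ^ 2) := Nat.mul_le_mul_left 8 h2
      _ = _ := by ring
  exact h5

/-- a vector with one sign changed -/
def sg (w : Fin 3 → k) (p : Fin 3) : Fin 3 → k := fun i => if i = p then - w i else w i

omit [Fintype k] in
theorem sg_sq (w : Fin 3 → k) (p i : Fin 3) : sg w p i ^ 2 = w i ^ 2 := by
  unfold sg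
  split_ifs <;> ring

omit [Fintype k] in
theorem sg_ne {w : Fin 3 → k} (hw : ∀ i, w i ≠ 0) (p i : Fin 3) : sg w p i ≠ 0 := by
  unfold sg
  split_ifs
  · exact neg_ne_zero.2 (hw i)
  · exact hw i

omit [Fintype k] in
theorem sg_uniq (h2 : (2 : k) ≠ 0) {w : Fin 3 → k} (hw : ∀ i, w i ≠ 0) {x : Fin 3 → k}
    (hx : x ≠ 0) (p p' : Fin 3) (h : ∀ i j, x i * sg w p j = x j * sg w p i)
    (h' : ∀ i j, x i * sg w p' j = x j * sg w p' i) : p = p' := by
  by_contra hpp
  obtain ⟨r, hr, hr'⟩ : ∃ r : Fin 3, r ≠ p ∧ r ≠ p' := by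
    clear h h' hx
    revert p p'; decide
  have e1 := h p r
  have e2 := h' p r
  have f1 : sg w p r = w r := by simp [sg, hr]
  have f2 : sg w p p = - w p := by simp [sg]
  have f3 : sg w p' r = w r := by simp [sg, hr']
  have f4 : sg w p' p = w p := by simp [sg, hpp]
  rw [f1, f2] at e1
  rw [f3, f4] at e2
  have e3 : 2 * (x r * w p) = 0 := by linear_combination e1 - e2
  have e4 : x r = 0 :=
    (mul_eq_zero.1 ((mul_eq_zero.1 e3).resolve_left h2)).resolve_right (hw p)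
  apply hx
  funext i
  have e5 := h i r
  rw [e4, zero_mul] at e5
  exact (mul_eq_zero.1 e5).resolve_right (sg_ne hw p r)

omit [Fintype k] in
theorem exists_sg (h2 : (2 : k) ≠ 0) {w : Fin 3 → k} (hw : ∀ i, w i ≠ 0) {x x' : Fin 3 → k}
    (hx : x ≠ 0) (hx' : x' ≠ 0) : ∃ p, (∃ i j, x i * sg w p j ≠ x j * sg w p i) ∧
      ∃ i j, x' i * sg w p j ≠ x' j * sg w p i := by
  by_contra hcon
  push Not at hcon
  have h : ∀ p, (∀ i j, x i * sg w p j = x j * sg w p i) ∨
      ∀ i j, x' i * sg w p j = x' j * sg w p i := by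
    intro p
    by_cases hp : ∃ i j, x i * sg w p j ≠ x j * sg w p i
    · exact Or.inr (hcon p hp)
    · left
      push Not at hp
      exact hp
  have d01 : (0 : Fin 3) ≠ 1 := by decide
  have d02 : (0 : Fin 3) ≠ 2 := by decide
  have d12 : (1 : Fin 3) ≠ 2 := by decide
  rcases h 0 with a0 | a0 <;> rcases h 1 with a1 | a1 <;> rcases h 2 with a2 | a2 <;>
    first
    | exact d01 (sg_uniq h2 hw hx 0 1 a0 a1)
    | exact d01 (sg_uniq h2 hw hx' 0 1 a0 a1)
    | exact d02 (sg_uniq h2 hw hx 0 2 a0 a2)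
    | exact d02 (sg_uniq h2 hw hx' 0 2 a0 a2)
    | exact d12 (sg_uniq h2 hw hx 1 2 a1 a2)
    | exact d12 (sg_uniq h2 hw hx' 1 2 a1 a2)

omit [Fintype k] in
theorem sg_lf (a : Fin 3 → Fin 3 → k) (w : Fin 3 → k) (p j : Fin 3) :
    lf a (sg w p) j = lf a w j := by
  unfold lf
  exact Finset.sum_congr rfl fun i _ => by rw [sg_sq]

omit [Fintype k] in
theorem sg_fm (a : Fin 3 → Fin 3 → k) (w y : Fin 3 → k) (p : Fin 3) :
    fm a (sg w p) y = fm a w y := by
  unfold fm
  exact Finset.sum_congr rfl fun i _ => by rw [sg_sq]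

theorem exists_w (hM : StmMX) {a : Fin 3 → Fin 3 → k} (hG : Gd a) {x y x' y' : Fin 3 → k}
    (hq : 6000 ≤ Fintype.card k)
    (hg : Fintype.card k ^ 3 ≤ 10 * (R a x y).ncard)
    (hg' : Fintype.card k ^ 3 ≤ 10 * (R a x' y').ncard) :
    ∃ w : Fin 3 → k, (∀ i, w i ≠ 0) ∧ (∀ j, lf (tr a) w j ≠ 0) ∧
      (R a x y).ncard ≤ 2 * Fintype.card k *
        {y2 | y2 ∈ R a x y ∧ ∑ i, w i ^ 2 * lf a y2 i = 0}.ncard ∧
      (R a x' y').ncard ≤ 2 * Fintype.card k *
        {y2 | y2 ∈ R a x' y' ∧ ∑ i, w i ^ 2 * lf a y2 i = 0}.ncard := by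
  by_contra hcon
  push Not at hcon
  have h1 := mixing hM hG hg
  have h2 := mixing hM hG hg'
  set A : Set (Fin 3 → k) := {w : Fin 3 → k | 2 * Fintype.card k *
      {y2 | y2 ∈ R a x y ∧ ∑ i, w i ^ 2 * lf a y2 i = 0}.ncard < (R a x y).ncard} with hA
  set A' : Set (Fin 3 → k) := {w : Fin 3 → k | 2 * Fintype.card k *
      {y2 | y2 ∈ R a x' y' ∧ ∑ i, w i ^ 2 * lf a y2 i = 0}.ncard < (R a x' y').ncard} with hA'
  have hsub : (Set.univ : Set (Fin 3 → k)) ⊆
      ((A ∪ A') ∪ (({w | w 0 = 0} ∪ {w | w 1 = 0}) ∪ {w | w 2 = 0})) ∪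
      (({w | lf (tr a) w 0 = 0} ∪ {w | lf (tr a) w 1 = 0}) ∪ {w | lf (tr a) w 2 = 0}) := by
    intro w _
    by_cases c0 : w 0 = 0
    · exact Or.inl (Or.inr (Or.inl (Or.inl c0)))
    by_cases c1 : w 1 = 0
    · exact Or.inl (Or.inr (Or.inl (Or.inr c1)))
    by_cases c2 : w 2 = 0
    · exact Or.inl (Or.inr (Or.inr c2))
    by_cases m0 : lf (tr a) w 0 = 0
    · exact Or.inr (Or.inl (Or.inl m0))
    by_cases m1 : lf (tr a) w 1 = 0
    · exact Or.inr (Or.inl (Or.inr m1))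
    by_cases m2 : lf (tr a) w 2 = 0
    · exact Or.inr (Or.inr m2)
    left; left
    by_contra hn
    rw [Set.mem_union, not_or] at hn
    have e1 : (R a x y).ncard ≤ 2 * Fintype.card k *
        {y2 | y2 ∈ R a x y ∧ ∑ i, w i ^ 2 * lf a y2 i = 0}.ncard := by
      by_contra hlt
      exact hn.1 (not_le.1 hlt)
    have e2 : (R a x' y').ncard ≤ 2 * Fintype.card k *
        {y2 | y2 ∈ R a x' y' ∧ ∑ i, w i ^ 2 * lf a y2 i = 0}.ncard := by
      by_contra hlt
      exact hn.2 (not_le.1 hlt)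
    have e3 := hcon w (by intro i; fin_cases i <;> assumption)
      (by intro i; fin_cases i <;> assumption) e1
    omega
  have hc := Set.ncard_le_ncard hsub (Set.toFinite _)
  rw [Set.ncard_univ, Nat.card_eq_fintype_card] at hc
  have hc0 : Fintype.card (Fin 3 → k) = Fintype.card k ^ 3 := by simp
  rw [hc0] at hc
  have u1 := Set.ncard_union_le ((A ∪ A') ∪ (({w | w 0 = 0} ∪ {w | w 1 = 0}) ∪ {w | w 2 = 0}))
    (({w | lf (tr a) w 0 = 0} ∪ {w | lf (tr a) w 1 = 0}) ∪ {w : Fin 3 → k | lf (tr a) w 2 = 0})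
  have u2 := Set.ncard_union_le (A ∪ A')
    (({w | w 0 = 0} ∪ {w | w 1 = 0}) ∪ {w : Fin 3 → k | w 2 = 0})
  have u3 := Set.ncard_union_le A A'
  have u4 := Set.ncard_union_le ({w | w 0 = 0} ∪ {w | w 1 = 0}) {w : Fin 3 → k | w 2 = 0}
  have u5 := Set.ncard_union_le {w : Fin 3 → k | w 0 = 0} {w | w 1 = 0}
  have u6 := Set.ncard_union_le ({w | lf (tr a) w 0 = 0} ∪ {w | lf (tr a) w 1 = 0})
    {w : Fin 3 → k | lf (tr a) w 2 = 0}
  have u7 := Set.ncard_union_le {w : Fin 3 → k | lf (tr a) w 0 = 0} {w | lf (tr a) w 1 = 0}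
  have c0 := card_coord (k := k) 0
  have c1 := card_coord (k := k) 1
  have c2 := card_coord (k := k) 2
  have m0 := card_M hG 0
  have m1 := card_M hG 1
  have m2 := card_M hG 2
  have hfin : Fintype.card k ^ 3 ≤ 5147 * Fintype.card k ^ 2 := by omega
  have h3 : Fintype.card k ^ 2 * Fintype.card k ≤ Fintype.card k ^ 2 * 5147 := by
    calc _ = Fintype.card k ^ 3 := by ring
      _ ≤ _ := hfin
      _ = _ := by ring
  have h4 := Nat.le_of_mul_le_mul_left h3 (by positivity)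
  omega

end FG

open FG in
theorem fg (hS : StmSC) (hC : StmC1) (hM : StmMX) : StmFG := by
  refine ⟨6000, ?_⟩
  intro k _ _ hq a hG x y x' y' ho ho'
  have hg := growth hC hG ho (by omega)
  have hg' := growth hC hG ho' (by omega)
  obtain ⟨w, hw0, hwM, hR, hR'⟩ := exists_w hM hG hq hg hg'
  set q := Fintype.card k with hqd
  have hq3 : 0 < q := by omega
  have hR0 : 0 < (R a x' y').ncard := by
    have : 0 < q ^ 3 := by positivity
    omega
  have hne : ({y2 | y2 ∈ R a x' y' ∧ ∑ i, w i ^ 2 * lf a y2 i = 0} : Set (Fin 3 → k)).Nonempty := by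
    rw [Set.nonempty_iff_ne_empty]
    intro he
    rw [he, Set.ncard_empty, mul_zero] at hR'
    omega
  obtain ⟨y2', hy2'R, hy2'w⟩ := hne
  obtain ⟨⟨x1', g1, g2, g3, g4⟩, -⟩ := hy2'R
  have hP := card_prop hG y2' ⟨0, g3.hy 0⟩
  have hex : ∃ y2, y2 ∈ R a x y ∧ ∑ i, w i ^ 2 * lf a y2 i = 0 ∧
      ∃ i i', lf a y2 i * lf a y2' i' ≠ lf a y2 i' * lf a y2' i := by
    by_contra hcon
    push Not at hcon
    have hsub : {y2 | y2 ∈ R a x y ∧ ∑ i, w i ^ 2 * lf a y2 i = 0} ⊆
        {z : Fin 3 → k | ∀ i i', lf a y2' i * lf a z i' = lf a y2' i' * lf a z i} := by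
      rintro z ⟨hz, hz'⟩ i i'
      have := hcon z hz hz' i i'
      linear_combination (-1) * this
    have h1 := (Set.ncard_le_ncard hsub (Set.toFinite _)).trans hP
    have h2 : (R a x y).ncard ≤ 2 * q * (8 * q) := hR.trans (Nat.mul_le_mul_left _ h1)
    have h3 : q ^ 3 ≤ 160 * q ^ 2 := by
      calc q ^ 3 ≤ 10 * (R a x y).ncard := hg
        _ ≤ 10 * (2 * q * (8 * q)) := Nat.mul_le_mul_left 10 h2
        _ = _ := by ring
    have h4 : q ^ 2 * q ≤ q ^ 2 * 160 := by
      calc _ = q ^ 3 := by ring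
        _ ≤ _ := h3
        _ = _ := by ring
    have h5 := Nat.le_of_mul_le_mul_left h4 (by positivity)
    omega
  obtain ⟨y2, hy2R, hy2w, hnp⟩ := hex
  obtain ⟨⟨x1, f1, f2, f3, f4⟩, -⟩ := hy2R
  have hx1 : x1 ≠ 0 := by
    rintro rfl
    exact f3.hx 0 (by simp [lf])
  have hx1' : x1' ≠ 0 := by
    rintro rfl
    exact g3.hx 0 (by simp [lf])
  obtain ⟨p, ⟨i, j, hij⟩, ⟨i', j', hij'⟩⟩ := exists_sg hG.two hw0 hx1 hx1'
  have hz : fm a (sg w p) y2 = 0 := by
    rw [sg_fm]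
    unfold fm
    rw [← hy2w]
    exact Finset.sum_congr rfl fun i _ => by ring
  have hz' : fm a (sg w p) y2' = 0 := by
    rw [sg_fm]
    unfold fm
    rw [← hy2'w]
    exact Finset.sum_congr rfl fun i _ => by ring
  have hzM : ∀ j, lf (tr a) (sg w p) j ≠ 0 := fun j => by rw [sg_lf]; exact hwM j
  refine ⟨x1, y2, x1', y2', sg w p, f1, f2, f3, f4, g1, g2, g3, g4, sg_ne hw0 p,
    ⟨hz, hzM, f3.hy⟩, ⟨hz', hzM, g3.hy⟩, ?_, ?_, ?_, hnp⟩
  · intro h0
    exact hij (hS k (lf a y2) x1 (sg w p) f3.hy f3.on hz h0 i j)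
  · intro h0
    exact hij' (hS k (lf a y2') x1' (sg w p) g3.hy g3.on hz' h0 i' j')
  · intro h0
    have h1 := hS k (lf (tr a) (sg w p)) y2 y2' hzM (by
      have := fm_tr a (sg w p) y2
      rw [hz] at this
      exact this) (by
      have := fm_tr a (sg w p) y2'
      rw [hz'] at this
      exact this) h0
    obtain ⟨i, i', hii⟩ := hnp
    apply hii
    have s01 : y2 0 ^ 2 * y2' 1 ^ 2 = y2 1 ^ 2 * y2' 0 ^ 2 := by
      rw [← mul_pow, ← mul_pow, h1 0 1]
    have s02 : y2 0 ^ 2 * y2' 2 ^ 2 = y2 2 ^ 2 * y2' 0 ^ 2 := by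
      rw [← mul_pow, ← mul_pow, h1 0 2]
    have s12 : y2 1 ^ 2 * y2' 2 ^ 2 = y2 2 ^ 2 * y2' 1 ^ 2 := by
      rw [← mul_pow, ← mul_pow, h1 1 2]
    simp only [lf, Fin.sum_univ_three]
    linear_combination (a i 0 * a i' 1 - a i' 0 * a i 1) * s01 +
      (a i 0 * a i' 2 - a i' 0 * a i 2) * s02 + (a i 1 * a i' 2 - a i' 1 * a i 2) * s12

end Pool.Agent.T6.H77.DW
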