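import Pool.Agent.T6.H77.DW.Stm
import Pool.Agent.H341R2.WeilSharp

/-!
# Module FW (helper86)
-/

set_option autoImplicit false

namespace Pool.Agent.T6.H77.DW

namespace FW

open Polynomial Finset

lemma coeffs {k : Type} [Field k] (a4 a2 a0 b4 b3 b2 b1 b0 : k)
    (h : C a4 * X ^ 4 + C a2 * X ^ 2 + C a0 =
      C b4 * X ^ 4 + C b3 * X ^ 3 + C b2 * X ^ 2 + C b1 * X + C b0) :
    a4 = b4 ∧ 0 = b3 ∧ a2 = b2 ∧ 0 = b1 ∧ a0 = b0 := by
  have c4 := congrArg (fun g => g.coeff 4) h
  have c3 := congrArg (fun g => g.coeff 3) h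
  have c2 := congrArg (fun g => g.coeff 2) h
  have c1 := congrArg (fun g => g.coeff 1) h
  have c0 := congrArg (fun g => g.coeff 0) h
  simp [coeff_X, coeff_C, coeff_X_pow] at c4 c3 c2 c1 c0
  exact ⟨c4, c3, c2, c1, c0⟩

/-- the product of two of the quadratic polynomials -/
lemma not_sq {k : Type} [Field k] (h2 : (2 : k) ≠ 0) (p r p' r' : k) (hp : p ≠ 0) (hp' : p' ≠ 0)
    (h : p * r' ≠ p' * r) (c : k) (f : k[X]) :
    (C p * X ^ 2 + C r) * (C p' * X ^ 2 + C r') ≠ C c * f ^ 2 := by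
  intro he
  have hd1 : ((C p * X ^ 2 + C r) * (C p' * X ^ 2 + C r')).natDegree = 4 := by
    have e : (C p * X ^ 2 + C r) * (C p' * X ^ 2 + C r') =
        C (p * p') * X ^ 4 + C (p * r' + p' * r) * X ^ 2 + C (r * r') := by
      simp only [C_mul, C_add]
      ring
    rw [e]
    have : p * p' ≠ 0 := mul_ne_zero hp hp'
    compute_degree!
  have hc : c ≠ 0 := by
    rintro rfl
    rw [he] at hd1
    simp at hd1
  have hdf : f.natDegree = 2 := by
    rw [he, natDegree_C_mul hc, natDegree_pow] at hd1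
    omega
  obtain ⟨α, β, γ, hf⟩ : ∃ α β γ : k, f = C α * X ^ 2 + C β * X + C γ :=
    ⟨_, _, _, eq_quadratic_of_degree_le_two (by
      have := degree_le_of_natDegree_le (le_of_eq hdf)
      exact_mod_cast this)⟩
  have hexp : C (p * p') * X ^ 4 + C (p * r' + p' * r) * X ^ 2 + C (r * r') =
      C (c * α ^ 2) * X ^ 4 + C (2 * c * α * β) * X ^ 3 + C (c * (2 * α * γ + β ^ 2)) * X ^ 2 +
        C (2 * c * β * γ) * X + C (c * γ ^ 2) := by
    have e1 : C (p * p') * X ^ 4 + C (p * r' + p' * r) * X ^ 2 + C (r * r') =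
      (C p * X ^ 2 + C r) * (C p' * X ^ 2 + C r') := by
      simp only [C_mul, C_add]
      ring
    rw [e1, he, hf]
    simp only [C_mul, C_add, C_pow]
    have : (C 2 : k[X]) = 2 := rfl
    rw [this]
    ring
  obtain ⟨c4, c3, c2, c1, c0⟩ := coeffs _ _ _ _ _ _ _ _ hexp
  have hα : α ≠ 0 := by
    rintro rfl
    have : p * p' = 0 := by
      rw [c4]
      ring
    exact mul_ne_zero hp hp' this
  have hβ : β = 0 := by
    by_contra hβ
    exact mul_ne_zero (mul_ne_zero (mul_ne_zero h2 hc) hα) hβ c3.symm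
  apply h
  have h5 : (p * r' - p' * r) ^ 2 = 0 := by
    subst hβ
    linear_combination (p * r' + p' * r + c * (2 * α * γ)) * c2 - 4 * (r * r') * c4 -
      4 * (c * α ^ 2) * c0
  have h6 := pow_eq_zero_iff (two_ne_zero) |>.1 h5
  exact sub_eq_zero.1 h6

lemma wb {k : Type} [Field k] [Fintype k] [DecidableEq k] (hF : ringChar k ≠ 2) (h2 : (2 : k) ≠ 0)
    (p r p' r' : k) (hp : p ≠ 0) (hp' : p' ≠ 0) (h : p * r' ≠ p' * r) :
    |∑ t : k, (quadraticChar k ((p * t ^ 2 + r) * (p' * t ^ 2 + r')) : ℝ)| ≤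
      3 * Real.sqrt (Fintype.card k) := by
  have hd1 : ((C p * X ^ 2 + C r) * (C p' * X ^ 2 + C r')).natDegree = 4 := by
    have e : (C p * X ^ 2 + C r) * (C p' * X ^ 2 + C r') =
        C (p * p') * X ^ 4 + C (p * r' + p' * r) * X ^ 2 + C (r * r') := by
      simp only [C_mul, C_add]
      ring
    rw [e]
    have : p * p' ≠ 0 := mul_ne_zero hp hp'
    compute_degree!
  have h3 := Pool.Agent.H341R2.Sharp.weil_sharp hF ((C p * X ^ 2 + C r) * (C p' * X ^ 2 + C r'))
    (by omega) (not_sq h2 p r p' r' hp hp' h)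
  rw [hd1] at h3
  have e : ∀ t : k, ((C p * X ^ 2 + C r) * (C p' * X ^ 2 + C r')).eval t =
      (p * t ^ 2 + r) * (p' * t ^ 2 + r') := by
    intro t
    simp
  simp only [e] at h3
  refine h3.trans (le_of_eq ?_)
  norm_num

/-- the roots of a quadratic polynomial -/
lemma roots_le {k : Type} [Field k] [Fintype k] [DecidableEq k] (p r : k) (hp : p ≠ 0) :
    (univ.filter (fun t : k => p * t ^ 2 + r = 0)).card ≤ 2 := by
  have hne : (C p * X ^ 2 + C r : k[X]) ≠ 0 := by
    intro h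
    have := congrArg (fun g => g.coeff 2) h
    simp at this
    exact hp this
  have h1 : (univ.filter (fun t : k => p * t ^ 2 + r = 0)) ⊆
      (C p * X ^ 2 + C r : k[X]).roots.toFinset := by
    intro t ht
    rw [mem_filter] at ht
    rw [Multiset.mem_toFinset, mem_roots hne, IsRoot.def]
    simpa using ht.2
  refine (card_le_card h1).trans ((Multiset.toFinset_card_le _).trans ?_)
  refine (card_roots' _).trans ?_
  compute_degree

end FW

open Finset in
theorem fw : StmFW := by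
  refine ⟨10 ^ 4, ?_⟩
  intro k _ _ h2 hq p r hp hr hpr
  classical
  have hchar : ringChar k ≠ 2 := by
    intro h
    apply h2
    have := ringChar.spec k 2
    have h3 : ((2 : ℕ) : k) = 0 := this.2 (by rw [h])
    exact_mod_cast h3
  obtain ⟨f, hf⟩ : ∃ f : Fin 3 → k → k, f = fun i t => p i * t ^ 2 + r i := ⟨_, rfl⟩
  obtain ⟨χ, hχ⟩ : ∃ χ : k → ℝ, χ = fun x => (quadraticChar k x : ℝ) := ⟨_, rfl⟩
  have χmul : ∀ x y, χ (x * y) = χ x * χ y := by
    intro x y
    rw [hχ]
    simp only [map_mul]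
    push_cast
    rfl
  have χ0 : χ 0 = 0 := by
    rw [hχ]
    simp
  have χpm : ∀ x, x ≠ 0 → χ x = 1 ∨ χ x = -1 := by
    intro x hx
    rw [hχ]
    simp only
    rcases quadraticChar_dichotomy hx with h | h
    · left
      rw [h]
      norm_num
    · right
      rw [h]
      norm_num
  have χsq : ∀ x, x ≠ 0 → χ x * χ x = 1 := by
    intro x hx
    rcases χpm x hx with h | h <;> rw [h] <;> norm_num
  have χabs : ∀ x, |χ x| ≤ 1 := by
    intro x
    by_cases hx : x = 0
    · rw [hx, χ0]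
      simp
    · rcases χpm x hx with h | h <;> rw [h] <;> norm_num
  have W : ∀ i j, i ≠ j → |∑ t : k, χ (f i t * f j t)| ≤ 3 * Real.sqrt (Fintype.card k) := by
    intro i j hij
    have := FW.wb hchar h2 (p i) (r i) (p j) (r j) (hp i) (hp j) (by
      have := hpr i j hij
      exact this)
    rw [hχ, hf]
    exact this
  by_contra hcon
  push Not at hcon
  -- the bad values
  obtain ⟨B, hB⟩ : ∃ B : Finset k, B = insert 0 ((univ.filter (fun t : k => p 0 * t ^ 2 + r 0 = 0)) ∪
      ((univ.filter (fun t : k => p 1 * t ^ 2 + r 1 = 0)) ∪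
      (univ.filter (fun t : k => p 2 * t ^ 2 + r 2 = 0)))) := ⟨_, rfl⟩
  have hBc : B.card ≤ 7 := by
    rw [hB]
    refine (card_insert_le _ _).trans ?_
    have a0 := FW.roots_le (p 0) (r 0) (hp 0)
    have a1 := FW.roots_le (p 1) (r 1) (hp 1)
    have a2 := FW.roots_le (p 2) (r 2) (hp 2)
    have b1 := card_union_le (univ.filter (fun t : k => p 0 * t ^ 2 + r 0 = 0))
      ((univ.filter (fun t : k => p 1 * t ^ 2 + r 1 = 0)) ∪
      (univ.filter (fun t : k => p 2 * t ^ 2 + r 2 = 0)))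
    have b2 := card_union_le (univ.filter (fun t : k => p 1 * t ^ 2 + r 1 = 0))
      (univ.filter (fun t : k => p 2 * t ^ 2 + r 2 = 0))
    omega
  have hBn : ∀ t, t ∉ B → t ≠ 0 ∧ ∀ i, f i t ≠ 0 := by
    intro t ht
    rw [hB] at ht
    simp only [mem_insert, mem_union, mem_filter, mem_univ, true_and, not_or] at ht
    refine ⟨ht.1, fun i => ?_⟩
    rw [hf]
    fin_cases i
    · exact ht.2.1
    · exact ht.2.2.1
    · exact ht.2.2.2
  -- outside `B` the product vanishes
  have hz : ∀ t, t ∉ B → (1 + χ (f 0 t * f 1 t)) * (1 + χ (f 0 t * f 2 t)) = 0 := by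
    intro t ht
    obtain ⟨ht0, hfi⟩ := hBn t ht
    by_contra hne
    have g1 : χ (f 0 t * f 1 t) = 1 := by
      rcases χpm _ (mul_ne_zero (hfi 0) (hfi 1)) with h | h
      · exact h
      · exact absurd (by rw [h]; ring) hne
    have g2 : χ (f 0 t * f 2 t) = 1 := by
      rcases χpm _ (mul_ne_zero (hfi 0) (hfi 2)) with h | h
      · exact h
      · exact absurd (by rw [h]; ring) hne
    have sq1 : IsSquare (f 0 t * f 1 t) := by
      rw [← quadraticChar_one_iff_isSquare (mul_ne_zero (hfi 0) (hfi 1))]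
      have g1' : ((quadraticChar k (f 0 t * f 1 t) : ℤ) : ℝ) = 1 := by
        rw [← g1, hχ]
      exact_mod_cast g1'
    have sq2 : IsSquare (f 0 t * f 2 t) := by
      rw [← quadraticChar_one_iff_isSquare (mul_ne_zero (hfi 0) (hfi 2))]
      have g2' : ((quadraticChar k (f 0 t * f 2 t) : ℤ) : ℝ) = 1 := by
        rw [← g2, hχ]
      exact_mod_cast g2'
    obtain ⟨s1, hs1⟩ := sq1
    obtain ⟨s2, hs2⟩ := sq2
    have hs10 : s1 ≠ 0 := by
      rintro rfl
      exact mul_ne_zero (hfi 0) (hfi 1) (by rw [hs1]; ring)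
    have hs20 : s2 ≠ 0 := by
      rintro rfl
      exact mul_ne_zero (hfi 0) (hfi 2) (by rw [hs2]; ring)
    have hf0 := hfi 0
    obtain ⟨i, hi⟩ := hcon t (f 0 t) ![1, s1 / f 0 t, s2 / f 0 t] ht0 (hfi 0) (by
      intro i
      fin_cases i
      · exact one_ne_zero
      · exact div_ne_zero hs10 hf0
      · exact div_ne_zero hs20 hf0)
    apply hi
    fin_cases i
    · rw [hf]
      simp
    · have e : f 1 t = f 0 t * (s1 / f 0 t) ^ 2 := by
        field_simp
        linear_combination hs1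
      have e2 : f 1 t = p 1 * t ^ 2 + r 1 := by rw [hf]
      exact e2.symm.trans e
    · have e : f 2 t = f 0 t * (s2 / f 0 t) ^ 2 := by
        field_simp
        linear_combination hs2
      have e2 : f 2 t = p 2 * t ^ 2 + r 2 := by rw [hf]
      exact e2.symm.trans e
  -- upper bound
  have hup : ∑ t : k, (1 + χ (f 0 t * f 1 t)) * (1 + χ (f 0 t * f 2 t)) ≤ 28 := by
    have e1 : ∑ t : k, (1 + χ (f 0 t * f 1 t)) * (1 + χ (f 0 t * f 2 t)) =
        ∑ t ∈ B, (1 + χ (f 0 t * f 1 t)) * (1 + χ (f 0 t * f 2 t)) := by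
      symm
      refine sum_subset (subset_univ B) ?_
      intro t _ ht
      exact hz t ht
    rw [e1]
    have e2 : ∑ t ∈ B, (1 + χ (f 0 t * f 1 t)) * (1 + χ (f 0 t * f 2 t)) ≤ ∑ t ∈ B, (4 : ℝ) := by
      refine sum_le_sum fun t _ => ?_
      have a1 := abs_le.1 (χabs (f 0 t * f 1 t))
      have a2 := abs_le.1 (χabs (f 0 t * f 2 t))
      nlinarith [a1.1, a1.2, a2.1, a2.2]
    refine e2.trans ?_
    rw [sum_const, nsmul_eq_mul]
    have : (B.card : ℝ) ≤ 7 := by exact_mod_cast hBc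
    linarith
  -- lower bound
  have hlow : (Fintype.card k : ℝ) - 9 * Real.sqrt (Fintype.card k) - 2 ≤
      ∑ t : k, (1 + χ (f 0 t * f 1 t)) * (1 + χ (f 0 t * f 2 t)) := by
    have e1 : ∑ t : k, (1 + χ (f 0 t * f 1 t)) * (1 + χ (f 0 t * f 2 t)) =
        (Fintype.card k : ℝ) + ∑ t : k, χ (f 0 t * f 1 t) + ∑ t : k, χ (f 0 t * f 2 t) +
          ∑ t : k, χ (f 0 t * f 1 t) * χ (f 0 t * f 2 t) := by
      have : ∀ t : k, (1 + χ (f 0 t * f 1 t)) * (1 + χ (f 0 t * f 2 t)) =
          1 + χ (f 0 t * f 1 t) + χ (f 0 t * f 2 t) + χ (f 0 t * f 1 t) * χ (f 0 t * f 2 t) := by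
        intro t
        ring
      simp only [this, sum_add_distrib]
      simp
    have e2 : ∑ t : k, χ (f 1 t * f 2 t) - 2 ≤ ∑ t : k, χ (f 0 t * f 1 t) * χ (f 0 t * f 2 t) := by
      have h5 : ∑ t : k, (χ (f 1 t * f 2 t) - χ (f 0 t * f 1 t) * χ (f 0 t * f 2 t)) ≤ 2 := by
        have h6 : ∀ t : k, χ (f 1 t * f 2 t) - χ (f 0 t * f 1 t) * χ (f 0 t * f 2 t) ≤
            if p 0 * t ^ 2 + r 0 = 0 then (1 : ℝ) else 0 := by
          intro t
          split_ifs with h
          · have : f 0 t = 0 := by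
              rw [hf]
              exact h
            rw [this, zero_mul, χ0, zero_mul, sub_zero]
            exact (le_abs_self _).trans (χabs _)
          · have h7 : f 0 t ≠ 0 := by
              rw [hf]
              exact h
            have h8 := χsq (f 0 t) h7
            rw [χmul (f 0 t), χmul (f 0 t), χmul (f 1 t)]
            have : χ (f 0 t) * χ (f 1 t) * (χ (f 0 t) * χ (f 2 t)) =
                (χ (f 0 t) * χ (f 0 t)) * (χ (f 1 t) * χ (f 2 t)) := by ring
            rw [this, h8, one_mul, sub_self]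
        refine (sum_le_sum fun t _ => h6 t).trans ?_
        rw [sum_ite, sum_const_zero, add_zero, sum_const, nsmul_eq_mul, mul_one]
        exact_mod_cast FW.roots_le (p 0) (r 0) (hp 0)
      rw [sum_sub_distrib] at h5
      linarith
    have w1 := abs_le.1 (W 0 1 (by decide))
    have w2 := abs_le.1 (W 0 2 (by decide))
    have w3 := abs_le.1 (W 1 2 (by decide))
    rw [e1]
    linarith [w1.1, w2.1, w3.1]
  have hq' : (10 : ℝ) ^ 4 ≤ Fintype.card k := by exact_mod_cast hq
  have hs : (100 : ℝ) ≤ Real.sqrt (Fintype.card k) := by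
    rw [Real.le_sqrt (by norm_num) (by positivity)]
    linarith
  have hss : Real.sqrt (Fintype.card k) * Real.sqrt (Fintype.card k) = Fintype.card k :=
    Real.mul_self_sqrt (by positivity)
  nlinarith

end Pool.Agent.T6.H77.DW
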