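import Pool.Agent.T6.H77.DW.RED

/-!
# Square roots near one, good points of a conic near an approximate point (helper77)
-/

set_option autoImplicit false

open Metric

namespace Pool.Agent.T6.H77.DW

theorem hens : StmH := by
  intro L _ _ _ h2 s hs
  set ρ := ‖s - 1‖ with hρ
  have hρ0 : 0 ≤ ρ := norm_nonneg _
  have h20 : (2 : L) ≠ 0 := by
    intro h; rw [h, norm_zero] at h2; exact zero_ne_one h2
  set f : L → L := fun r => r - (r ^ 2 - s) / 2 with hf
  have hdiff : ∀ r r' : L, ‖r - 1‖ ≤ ρ → ‖r' - 1‖ ≤ ρ → ‖f r - f r'‖ ≤ ρ * ‖r - r'‖ := by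
    intro r r' hr hr'
    have e : f r - f r' = -(((r - 1) + (r' - 1)) / 2) * (r - r') := by
      simp only [hf]; field_simp; ring
    rw [e, norm_mul, norm_neg, norm_div, h2, div_one]
    exact mul_le_mul_of_nonneg_right ((IsUltrametricDist.norm_add_le_max _ _).trans
      (max_le hr hr')) (norm_nonneg _)
  have hmaps : Set.MapsTo f (closedBall (1 : L) ρ) (closedBall 1 ρ) := by
    intro r hr
    rw [mem_closedBall, dist_eq_norm] at hr ⊢
    have e : f r - 1 = (f r - f 1) + (s - 1) / 2 := by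
      simp only [hf]; field_simp; ring
    rw [e]
    refine (IsUltrametricDist.norm_add_le_max _ _).trans (max_le ?_ ?_)
    · refine (hdiff r 1 hr (by rw [sub_self, norm_zero]; exact hρ0)).trans ?_
      calc ρ * ‖r - 1‖ ≤ ρ * ρ := mul_le_mul_of_nonneg_left hr hρ0
        _ ≤ ρ * 1 := mul_le_mul_of_nonneg_left hs.le hρ0
        _ = ρ := mul_one _
    · rw [norm_div, h2, div_one]
  have hcon : ContractingWith ⟨ρ, hρ0⟩ (hmaps.restrict f _ _) := by
    refine ⟨by rw [← NNReal.coe_lt_coe]; exact hs, ?_⟩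
    refine LipschitzWith.of_dist_le_mul ?_
    rintro ⟨r, hr⟩ ⟨r', hr'⟩
    rw [mem_closedBall, dist_eq_norm] at hr hr'
    rw [Subtype.dist_eq, Subtype.dist_eq, dist_eq_norm, dist_eq_norm]
    exact hdiff r r' hr hr'
  obtain ⟨r, hr, hfix, -⟩ := ContractingWith.exists_fixedPoint'
    (isClosed_closedBall.isComplete) hmaps hcon (x := 1) (mem_closedBall_self hρ0)
    (edist_ne_top _ _)
  refine ⟨r, ?_, ?_⟩
  · have h1 : r - (r ^ 2 - s) / 2 = r := hfix
    have h3 : (r ^ 2 - s) / 2 = 0 := by linear_combination -h1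
    rw [div_eq_zero_iff] at h3
    rcases h3 with h3 | h3
    · linear_combination h3
    · exact absurd h3 h20
  · rwa [mem_closedBall, dist_eq_norm] at hr

namespace HU

variable {L : Type} [NontriviallyNormedField L]

theorem ball_inf (x : L) {r : ℝ} (hr : 0 < r) : (ball x r).Infinite := by
  intro hf
  have h1 : (ball x r) ∈ nhds x := ball_mem_nhds x hr
  exact infinite_of_mem_nhds x h1 hf

/-- a polynomial condition of degree two is satisfied somewhere in every ball -/
theorem avoid (x : L) {r : ℝ} (hr : 0 < r) (A B : Fin 3 → L) (h : ∀ j, A j ≠ 0 ∨ B j ≠ 0) :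
    ∃ t, ‖t - x‖ < r ∧ t ≠ 0 ∧ ∀ j, A j * t ^ 2 + B j ≠ 0 := by
  classical
  have hfin : ∀ j, {t : L | A j * t ^ 2 + B j = 0}.Finite := by
    intro j
    rcases eq_or_ne (A j) 0 with hA | hA
    · have hB : B j ≠ 0 := (h j).resolve_left (fun hc => hc hA)
      have : {t : L | A j * t ^ 2 + B j = 0} = ∅ := by
        ext t
        simp [hA, hB]
      rw [this]
      exact Set.finite_empty
    · by_cases hne : {t : L | A j * t ^ 2 + B j = 0}.Nonempty
      · obtain ⟨t0, ht0⟩ := hne
        refine (Set.Finite.insert (-t0) (Set.finite_singleton t0)).subset ?_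
        intro t ht
        have h1 : A j * (t ^ 2 - t0 ^ 2) = 0 := by
          have e1 : A j * t ^ 2 + B j = 0 := ht
          have e2 : A j * t0 ^ 2 + B j = 0 := ht0
          linear_combination e1 - e2
        have h2 : t ^ 2 = t0 ^ 2 := sub_eq_zero.1 ((mul_eq_zero.1 h1).resolve_left hA)
        rcases sq_eq_sq_iff_eq_or_eq_neg.1 h2 with h3 | h3
        · exact Or.inr h3
        · exact Or.inl h3
      · rw [Set.not_nonempty_iff_eq_empty] at hne
        rw [hne]
        exact Set.finite_empty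
  have hfin2 : (({0} : Set L) ∪ ⋃ j, {t : L | A j * t ^ 2 + B j = 0}).Finite :=
    (Set.finite_singleton 0).union (Set.finite_iUnion hfin)
  obtain ⟨t, ht1, ht2⟩ := (ball_inf x hr).exists_notMem_finite hfin2
  rw [mem_ball, dist_eq_norm] at ht1
  refine ⟨t, ht1, fun h0 => ht2 (Or.inl h0), fun j hj => ht2 (Or.inr ?_)⟩
  exact Set.mem_iUnion.2 ⟨j, hj⟩

/-- squares are continuous -/
theorem sq_close (x c : L) {η : ℝ} (hη : 0 < η) : ∃ r > 0, ∀ t, ‖t - x‖ < r →
    ‖c * (t ^ 2 - x ^ 2)‖ ≤ η := by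
  have h1 : Filter.Tendsto (fun t : L => c * (t ^ 2 - x ^ 2)) (nhds x) (nhds 0) := by
    have : ContinuousAt (fun t : L => c * (t ^ 2 - x ^ 2)) x := by fun_prop
    have h2 := this.tendsto
    simpa using h2
  rw [Metric.tendsto_nhds_nhds] at h1
  obtain ⟨r, hr, h⟩ := h1 η hη
  refine ⟨r, hr, fun t ht => ?_⟩
  have := h (x := t) (by rw [dist_eq_norm]; exact ht)
  rw [dist_zero_right] at this
  exact this.le

end HU

open HU

theorem uu (hH : StmH) : StmU := by
  intro L _ _ _ h2 a y hy hM x p hp δ hδ hδ1 hF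
  obtain ⟨l, m, hl, hm, hlm, hcover⟩ : ∃ l m : Fin 3, l ≠ p ∧ m ≠ p ∧ l ≠ m ∧
      ∀ f : Fin 3 → L, ∑ i, f i = f p + f l + f m := by
    fin_cases p
    · exact ⟨1, 2, by decide, by decide, by decide, fun f => by rw [Fin.sum_univ_three]; rfl⟩
    · exact ⟨0, 2, by decide, by decide, by decide, fun f => by
        rw [Fin.sum_univ_three]; change f 0 + f 1 + f 2 = f 1 + f 0 + f 2; ring⟩
    · exact ⟨0, 1, by decide, by decide, by decide, fun f => by
        rw [Fin.sum_univ_three]; change f 0 + f 1 + f 2 = f 2 + f 0 + f 1; ring⟩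
  have hall : ∀ i : Fin 3, i = p ∨ i = l ∨ i = m := by
    have h3 : ∀ p l m : Fin 3, l ≠ p → m ≠ p → l ≠ m → ∀ i : Fin 3, i = p ∨ i = l ∨ i = m := by
      decide
    exact h3 p l m hl hm hlm
  set A : Fin 3 → L := fun i => lf a y i with hA
  have hAp : A p ≠ 0 := hy p
  have hxp : 0 < ‖x p‖ := norm_pos_iff.2 hp
  have hApn : 0 < ‖A p‖ := norm_pos_iff.2 hAp
  set η : ℝ := δ * (‖A p‖ * ‖x p‖ ^ 2) with hη
  have hη0 : 0 < η := by positivity
  obtain ⟨r1, hr1, hc1⟩ := sq_close (x l) (A l) hη0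
  obtain ⟨r2, hr2, hc2⟩ := sq_close (x m) (A m) hη0
  have hδx : 0 < δ * ‖x p‖ := by positivity
  -- the coefficients
  set κl : Fin 3 → L := fun j => a l j * A p - a p j * A l with hκl
  set κm : Fin 3 → L := fun j => a m j * A p - a p j * A m with hκm
  have hκ : ∀ j, κl j ≠ 0 ∨ κm j ≠ 0 := by
    intro j
    by_contra hcon
    push Not at hcon
    obtain ⟨c1, c2⟩ := hcon
    obtain ⟨i, i', hii⟩ := hM j
    have key : ∀ i, a i j * A p = a p j * A i := by
      intro i
      rcases hall i with rfl | rfl | rfl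
      · rfl
      · exact sub_eq_zero.1 c1
      · exact sub_eq_zero.1 c2
    apply hii
    have k1 := key i
    have k2 := key i'
    have : A p * (A i * a i' j - A i' * a i j) = 0 := by
      linear_combination A i * k2 - A i' * k1
    exact sub_eq_zero.1 ((mul_eq_zero.1 this).resolve_left hAp)
  obtain ⟨t, ht1, ht0, -⟩ := avoid (x l) (lt_min hr1 hδx) (fun _ => 0) (fun _ => 1)
    (fun _ => Or.inr one_ne_zero)
  obtain ⟨s, hs1, -, hs3⟩ := avoid (x m) (lt_min hr2 hδx) κm (fun j => κl j * t ^ 2) (by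
    intro j
    rcases hκ j with h | h
    · exact Or.inr (mul_ne_zero h (pow_ne_zero _ ht0))
    · exact Or.inl h)
  -- the square root
  set w : L := -(A l * t ^ 2 + A m * s ^ 2) / (A p * x p ^ 2) with hw
  have hw1 : ‖w - 1‖ ≤ δ := by
    have e : w - 1 = -(fm a x y + (A l * (t ^ 2 - x l ^ 2) + A m * (s ^ 2 - x m ^ 2))) /
        (A p * x p ^ 2) := by
      have hfm : fm a x y = A p * x p ^ 2 + A l * x l ^ 2 + A m * x m ^ 2 := hcover _
      rw [hw, hfm]
      field_simp
      ring
    rw [e, norm_div, norm_neg, norm_mul, norm_pow, div_le_iff₀ (by positivity)]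
    refine (IsUltrametricDist.norm_add_le_max _ _).trans (max_le hF ?_)
    exact (IsUltrametricDist.norm_add_le_max _ _).trans
      (max_le (hc1 t (ht1.trans_le (min_le_left _ _))) (hc2 s (hs1.trans_le (min_le_left _ _))))
  obtain ⟨r, hr, hr'⟩ := hH L h2 w (hw1.trans_lt hδ1)
  set x' : Fin 3 → L := fun i => if i = p then x p * r else if i = l then t else s with hx'
  have e1 : x' p = x p * r := by simp [hx']
  have e2 : x' l = t := by simp [hx', hl]
  have e3 : x' m = s := by simp [hx', hm, hlm.symm]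
  have hsq : A p * (x p * r) ^ 2 = -(A l * t ^ 2 + A m * s ^ 2) := by
    rw [mul_pow, hr, hw]
    field_simp
  refine ⟨x', ?_, fun j => ?_, fun i => ?_⟩
  · have : fm a x' y = A p * x' p ^ 2 + A l * x' l ^ 2 + A m * x' m ^ 2 := hcover _
    rw [this, e1, e2, e3, hsq]
    ring
  · have h3 : lf (tr a) x' j = a p j * x' p ^ 2 + a l j * x' l ^ 2 + a m j * x' m ^ 2 := hcover _
    rw [h3, e1, e2, e3]
    intro h0
    apply hs3 j
    have h4 : A p * (a p j * (x p * r) ^ 2 + a l j * t ^ 2 + a m j * s ^ 2) =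
        κm j * s ^ 2 + κl j * t ^ 2 := by
      have := hsq
      simp only [hκl, hκm]
      linear_combination a p j * this
    rw [← h4, h0, mul_zero]
  · rcases hall i with rfl | rfl | rfl
    · rw [e1]
      have : x i * r - x i = x i * (r - 1) := by ring
      rw [this, norm_mul, mul_comm]
      exact mul_le_mul_of_nonneg_right (hr'.trans hw1) (norm_nonneg _)
    · rw [e2]; exact (ht1.trans_le (min_le_right _ _)).le
    · rw [e3]; exact (hs1.trans_le (min_le_right _ _)).le

end Pool.Agent.T6.H77.DW
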