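import Pool.Agent.T6.H77.DW.RED

/-!
# Moves over the residue field lift (helper77)
-/

set_option autoImplicit false

namespace Pool.Agent.T6.H77.DW

section

variable {L k : Type} [NontriviallyNormedField L] [IsUltrametricDist L] [Field k] {π : L → k}

theorem Res.norm_two (h : Res π) (h2 : (2 : k) ≠ 0) : ‖(2 : L)‖ = 1 := by
  have h1 : ‖(1 : L)‖ ≤ 1 := by simp
  have e2 : (2 : L) = 1 + 1 := by norm_num
  have h3 : ‖(2 : L)‖ ≤ 1 := by
    rw [e2]
    exact (IsUltrametricDist.norm_add_le_max _ _).trans (max_le h1 h1)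
  have h4 : π 2 = 2 := by
    rw [e2, h.add _ _ h1 h1, h.one]; norm_num
  refine le_antisymm h3 (not_lt.1 fun h5 => ?_)
  exact h2 (by rw [← h4]; exact (h.ker _ h3).2 h5)

theorem Res.norm_one_of (h : Res π) {x : L} (hx : ‖x‖ ≤ 1) (h0 : π x ≠ 0) : ‖x‖ = 1 :=
  le_antisymm hx (not_lt.1 fun h5 => h0 ((h.ker _ hx).2 h5))

theorem Res.eq_of (h : Res π) {x y : L} (hy : ‖y‖ ≤ 1) (hxy : ‖x - y‖ < 1) :
    ‖x‖ ≤ 1 ∧ π x = π y := by
  have e : x = y + (x - y) := by ring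
  have h1 : ‖x‖ ≤ 1 := by
    rw [e]; exact (IsUltrametricDist.norm_add_le_max _ _).trans (max_le hy hxy.le)
  refine ⟨h1, ?_⟩
  have h2 : π (x - y) = 0 := (h.ker _ hxy.le).2 hxy
  have h3 := h.add y (x - y) hy hxy.le
  rw [← e, h2, add_zero] at h3
  exact h3

end

theorem lift (hU : StmU) : StmLIFT := by
  intro L k _ _ _ _ π hπ a ha hg x y hO hx hy z hz hpl
  choose w hw1 hw2 using fun i => hπ.surj (z i)
  have ew : (fun i => π (w i)) = z := funext hw2
  -- the index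
  obtain ⟨p, hp⟩ : ∃ p, lf (fun i j => π (a i j)) (fun i => π (y i)) p *
      π (x p) * z p ≠ 0 := by
    by_contra hcon
    push Not at hcon
    exact hpl (Finset.sum_eq_zero fun i _ => hcon i)
  have hzp : z p ≠ 0 := right_ne_zero_of_mul hp
  have hlp : lf (fun i j => π (a i j)) (fun i => π (y i)) p ≠ 0 :=
    left_ne_zero_of_mul (left_ne_zero_of_mul hp)
  have hL1 : ‖lf a y p‖ = 1 := hπ.norm_one_of (lf_le ha hy p) (by rw [lf_red ha hπ hy]; exact hlp)
  have hwp : ‖w p‖ = 1 := hπ.norm_one_of (hw1 p) (by rw [hw2]; exact hzp)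
  have hwp0 : w p ≠ 0 := by
    intro h; rw [h, norm_zero] at hwp; exact zero_ne_one hwp
  have hfi : ‖fm a w y‖ ≤ 1 := sum3_le fun j => mul_le1 (lf_le ha hy j) (sq_le1 (hw1 j))
  have hF : ‖fm a w y‖ < 1 := by
    rw [← hπ.ker _ hfi, fm_red ha hπ hw1 hy, ew]
    exact hz
  obtain ⟨x', h1, h2, h3⟩ := hU L (hπ.norm_two hg.two) a y hO.hy (by
    intro j
    by_contra hcon
    push Not at hcon
    have haj : a 0 j ≠ 0 := hπ.ne (hg.ent 0 j)
    obtain ⟨c, hc0, h1⟩ : ∃ c : L, c ≠ 0 ∧ ∀ i, lf a y i = c * a i j := by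
      refine ⟨lf a y 0 / a 0 j, div_ne_zero (hO.hy 0) haj, fun i => ?_⟩
      have := hcon i 0
      field_simp
      linear_combination this
    have h2 : c * lf (tr a) x j = 0 := by
      rw [← hO.on, fm, lf, Finset.mul_sum]
      refine Finset.sum_congr rfl fun i _ => ?_
      rw [h1 i]
      simp only [tr]
      ring
    have h3 : c ≠ 0 := hc0
    exact mul_ne_zero h3 (hO.hx j) h2) w p hwp0 (max ‖fm a w y‖ (1 / 2))
    (lt_max_of_lt_right (by norm_num)) (max_lt hF (by norm_num)) (by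
      rw [hL1, hwp, one_pow, mul_one, mul_one]
      exact le_max_left _ _)
  rw [hwp, mul_one] at h3
  have h4 : ∀ i, ‖x' i - w i‖ < 1 := fun i => (h3 i).trans_lt (max_lt hF (by norm_num))
  have h5 : ∀ i, ‖x' i‖ ≤ 1 ∧ π (x' i) = π (w i) := fun i => hπ.eq_of (hw1 i) (h4 i)
  have e5 : (fun i => π (x' i)) = z := funext fun i => by rw [(h5 i).2, hw2]
  refine ⟨x', fun i => (h5 i).1, fun i => by rw [(h5 i).2, hw2], ⟨h1, h2, hO.hy⟩, ?_⟩
  apply hπ.ne
  rw [pl_red ha hπ hx (fun i => (h5 i).1) hy, e5]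
  exact hpl

end Pool.Agent.T6.H77.DW
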