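import Pool.Agent.T6.H77.DW.LIFT

/-!
# The exact link in the middle (helper77)
-/

set_option autoImplicit false

namespace Pool.Agent.T6.H77.DW

section

variable {L k : Type} [NontriviallyNormedField L] [IsUltrametricDist L] [Field k] {π : L → k}

theorem sub_le1 {x y : L} (hx : ‖x‖ ≤ 1) (hy : ‖y‖ ≤ 1) : ‖x - y‖ ≤ 1 := by
  rw [sub_eq_add_neg]
  exact (IsUltrametricDist.norm_add_le_max _ _).trans (max_le hx (by rwa [norm_neg]))

theorem Res.sub (h : Res π) {x y : L} (hx : ‖x‖ ≤ 1) (hy : ‖y‖ ≤ 1) :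
    π (x - y) = π x - π y := by
  have h1 := h.add (x - y) y (sub_le1 hx hy) hy
  rw [sub_add_cancel] at h1
  rw [h1]; ring

theorem cross (l l' Z : Fin 3 → k) (h1 : ∑ i, l i * Z i = 0) (h2 : ∑ i, l' i * Z i = 0)
    (hZ : ∀ i, Z i ≠ 0) (hn : ∃ i i', l i * l' i' ≠ l i' * l' i) :
    ∃ c : k, ∀ i : Fin 3, Z i = c * (l (i + 1) * l' (i + 2) - l (i + 2) * l' (i + 1)) := by
  rw [Fin.sum_univ_three] at h1 h2
  have e10 : (1 : Fin 3) + 1 = 2 := rfl
  have e11 : (1 : Fin 3) + 2 = 0 := rfl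
  have e20 : (2 : Fin 3) + 1 = 0 := rfl
  have e21 : (2 : Fin 3) + 2 = 1 := rfl
  have e00 : (0 : Fin 3) + 1 = 1 := rfl
  have e01 : (0 : Fin 3) + 2 = 2 := rfl
  set n : Fin 3 → k := fun i => l (i + 1) * l' (i + 2) - l (i + 2) * l' (i + 1) with hnn
  have n0 : n 0 = l 1 * l' 2 - l 2 * l' 1 := rfl
  have n1 : n 1 = l 2 * l' 0 - l 0 * l' 2 := rfl
  have n2 : n 2 = l 0 * l' 1 - l 1 * l' 0 := rfl
  have p01 : Z 0 * n 1 = Z 1 * n 0 := by
    rw [n0, n1]; linear_combination (l 2) * h2 - (l' 2) * h1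
  have p02 : Z 0 * n 2 = Z 2 * n 0 := by
    rw [n0, n2]; linear_combination (l' 1) * h1 - (l 1) * h2
  have p12 : Z 1 * n 2 = Z 2 * n 1 := by
    rw [n1, n2]; linear_combination (l 0) * h2 - (l' 0) * h1
  have hne : n 0 ≠ 0 := by
    intro h0
    rw [h0, mul_zero] at p01 p02
    have q1 : n 1 = 0 := (mul_eq_zero.1 p01).resolve_left (hZ 0)
    have q2 : n 2 = 0 := (mul_eq_zero.1 p02).resolve_left (hZ 0)
    rw [n0] at h0
    rw [n1] at q1
    rw [n2] at q2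
    obtain ⟨i, i', hi⟩ := hn
    apply hi
    fin_cases i <;> fin_cases i'
    · rfl
    · exact sub_eq_zero.1 q2
    · exact (sub_eq_zero.1 q1).symm
    · exact (sub_eq_zero.1 q2).symm
    · rfl
    · exact sub_eq_zero.1 h0
    · exact sub_eq_zero.1 q1
    · exact (sub_eq_zero.1 h0).symm
    · rfl
  refine ⟨Z 0 / n 0, fun i => ?_⟩
  change Z i = Z 0 / n 0 * n i
  rw [div_mul_eq_mul_div, eq_div_iff hne]
  fin_cases i
  · rfl
  · exact p01.symm
  · exact p02.symm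

end

theorem link (hH : StmH) : StmLINK := by
  intro L k _ _ _ _ π hπ a ha hg y y' hy hy' z hz0 hz1 hz2 hne
  have e1 : ∀ i, π (lf a y i) = lf (fun i j => π (a i j)) (fun i => π (y i)) i :=
    fun i => lf_red ha hπ hy i
  have e2 : ∀ i, π (lf a y' i) = lf (fun i j => π (a i j)) (fun i => π (y' i)) i :=
    fun i => lf_red ha hπ hy' i
  obtain ⟨c, hc⟩ := cross (fun i => π (lf a y i)) (fun i => π (lf a y' i)) (fun i => z i ^ 2)
    (by rw [← hz1, fm]; exact Finset.sum_congr rfl fun i _ => by rw [e1])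
    (by rw [← hz2, fm]; exact Finset.sum_congr rfl fun i _ => by rw [e2])
    (fun i => pow_ne_zero _ (hz0 i)) hne
  obtain ⟨C, hC1, hC2⟩ := hπ.surj c
  choose w hw1 hw2 using fun i => hπ.surj (z i)
  set l := lf a y with hl
  set l' := lf a y' with hl'
  have hl1 : ∀ i, ‖l i‖ ≤ 1 := lf_le ha hy
  have hl1' : ∀ i, ‖l' i‖ ≤ 1 := lf_le ha hy'
  set X : Fin 3 → L := fun i => C * (l (i + 1) * l' (i + 2) - l (i + 2) * l' (i + 1)) with hX
  have hX1 : ∀ i, ‖X i‖ ≤ 1 := fun i => mul_le1 hC1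
    (sub_le1 (mul_le1 (hl1 _) (hl1' _)) (mul_le1 (hl1 _) (hl1' _)))
  have hX2 : ∀ i, π (X i) = z i ^ 2 := by
    intro i
    rw [hX]
    change π (C * (l (i + 1) * l' (i + 2) - l (i + 2) * l' (i + 1))) = z i ^ 2
    rw [hπ.mul _ _ hC1 (sub_le1 (mul_le1 (hl1 _) (hl1' _)) (mul_le1 (hl1 _) (hl1' _))),
      hπ.sub (mul_le1 (hl1 _) (hl1' _)) (mul_le1 (hl1 _) (hl1' _)),
      hπ.mul _ _ (hl1 _) (hl1' _), hπ.mul _ _ (hl1 _) (hl1' _), hC2]
    exact (hc i).symm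
  have hwn : ∀ i, ‖w i‖ = 1 := fun i => hπ.norm_one_of (hw1 i) (by rw [hw2]; exact hz0 i)
  have hw0 : ∀ i, w i ≠ 0 := fun i h => by
    have := hwn i; rw [h, norm_zero] at this; exact zero_ne_one this
  have hnear : ∀ i, ‖X i / w i ^ 2 - 1‖ < 1 := by
    intro i
    have e : X i / w i ^ 2 - 1 = (X i - w i ^ 2) / w i ^ 2 := by
      have := hw0 i
      field_simp
    rw [e, norm_div, norm_pow, hwn, one_pow, div_one]
    rw [← hπ.ker _ (sub_le1 (hX1 i) (sq_le1 (hw1 i))), hπ.sub (hX1 i) (sq_le1 (hw1 i)), hX2,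
      hπ.sq (hw1 i), hw2, sub_self]
  choose r hr1 hr2 using fun i => hH L (hπ.norm_two hg.two) (X i / w i ^ 2) (hnear i)
  have hx : ∀ i, ‖w i * r i - w i‖ < 1 := by
    intro i
    have e : w i * r i - w i = w i * (r i - 1) := by ring
    rw [e, norm_mul, hwn, one_mul]
    exact (hr2 i).trans_lt (hnear i)
  have hxe : ∀ i, (w i * r i) ^ 2 = X i := by
    intro i
    rw [mul_pow, hr1]
    have := hw0 i
    field_simp
  refine ⟨fun i => w i * r i, fun i => (hπ.eq_of (hw1 i) (hx i)).1, fun i => by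
    rw [(hπ.eq_of (hw1 i) (hx i)).2, hw2], ?_, ?_⟩
  · rw [fm]
    simp only [hxe]
    rw [Fin.sum_univ_three]
    change l 0 * (C * (l 1 * l' 2 - l 2 * l' 1)) + l 1 * (C * (l 2 * l' 0 - l 0 * l' 2)) +
      l 2 * (C * (l 0 * l' 1 - l 1 * l' 0)) = 0
    ring
  · rw [fm]
    simp only [hxe]
    rw [Fin.sum_univ_three]
    change l' 0 * (C * (l 1 * l' 2 - l 2 * l' 1)) + l' 1 * (C * (l 2 * l' 0 - l 0 * l' 2)) +
      l' 2 * (C * (l 0 * l' 1 - l 1 * l' 0)) = 0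
    ring

end Pool.Agent.T6.H77.DW
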