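import Pool.Agent.T6.H77.DW.RED

/-!
# Diagonal hypersurfaces of bidegree (2, 2): mixing (helper89)
-/

set_option autoImplicit false

open Finset
open scoped Classical

namespace Pool.Agent.T6.H77.DW

namespace MX

variable {k : Type} [Field k] [Fintype k]

lemma ncard_eq {V : Type} [Fintype V] (P : V → Prop) [DecidablePred P] :
    {X : V | P X}.ncard = (univ.filter P).card := by
  rw [← Set.ncard_coe_finset]
  congr 1
  ext X
  simp

omit [Fintype k] in
lemma card_ker_mul {V W : Type} [AddCommGroup V] [Module k V] [AddCommGroup W] [Module k W]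
    [Fintype V] [Fintype W] (f : V →ₗ[k] W) (hf : Function.Surjective f) :
    (univ.filter (fun x => f x = 0)).card * Fintype.card W = Fintype.card V := by
  have h1 := Submodule.card_eq_card_quotient_mul_card (LinearMap.ker f)
  have h2 : Nat.card (V ⧸ LinearMap.ker f) = Nat.card W :=
    Nat.card_congr (f.quotKerEquivOfSurjective hf).toEquiv
  have h3 : Nat.card (LinearMap.ker f) = (univ.filter (fun x => f x = 0)).card := by
    rw [Nat.card_eq_fintype_card]
    rw [Fintype.card_of_subtype]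
    intro x
    simp
  rw [h2, h3, Nat.card_eq_fintype_card, Nat.card_eq_fintype_card] at h1
  exact h1.symm

/-- the linear form given by `v` -/
def dot (v : Fin 3 → k) : (Fin 3 → k) →ₗ[k] k where
  toFun X := ∑ i, X i * v i
  map_add' X Y := by
    simp only [Pi.add_apply, add_mul, Finset.sum_add_distrib]
  map_smul' c X := by
    simp only [Pi.smul_apply, smul_eq_mul, Finset.mul_sum, RingHom.id_apply]
    exact Finset.sum_congr rfl fun i _ => by ring

omit [Fintype k] in
lemma dot_apply (v X : Fin 3 → k) : dot v X = ∑ i, X i * v i := rfl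

omit [Fintype k] in
lemma dot_single (v : Fin 3 → k) (i : Fin 3) (c : k) : dot v (Pi.single i c) = c * v i := by
  rw [dot_apply]
  rw [Finset.sum_eq_single i]
  · simp
  · intro j _ hj
    rw [Pi.single_eq_of_ne hj, zero_mul]
  · intro h
    exact absurd (Finset.mem_univ i) h

lemma card_one {v : Fin 3 → k} (hv : ∃ i, v i ≠ 0) :
    (univ.filter (fun X : Fin 3 → k => ∑ i, X i * v i = 0)).card = Fintype.card k ^ 2 := by
  obtain ⟨i, hi⟩ := hv
  have hs : Function.Surjective (dot v) := by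
    intro c
    refine ⟨Pi.single i (c / v i), ?_⟩
    rw [dot_single]
    field_simp
  have h1 := card_ker_mul (dot v) hs
  rw [Fintype.card_fun, Fintype.card_fin, pow_succ] at h1
  exact Nat.eq_of_mul_eq_mul_right Fintype.card_pos h1

lemma card_two {v w : Fin 3 → k} (h : ∃ i j, v i * w j ≠ v j * w i) :
    (univ.filter (fun X : Fin 3 → k => ∑ i, X i * v i = 0 ∧ ∑ i, X i * w i = 0)).card =
      Fintype.card k := by
  obtain ⟨i, j, hij⟩ := h
  have hD : v i * w j - v j * w i ≠ 0 := sub_ne_zero.2 hij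
  have hs : Function.Surjective ((dot v).prod (dot w)) := by
    rintro ⟨s, t⟩
    refine ⟨Pi.single i ((s * w j - t * v j) / (v i * w j - v j * w i)) +
      Pi.single j ((t * v i - s * w i) / (v i * w j - v j * w i)), ?_⟩
    rw [Prod.ext_iff]
    constructor
    · show dot v _ = s
      rw [map_add, dot_single, dot_single, div_mul_eq_mul_div, div_mul_eq_mul_div, ← add_div,
        div_eq_iff hD]
      ring
    · show dot w _ = t
      rw [map_add, dot_single, dot_single, div_mul_eq_mul_div, div_mul_eq_mul_div, ← add_div,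
        div_eq_iff hD]
      ring
  have h1 := card_ker_mul ((dot v).prod (dot w)) hs
  rw [Fintype.card_fun, Fintype.card_fin, Fintype.card_prod] at h1
  have h2 : Fintype.card k ^ 3 = Fintype.card k * (Fintype.card k * Fintype.card k) := by ring
  rw [h2] at h1
  have h3 := Nat.eq_of_mul_eq_mul_right (Nat.mul_pos Fintype.card_pos Fintype.card_pos) h1
  rw [← h3]
  congr 1
  ext X
  simp only [mem_filter, mem_univ, true_and]
  exact (Prod.mk_eq_zero (x := dot v X) (y := dot w X)).symm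

/-- the balanced indicator function of the plane orthogonal to `v` -/
noncomputable def gg (v X : Fin 3 → k) : ℤ :=
  (Fintype.card k : ℤ) * (if ∑ i, X i * v i = 0 then 1 else 0) - 1

lemma sum_gg (v w : Fin 3 → k) : ∑ X, gg v X * gg w X =
    (Fintype.card k : ℤ) ^ 2 *
      (univ.filter (fun X : Fin 3 → k => ∑ i, X i * v i = 0 ∧ ∑ i, X i * w i = 0)).card -
    (Fintype.card k : ℤ) * (univ.filter (fun X : Fin 3 → k => ∑ i, X i * v i = 0)).card -
    (Fintype.card k : ℤ) * (univ.filter (fun X : Fin 3 → k => ∑ i, X i * w i = 0)).card +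
    (Fintype.card k : ℤ) ^ 3 := by
  have h1 : ∀ X : Fin 3 → k, gg v X * gg w X = (Fintype.card k : ℤ) ^ 2 *
      (if (∑ i, X i * v i = 0 ∧ ∑ i, X i * w i = 0) then 1 else 0) -
      (Fintype.card k : ℤ) * (if ∑ i, X i * v i = 0 then 1 else 0) -
      (Fintype.card k : ℤ) * (if ∑ i, X i * w i = 0 then 1 else 0) + 1 := by
    intro X
    unfold gg
    by_cases ha : ∑ i, X i * v i = 0 <;> by_cases hb : ∑ i, X i * w i = 0 <;> simp [ha, hb] <;>
      ring
  simp_rw [h1]
  rw [Finset.sum_add_distrib, Finset.sum_sub_distrib, Finset.sum_sub_distrib, ← Finset.mul_sum,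
    ← Finset.mul_sum, ← Finset.mul_sum, Finset.sum_boole, Finset.sum_boole, Finset.sum_boole]
  have h2 : ∑ X : Fin 3 → k, (1:ℤ) = (Fintype.card k : ℤ) ^ 3 := by
    rw [Finset.sum_const, Finset.card_univ, Fintype.card_fun, Fintype.card_fin]
    simp
  rw [h2]

lemma sum_gg_indep {v w : Fin 3 → k} (h : ∃ i j, v i * w j ≠ v j * w i) :
    ∑ X, gg v X * gg w X = 0 := by
  have hv : ∃ i, v i ≠ 0 := by
    by_contra hc
    push Not at hc
    obtain ⟨i, j, hij⟩ := h
    rw [hc i, hc j] at hij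
    exact hij (by ring)
  have hw : ∃ i, w i ≠ 0 := by
    by_contra hc
    push Not at hc
    obtain ⟨i, j, hij⟩ := h
    rw [hc i, hc j] at hij
    exact hij (by ring)
  rw [sum_gg, card_two h, card_one hv, card_one hw]
  push_cast
  ring

lemma sum_gg_le {v w : Fin 3 → k} (hv : ∃ i, v i ≠ 0) (hw : ∃ i, w i ≠ 0) :
    ∑ X, gg v X * gg w X ≤ (Fintype.card k : ℤ) ^ 4 := by
  rw [sum_gg, card_one hv, card_one hw]
  have h1 : (univ.filter (fun X : Fin 3 → k => ∑ i, X i * v i = 0 ∧ ∑ i, X i * w i = 0)).card ≤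
      (univ.filter (fun X : Fin 3 → k => ∑ i, X i * v i = 0)).card := by
    apply Finset.card_le_card
    intro X hX
    simp only [mem_filter, mem_univ, true_and] at hX ⊢
    exact hX.1
  rw [card_one hv] at h1
  have h2 : ((univ.filter (fun X : Fin 3 → k =>
      ∑ i, X i * v i = 0 ∧ ∑ i, X i * w i = 0)).card : ℤ) ≤ (Fintype.card k : ℤ) ^ 2 := by
    exact_mod_cast h1
  have h3 : (0:ℤ) < (Fintype.card k : ℤ) := by exact_mod_cast Fintype.card_pos
  have h4 : (Fintype.card k : ℤ) ^ 2 * ((univ.filter (fun X : Fin 3 → k =>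
      ∑ i, X i * v i = 0 ∧ ∑ i, X i * w i = 0)).card : ℤ) ≤
      (Fintype.card k : ℤ) ^ 2 * (Fintype.card k : ℤ) ^ 2 :=
    mul_le_mul_of_nonneg_left h2 (by positivity)
  push_cast
  have h5 : (0:ℤ) < (Fintype.card k : ℤ) ^ 3 := by positivity
  nlinarith

/-! ### proportional vectors -/

omit [Fintype k] in
lemma lf_eq_mulVec (a : Fin 3 → Fin 3 → k) (y : Fin 3 → k) :
    lf a y = (Matrix.of a).mulVec (fun j => y j ^ 2) := by
  ext i
  simp [lf, Matrix.mulVec, dotProduct]

omit [Fintype k] in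
lemma sq_of_lf {a : Fin 3 → Fin 3 → k} (hd : (Matrix.of a).det ≠ 0) {y y' : Fin 3 → k} {c : k}
    (h : ∀ i, lf a y' i = c * lf a y i) : ∀ i, y' i ^ 2 = c * y i ^ 2 := by
  have h1 : (Matrix.of a).mulVec ((fun j => y' j ^ 2) - c • (fun j => y j ^ 2)) = 0 := by
    rw [Matrix.mulVec_sub, Matrix.mulVec_smul, ← lf_eq_mulVec, ← lf_eq_mulVec]
    ext i
    simp [h i]
  have h2 := Matrix.eq_zero_of_mulVec_eq_zero hd h1
  intro i
  have h3 := congrFun h2 i
  simp only [Pi.sub_apply, Pi.smul_apply, smul_eq_mul, Pi.zero_apply] at h3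
  exact sub_eq_zero.1 h3

omit [Fintype k] in
lemma lf_ne {a : Fin 3 → Fin 3 → k} (hd : (Matrix.of a).det ≠ 0) {y : Fin 3 → k} (hy : y ≠ 0) :
    ∃ i, lf a y i ≠ 0 := by
  by_contra hc
  push Not at hc
  apply hy
  have h1 : ∀ i, y i ^ 2 = 0 * y i ^ 2 :=
    sq_of_lf hd (fun i => by rw [hc i, zero_mul])
  ext i
  have := h1 i
  rw [zero_mul] at this
  simpa using this

lemma card_sqrt (s : k) : (univ.filter (fun t : k => t ^ 2 = s)).card ≤ 2 := by
  by_cases h : ∃ t0 : k, t0 ^ 2 = s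
  · obtain ⟨t0, ht0⟩ := h
    refine (Finset.card_le_card (t := {t0, -t0}) ?_).trans Finset.card_le_two
    intro t ht
    simp only [mem_filter, mem_univ, true_and] at ht
    rw [← ht0] at ht
    rcases sq_eq_sq_iff_eq_or_eq_neg.1 ht with h | h <;> simp [h]
  · push Not at h
    rw [Finset.filter_false_of_mem (fun t _ => h t)]
    simp

lemma card_sqrt3 (s : Fin 3 → k) :
    (univ.filter (fun y : Fin 3 → k => ∀ i, y i ^ 2 = s i)).card ≤ 8 := by
  have h1 : (univ.filter (fun y : Fin 3 → k => ∀ i, y i ^ 2 = s i)) =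
      Fintype.piFinset (fun i => univ.filter (fun t : k => t ^ 2 = s i)) := by
    ext y
    simp [Fintype.mem_piFinset]
  rw [h1, Fintype.card_piFinset, Fin.prod_univ_three]
  have h2 := card_sqrt (s 0)
  have h3 := card_sqrt (s 1)
  have h4 := card_sqrt (s 2)
  calc _ ≤ 2 * 2 * 2 := Nat.mul_le_mul (Nat.mul_le_mul h2 h3) h4
    _ = 8 := rfl

lemma card_prop {a : Fin 3 → Fin 3 → k} (hd : (Matrix.of a).det ≠ 0) {y : Fin 3 → k}
    (hy : y ≠ 0) :
    (univ.filter (fun y' : Fin 3 → k =>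
      ¬ ∃ i j, lf a y i * lf a y' j ≠ lf a y j * lf a y' i)).card ≤ 8 * Fintype.card k := by
  obtain ⟨i0, hi0⟩ := lf_ne hd hy
  have h1 : (univ.filter (fun y' : Fin 3 → k =>
      ¬ ∃ i j, lf a y i * lf a y' j ≠ lf a y j * lf a y' i)) ⊆
      (univ : Finset k).biUnion (fun c =>
        univ.filter (fun y' : Fin 3 → k => ∀ i, y' i ^ 2 = c * y i ^ 2)) := by
    intro y' hy'
    simp only [mem_filter, mem_univ, true_and] at hy'
    push Not at hy'
    simp only [mem_biUnion, mem_univ, true_and, mem_filter]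
    refine ⟨lf a y' i0 / lf a y i0, sq_of_lf hd ?_⟩
    intro i
    have := hy' i0 i
    field_simp
    linear_combination this
  refine (Finset.card_le_card h1).trans (Finset.card_biUnion_le.trans ?_)
  calc ∑ c : k, (univ.filter (fun y' : Fin 3 → k => ∀ i, y' i ^ 2 = c * y i ^ 2)).card
      ≤ ∑ c : k, 8 := Finset.sum_le_sum fun c _ => card_sqrt3 _
    _ = 8 * Fintype.card k := by
      rw [Finset.sum_const, Finset.card_univ, smul_eq_mul, mul_comm]

end MX

open MX in
theorem mx : StmMX := by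
  intro k _ _ a ha B hB
  set q : ℤ := (Fintype.card k : ℤ) with hq
  have hqpos : 0 < q := by
    rw [hq]
    exact_mod_cast Fintype.card_pos
  set B' : Finset (Fin 3 → k) := univ.filter (fun y => y ∈ B) with hB'
  have hBc : B.ncard = B'.card := by
    rw [hB', ← ncard_eq]
    rfl
  have hB0 : ∀ y ∈ B', y ≠ 0 := by
    intro y hy h0
    rw [hB', mem_filter] at hy
    rw [h0] at hy
    exact hB hy.2
  have hN : ∀ X : Fin 3 → k, ({y | y ∈ B ∧ ∑ i, X i * lf a y i = 0}.ncard : ℤ) =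
      ∑ y ∈ B', (if ∑ i, X i * lf a y i = 0 then (1:ℤ) else 0) := by
    intro X
    rw [ncard_eq, Finset.sum_boole, hB', Finset.filter_filter]
  have hG : ∀ X : Fin 3 → k, q * ({y | y ∈ B ∧ ∑ i, X i * lf a y i = 0}.ncard : ℤ) -
      (B.ncard : ℤ) = ∑ y ∈ B', gg (lf a y) X := by
    intro X
    rw [hN, hBc]
    unfold gg
    rw [Finset.sum_sub_distrib, ← Finset.mul_sum]
    simp [hq]
  -- the second moment
  have hM : ∑ X : Fin 3 → k, (∑ y ∈ B', gg (lf a y) X) ^ 2 ≤ 8 * q ^ 5 * (B'.card : ℤ) := by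
    have h1 : ∑ X : Fin 3 → k, (∑ y ∈ B', gg (lf a y) X) ^ 2 =
        ∑ y ∈ B', ∑ y' ∈ B', ∑ X : Fin 3 → k, gg (lf a y) X * gg (lf a y') X := by
      simp_rw [sq, Finset.sum_mul_sum]
      rw [Finset.sum_comm]
      refine Finset.sum_congr rfl fun y _ => ?_
      rw [Finset.sum_comm]
    rw [h1]
    have h2 : ∀ y ∈ B', ∑ y' ∈ B', ∑ X : Fin 3 → k, gg (lf a y) X * gg (lf a y') X ≤
        8 * q ^ 5 := by
      intro y hy
      have h3 : ∀ y' ∈ B', ∑ X : Fin 3 → k, gg (lf a y) X * gg (lf a y') X ≤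
          q ^ 4 * (if ¬ ∃ i j, lf a y i * lf a y' j ≠ lf a y j * lf a y' i then 1 else 0) := by
        intro y' hy'
        by_cases hc : ∃ i j, lf a y i * lf a y' j ≠ lf a y j * lf a y' i
        · rw [sum_gg_indep hc]
          simp only [hc, not_true_eq_false, if_false, mul_zero, le_refl]
        · rw [if_pos hc, mul_one]
          exact sum_gg_le (lf_ne ha.det (hB0 y hy)) (lf_ne ha.det (hB0 y' hy'))
      calc ∑ y' ∈ B', ∑ X : Fin 3 → k, gg (lf a y) X * gg (lf a y') X
          ≤ ∑ y' ∈ B', q ^ 4 *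
            (if ¬ ∃ i j, lf a y i * lf a y' j ≠ lf a y j * lf a y' i then 1 else 0) :=
            Finset.sum_le_sum h3
        _ ≤ ∑ y' : Fin 3 → k, q ^ 4 *
            (if ¬ ∃ i j, lf a y i * lf a y' j ≠ lf a y j * lf a y' i then 1 else 0) := by
            refine Finset.sum_le_sum_of_subset_of_nonneg (Finset.subset_univ _) ?_
            intro y' _ _
            split_ifs <;> simp <;> positivity
        _ = q ^ 4 * ((univ.filter (fun y' : Fin 3 → k =>
              ¬ ∃ i j, lf a y i * lf a y' j ≠ lf a y j * lf a y' i)).card : ℤ) := by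
            rw [← Finset.mul_sum, Finset.sum_boole]
        _ ≤ q ^ 4 * (8 * q) := by
            refine mul_le_mul_of_nonneg_left ?_ (by positivity)
            have := card_prop ha.det (hB0 y hy)
            rw [hq]
            exact_mod_cast this
        _ = 8 * q ^ 5 := by ring
    calc ∑ y ∈ B', ∑ y' ∈ B', ∑ X : Fin 3 → k, gg (lf a y) X * gg (lf a y') X
        ≤ ∑ y ∈ B', 8 * q ^ 5 := Finset.sum_le_sum h2
      _ = 8 * q ^ 5 * (B'.card : ℤ) := by
        rw [Finset.sum_const, nsmul_eq_mul]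
        ring
  -- the bad set
  set S : Finset (Fin 3 → k) := univ.filter (fun X : Fin 3 → k =>
    2 * Fintype.card k * {y | y ∈ B ∧ ∑ i, X i * lf a y i = 0}.ncard < B.ncard) with hS
  have hSc : {X : Fin 3 → k | 2 * Fintype.card k * {y | y ∈ B ∧ ∑ i, X i * lf a y i = 0}.ncard <
      B.ncard}.ncard = S.card := by
    rw [ncard_eq]
  rw [hSc]
  have h4 : (S.card : ℤ) * (B.ncard : ℤ) ^ 2 ≤ 4 * (8 * q ^ 5 * (B'.card : ℤ)) := by
    have h5 : ∀ X ∈ S, (B.ncard : ℤ) ^ 2 ≤ 4 * (∑ y ∈ B', gg (lf a y) X) ^ 2 := by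
      intro X hX
      rw [hS, mem_filter] at hX
      have h6 : 2 * q * ({y | y ∈ B ∧ ∑ i, X i * lf a y i = 0}.ncard : ℤ) < (B.ncard : ℤ) := by
        rw [hq]
        exact_mod_cast hX.2
      rw [← hG X]
      have h7 : (0:ℤ) ≤ q * ({y | y ∈ B ∧ ∑ i, X i * lf a y i = 0}.ncard : ℤ) := by positivity
      nlinarith
    calc (S.card : ℤ) * (B.ncard : ℤ) ^ 2 = ∑ X ∈ S, (B.ncard : ℤ) ^ 2 := by
          rw [Finset.sum_const, nsmul_eq_mul]
      _ ≤ ∑ X ∈ S, 4 * (∑ y ∈ B', gg (lf a y) X) ^ 2 := Finset.sum_le_sum h5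
      _ ≤ ∑ X : Fin 3 → k, 4 * (∑ y ∈ B', gg (lf a y) X) ^ 2 :=
          Finset.sum_le_sum_of_subset_of_nonneg (Finset.subset_univ _)
            (fun X _ _ => by positivity)
      _ = 4 * ∑ X : Fin 3 → k, (∑ y ∈ B', gg (lf a y) X) ^ 2 := by rw [Finset.mul_sum]
      _ ≤ _ := mul_le_mul_of_nonneg_left hM (by norm_num)
  rcases Nat.eq_zero_or_pos B.ncard with h0 | hpos
  · rw [h0, mul_zero]
    exact Nat.zero_le _
  · have hposZ : (0:ℤ) < (B.ncard : ℤ) := by exact_mod_cast hpos
    rw [← hBc] at h4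
    have h8 : ((S.card : ℤ) * (B.ncard : ℤ)) * (B.ncard : ℤ) ≤ (32 * q ^ 5) * (B.ncard : ℤ) := by
      nlinarith
    have h9 := le_of_mul_le_mul_right h8 hposZ
    rw [hq] at h9
    exact_mod_cast h9

end Pool.Agent.T6.H77.DW
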