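import Pool.Agent.T6.H77.DW.Stm

/-!
# Modules SC and CNT (helper86)
-/

set_option autoImplicit false

namespace Pool.Agent.T6.H77.DW

namespace SCCNT

lemma aux {k : Type} [Field k] (l0 l1 l2 x0 x1 x2 y0 y1 y2 : k) (h0 : l0 ≠ 0) (h1 : l1 ≠ 0)
    (e1 : l0 * x0 ^ 2 + l1 * x1 ^ 2 + l2 * x2 ^ 2 = 0)
    (e2 : l0 * y0 ^ 2 + l1 * y1 ^ 2 + l2 * y2 ^ 2 = 0)
    (e3 : l0 * x0 * y0 + l1 * x1 * y1 + l2 * x2 * y2 = 0) : x0 * y1 = x1 * y0 := by
  have h : l0 * l1 * (x0 * y1 - x1 * y0) ^ 2 = 0 := by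
    linear_combination (l0 * y0 ^ 2 + l1 * y1 ^ 2) * e1 - l2 * x2 ^ 2 * e2 -
      (l0 * x0 * y0 + l1 * x1 * y1) * e3 + l2 * x2 * y2 * e3
  have h2 : (x0 * y1 - x1 * y0) ^ 2 = 0 := by
    rcases mul_eq_zero.1 h with h | h
    · exact absurd h (mul_ne_zero h0 h1)
    · exact h
  have h3 : x0 * y1 - x1 * y0 = 0 := by
    rcases pow_eq_zero_iff (two_ne_zero) |>.1 h2 with h
    exact h
  exact sub_eq_zero.1 h3

/-- the character sum of a nondegenerate binary form vanishes -/
lemma sum_zero {k : Type} [Field k] [Fintype k] [DecidableEq k] (h2 : ringChar k ≠ 2) (α β : k)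
    (hα : α ≠ 0) (hβ : β ≠ 0) :
    ∑ z : k × k, quadraticChar k (α * z.1 ^ 2 + β * z.2 ^ 2) = 0 := by
  obtain ⟨g, hg⟩ := quadraticChar_exists_neg_one h2
  have hg0 : g ≠ 0 := by
    rintro rfl
    simp at hg
  obtain ⟨u, v, huv⟩ : ∃ u v : k, α * u ^ 2 + β * v ^ 2 = g * α := by
    have hodd : Fintype.card k % 2 = 1 := FiniteField.odd_card_of_char_ne_two h2
    obtain ⟨u, v, h⟩ := FiniteField.exists_root_sum_quadratic (R := k)
      (f := Polynomial.C α * Polynomial.X ^ 2 + Polynomial.C 0 * Polynomial.X + Polynomial.C 0)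
      (g := Polynomial.C β * Polynomial.X ^ 2 + Polynomial.C 0 * Polynomial.X +
        Polynomial.C (- (g * α)))
      (Polynomial.degree_quadratic hα) (Polynomial.degree_quadratic hβ) hodd
    refine ⟨u, v, ?_⟩
    simp only [Polynomial.eval_add, Polynomial.eval_mul, Polynomial.eval_C, Polynomial.eval_pow,
      Polynomial.eval_X] at h
    linear_combination h
  -- `(x, y) ↦ (u x - (β / α) v y, v x + u y)` multiplies the form by `g`
  obtain ⟨φ, hφ⟩ : ∃ φ : k × k → k × k, φ = fun z => (u * z.1 - β / α * v * z.2, v * z.1 + u * z.2) :=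
    ⟨_, rfl⟩
  have hform : ∀ z : k × k, α * (φ z).1 ^ 2 + β * (φ z).2 ^ 2 = g * (α * z.1 ^ 2 + β * z.2 ^ 2) := by
    intro z
    rw [hφ]
    have e : u ^ 2 + β / α * v ^ 2 = g := by
      field_simp
      linear_combination huv
    have e2 : α * (u * z.1 - β / α * v * z.2) ^ 2 + β * (v * z.1 + u * z.2) ^ 2 =
        (u ^ 2 + β / α * v ^ 2) * (α * z.1 ^ 2 + β * z.2 ^ 2) := by
      field_simp
      ring
    simp only
    rw [e2, e]
  have hinj : Function.Injective φ := by
    intro z w hzw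
    rw [hφ] at hzw
    simp only [Prod.mk.injEq] at hzw
    obtain ⟨h1, h3⟩ := hzw
    have e : α * u ^ 2 + β * v ^ 2 ≠ 0 := by
      rw [huv]
      exact mul_ne_zero hg0 hα
    have h1' : α * u * z.1 - β * v * z.2 = α * u * w.1 - β * v * w.2 := by
      have h5 : α * (u * z.1 - β / α * v * z.2) = α * (u * w.1 - β / α * v * w.2) := by rw [h1]
      field_simp at h5
      linear_combination h5
    have a1 : (α * u ^ 2 + β * v ^ 2) * (z.1 - w.1) = 0 := by
      linear_combination u * h1' + β * v * h3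
    have a2 : (α * u ^ 2 + β * v ^ 2) * (z.2 - w.2) = 0 := by
      linear_combination α * u * h3 - v * h1'
    have b1 : z.1 = w.1 := by
      rcases mul_eq_zero.1 a1 with h | h
      · exact absurd h e
      · exact sub_eq_zero.1 h
    have b2 : z.2 = w.2 := by
      rcases mul_eq_zero.1 a2 with h | h
      · exact absurd h e
      · exact sub_eq_zero.1 h
    exact Prod.ext b1 b2
  have hbij : Function.Bijective φ := Finite.injective_iff_bijective.1 hinj
  have h1 : ∑ z : k × k, quadraticChar k (α * z.1 ^ 2 + β * z.2 ^ 2) =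
      ∑ z : k × k, quadraticChar k (α * (φ z).1 ^ 2 + β * (φ z).2 ^ 2) :=
    (Function.Bijective.sum_comp hbij (fun z : k × k => quadraticChar k (α * z.1 ^ 2 + β * z.2 ^ 2))).symm
  have h3 : ∑ z : k × k, quadraticChar k (α * (φ z).1 ^ 2 + β * (φ z).2 ^ 2) =
      - ∑ z : k × k, quadraticChar k (α * z.1 ^ 2 + β * z.2 ^ 2) := by
    rw [← Finset.sum_neg_distrib]
    refine Finset.sum_congr rfl fun z _ => ?_
    rw [hform, map_mul, hg]
    ring
  have h4 := h1.trans h3
  linarith

end SCCNT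

theorem sc : StmSC := by
  intro k _ l x x' hl h1 h2 h3 i j
  simp only [Fin.sum_univ_three] at h1 h2 h3
  have a01 : x 0 * x' 1 = x 1 * x' 0 :=
    SCCNT.aux (l 0) (l 1) (l 2) _ _ _ _ _ _ (hl 0) (hl 1) h1 h2 h3
  have a02 : x 0 * x' 2 = x 2 * x' 0 :=
    SCCNT.aux (l 0) (l 2) (l 1) (x 0) (x 2) (x 1) (x' 0) (x' 2) (x' 1) (hl 0) (hl 2)
      (by linear_combination h1) (by linear_combination h2) (by linear_combination h3)
  have a12 : x 1 * x' 2 = x 2 * x' 1 :=
    SCCNT.aux (l 1) (l 2) (l 0) (x 1) (x 2) (x 0) (x' 1) (x' 2) (x' 0) (hl 1) (hl 2)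
      (by linear_combination h1) (by linear_combination h2) (by linear_combination h3)
  fin_cases i <;> fin_cases j <;> simp_all

theorem cnt : StmCNT := by
  intro k _ _ h2 l hl
  classical
  have hchar : ringChar k ≠ 2 := by
    intro h
    apply h2
    have := ringChar.spec k 2
    have h3 : ((2 : ℕ) : k) = 0 := this.2 (by rw [h])
    exact_mod_cast h3
  have e1 : {x : Fin 3 → k | ∑ i, l i * x i ^ 2 = 0}.ncard =
      ((Finset.univ : Finset (Fin 3 → k)).filter (fun x => ∑ i, l i * x i ^ 2 = 0)).card := by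
    rw [← Set.ncard_coe_finset]
    congr 1
    ext x
    simp
  rw [e1, Finset.card_eq_sum_card_fiberwise (f := fun x : Fin 3 → k => ((x 0, x 1) : k × k))
    (t := Finset.univ) (fun x _ => by simp)]
  have e2 : ∀ z : k × k, ((((Finset.univ : Finset (Fin 3 → k)).filter
      (fun x => ∑ i, l i * x i ^ 2 = 0)).filter (fun x => ((x 0, x 1) : k × k) = z)).card : ℤ) =
      quadraticChar k ((-l 2 * l 0) * z.1 ^ 2 + (-l 2 * l 1) * z.2 ^ 2) + 1 := by
    intro z
    have h3 : (((Finset.univ : Finset (Fin 3 → k)).filter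
      (fun x => ∑ i, l i * x i ^ 2 = 0)).filter (fun x => ((x 0, x 1) : k × k) = z)).card =
      ({x : k | x ^ 2 = -(l 0 * z.1 ^ 2 + l 1 * z.2 ^ 2) / l 2} : Set k).toFinset.card := by
      refine Finset.card_bij (fun x _ => x 2) ?_ ?_ ?_
      · intro x hx
        simp only [Finset.mem_filter, Finset.mem_univ, true_and, Fin.sum_univ_three] at hx
        obtain ⟨hx1, hx2⟩ := hx
        rw [Set.mem_toFinset, Set.mem_ofPred_eq, ← hx2, eq_div_iff (hl 2)]
        simp only
        linear_combination hx1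
      · intro x hx y hy hxy
        simp only [Finset.mem_filter, Finset.mem_univ, true_and] at hx hy
        have h4 := hx.2.trans hy.2.symm
        simp only [Prod.mk.injEq] at h4
        ext i
        fin_cases i
        · exact h4.1
        · exact h4.2
        · exact hxy
      · intro b hb
        rw [Set.mem_toFinset, Set.mem_ofPred_eq, eq_div_iff (hl 2)] at hb
        refine ⟨![z.1, z.2, b], ?_, rfl⟩
        simp only [Finset.mem_filter, Finset.mem_univ, true_and, Fin.sum_univ_three]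
        refine ⟨?_, rfl⟩
        have : l 0 * z.1 ^ 2 + l 1 * z.2 ^ 2 + l 2 * b ^ 2 = 0 := by linear_combination hb
        simpa using this
    rw [h3, quadraticChar_card_sqrts hchar]
    congr 1
    have h5 : -(l 0 * z.1 ^ 2 + l 1 * z.2 ^ 2) / l 2 =
        ((-l 2 * l 0) * z.1 ^ 2 + (-l 2 * l 1) * z.2 ^ 2) * (l 2)⁻¹ ^ 2 := by
      have := hl 2
      field_simp
      ring
    rw [h5, map_mul, quadraticChar_sq_one' (inv_ne_zero (hl 2)), mul_one]
  have e3 : ((∑ z : k × k, (((Finset.univ : Finset (Fin 3 → k)).filter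
      (fun x => ∑ i, l i * x i ^ 2 = 0)).filter (fun x => ((x 0, x 1) : k × k) = z)).card : ℕ) : ℤ) =
      ((Fintype.card k ^ 2 : ℕ) : ℤ) := by
    push_cast
    rw [Finset.sum_congr rfl fun z _ => e2 z, Finset.sum_add_distrib,
      SCCNT.sum_zero hchar _ _ (mul_ne_zero (neg_ne_zero.2 (hl 2)) (hl 0))
        (mul_ne_zero (neg_ne_zero.2 (hl 2)) (hl 1))]
    simp [sq]
  exact_mod_cast e3

end Pool.Agent.T6.H77.DW
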