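import Pool.Agent.T6.H77.DW.RED

/-!
# Ordinary points over a local field with large residue field are joined by moves (helper77)
-/

set_option autoImplicit false

namespace Pool.Agent.T6.H77.DW

namespace LOC

variable {L k : Type} [NontriviallyNormedField L] [IsUltrametricDist L] [CompleteSpace L]
  [Field k] {π : L → k} {a : Fin 3 → Fin 3 → L}

/-- integral points with reduction `p` -/
structure Rd (π : L → k) (P : (Fin 3 → L) × (Fin 3 → L)) (p : (Fin 3 → k) × (Fin 3 → k)) :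
    Prop where
  h1 : ∀ i, ‖P.1 i‖ ≤ 1
  h2 : ∀ i, ‖P.2 i‖ ≤ 1
  e1 : ∀ i, π (P.1 i) = p.1 i
  e2 : ∀ i, π (P.2 i) = p.2 i

theorem liftX (hL : StmLIFT) (hπ : Res π) (ha : ∀ i j, ‖a i j‖ ≤ 1)
    (hg : Gd (fun i j => π (a i j))) {P : (Fin 3 → L) × (Fin 3 → L)}
    {p : (Fin 3 → k) × (Fin 3 → k)} (hP : Ord a P.1 P.2) (hr : Rd π P p) (z : Fin 3 → k)
    (hz : fm (fun i j => π (a i j)) z p.2 = 0)
    (hpl : pl (fun i j => π (a i j)) p.2 p.1 z ≠ 0) :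
    ∃ Q : (Fin 3 → L) × (Fin 3 → L), Rd π Q (z, p.2) ∧ Ord a Q.1 Q.2 ∧ Mv a P Q ∧ Q.2 = P.2 := by
  have e1 : (fun i => π (P.1 i)) = p.1 := funext hr.e1
  have e2 : (fun i => π (P.2 i)) = p.2 := funext hr.e2
  obtain ⟨x', h1, h2, h3, h4⟩ := hL L k π hπ a ha hg P.1 P.2 hP hr.h1 hr.h2 z
    (by rw [e2]; exact hz) (by rw [e1, e2]; exact hpl)
  exact ⟨(x', P.2), ⟨h1, hr.h2, h2, hr.e2⟩, h3, Or.inl ⟨rfl, h4⟩, rfl⟩

theorem liftY (hL : StmLIFT) (hπ : Res π) (ha : ∀ i j, ‖a i j‖ ≤ 1)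
    (hg : Gd (fun i j => π (a i j))) {P : (Fin 3 → L) × (Fin 3 → L)}
    {p : (Fin 3 → k) × (Fin 3 → k)} (hP : Ord a P.1 P.2) (hr : Rd π P p) (z : Fin 3 → k)
    (hz : fm (fun i j => π (a i j)) p.1 z = 0)
    (hpl : pl (tr fun i j => π (a i j)) p.1 p.2 z ≠ 0) :
    ∃ Q : (Fin 3 → L) × (Fin 3 → L), Rd π Q (p.1, z) ∧ Ord a Q.1 Q.2 ∧ Mv a P Q ∧ Q.1 = P.1 := by
  have hgt : Gd (fun i j => π (tr a i j)) := hg.tr
  obtain ⟨Q, h1, h2, h3, h4⟩ := liftX (a := tr a) hL hπ (fun i j => ha j i) hgt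
    (P := P.swap) (p := p.swap) hP.tr ⟨hr.h2, hr.h1, hr.e2, hr.e1⟩ z
    (by rw [← hz]; exact fm_tr _ _ _) hpl
  exact ⟨Q.swap, ⟨h1.h2, h1.h1, h1.e2, h1.e1⟩, h2.tr, h3.tr, h4⟩

/-- chains over the residue field lift -/
theorem liftC (hL : StmLIFT) (hπ : Res π) (ha : ∀ i j, ‖a i j‖ ≤ 1)
    (hg : Gd (fun i j => π (a i j))) {n : ℕ} {p q : (Fin 3 → k) × (Fin 3 → k)}
    (h : Ch (fun i j => π (a i j)) n p q) {P : (Fin 3 → L) × (Fin 3 → L)}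
    (hP : Ord a P.1 P.2) (hr : Rd π P p) :
    ∃ Q : (Fin 3 → L) × (Fin 3 → L), Rd π Q q ∧ Ord a Q.1 Q.2 ∧ Cn a n P Q := by
  induction h with
  | refl n p => exact ⟨P, hr, hP, Cn.refl _ _⟩
  | step n p q r _ hr' hm ih =>
    obtain ⟨Q, h1, h2, h3⟩ := ih hr
    rcases hm with hm | hm
    · obtain ⟨R, r1, r2, r3, -⟩ := liftX hL hπ ha hg h2 h1 r.1 (by rw [hm.1]; exact hr')
        (by exact hm.2)
      refine ⟨R, ?_, r2, Cn.step _ _ _ _ h3 r2 r3⟩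
      rw [hm.1] at r1
      exact r1
    · obtain ⟨R, r1, r2, r3, -⟩ := liftY hL hπ ha hg h2 h1 r.2 (by rw [hm.1]; exact hr')
        (by exact hm.2)
      refine ⟨R, ?_, r2, Cn.step _ _ _ _ h3 r2 r3⟩
      rw [hm.1] at r1
      exact r1

/-- the reduction of an ordinary reduction is an ordinary point -/
theorem ns_of_gd {k : Type} [Field k] {a : Fin 3 → Fin 3 → k} {x y : Fin 3 → k}
    (h : Ord a x y) : x ≠ 0 := by
  rintro rfl
  exact h.hx 0 (by simp [lf])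

/-- a neighbour over the residue field -/
theorem nb (hC : StmC1) {k : Type} [Field k] [Fintype k] (hq : 31 ≤ Fintype.card k)
    {a : Fin 3 → Fin 3 → k} (hg : Gd a) {x y : Fin 3 → k} (h : Ord a x y) :
    ∃ z, Ord a z y ∧ pl a y x z ≠ 0 := by
  have h1 := hC k a hg y h.ns_right h.hy x (ns_of_gd h) h.on
  have h2 : {x' : Fin 3 → k | fm a x' y = 0 ∧ (∀ j, lf (tr a) x' j ≠ 0) ∧
      pl a y x x' ≠ 0}.Nonempty := by
    rw [Set.nonempty_iff_ne_empty]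
    intro he
    rw [he, Set.ncard_empty] at h1
    nlinarith
  obtain ⟨z, z1, z2, z3⟩ := h2
  exact ⟨z, ⟨z1, z2, h.hy⟩, z3⟩

/-- change of the scaling -/
theorem fix (hC : StmC1) (hL : StmLIFT) [Fintype k] (hq : 31 ≤ Fintype.card k) (hπ : Res π)
    (ha : ∀ i j, ‖a i j‖ ≤ 1) (hg : Gd (fun i j => π (a i j)))
    {P : (Fin 3 → L) × (Fin 3 → L)} {p : (Fin 3 → k) × (Fin 3 → k)} (hP : Ord a P.1 P.2)
    (hr : Rd π P p) (hp : Ord (fun i j => π (a i j)) p.1 p.2) {b c : L} (hb : b ≠ 0)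
    (hc : c ≠ 0) : Cn a 4 (b • P.1, c • P.2) P := by
  obtain ⟨z, hz, hz2⟩ := nb hC hq hg hp
  obtain ⟨Q, q1, q2, q3, q4⟩ := liftX hL hπ ha hg hP hr z hz.on hz2
  obtain ⟨w, hw, hw2⟩ := nb hC hq hg.tr hz.tr
  obtain ⟨R, r1, r2, r3, r4⟩ := liftY hL hπ ha hg q2 q1 w (by rw [← hw.on, fm_tr]) hw2
  -- the move from P to Q is an X-move, the move from Q to R is a Y-move
  have m1 : pl a P.2 P.1 Q.1 ≠ 0 := by
    have h1 : π (pl a P.2 P.1 Q.1) ≠ 0 := by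
      rw [pl_red ha hπ hr.h1 q1.h1 hr.h2, funext hr.e1, funext hr.e2,
        show (fun j => π (Q.1 j)) = z from funext q1.e1]
      exact hz2
    exact hπ.ne h1
  have m2 : pl (tr a) Q.1 Q.2 R.2 ≠ 0 := by
    have h1 : π (pl (tr a) Q.1 Q.2 R.2) ≠ 0 := by
      rw [pl_red (a := tr a) (fun i j => ha j i) hπ q1.h2 r1.h2 q1.h1,
        show (fun j => π (Q.1 j)) = z from funext q1.e1,
        show (fun j => π (Q.2 j)) = p.2 from funext q1.e2,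
        show (fun j => π (R.2 j)) = w from funext r1.e2]
      exact hw2
    exact hπ.ne h1
  have o1 : Ord a Q.1 P.2 := by rw [← q4]; exact q2
  have o2 : Ord a Q.1 (c • P.2) := by
    have := o1.smul (one_ne_zero : (1 : L) ≠ 0) hc
    rwa [one_smul] at this
  have o3 : Ord a Q.1 R.2 := by rw [← r4]; exact r2
  refine Cn.step 3 _ (Q.1, P.2) _ (Cn.step 2 _ (Q.1, R.2) _ (Cn.step 1 _ (Q.1, c • P.2) _
    (Cn.step 0 _ _ _ (Cn.refl 0 _) o2 ?_) o3 ?_) o1 ?_) hP ?_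
  · refine Or.inl ⟨rfl, ?_⟩
    have := pl_smul a b 1 c P.1 Q.1 P.2
    rw [one_smul] at this
    change pl a (c • P.2) (b • P.1) Q.1 ≠ 0
    rw [this]
    exact mul_ne_zero (mul_ne_zero (mul_ne_zero hb one_ne_zero) (pow_ne_zero _ hc)) m1
  · refine Or.inr ⟨rfl, ?_⟩
    have := pl_smul (tr a) c 1 1 P.2 R.2 Q.1
    rw [one_smul, one_smul] at this
    change pl (tr a) Q.1 (c • P.2) R.2 ≠ 0
    rw [this]
    rw [q4] at m2
    exact mul_ne_zero (mul_ne_zero (mul_ne_zero hc one_ne_zero) (pow_ne_zero _ one_ne_zero)) m2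
  · refine Or.inr ⟨rfl, ?_⟩
    change pl (tr a) Q.1 R.2 P.2 ≠ 0
    rw [pl_symm]
    rwa [q4] at m2
  · refine Or.inl ⟨rfl, ?_⟩
    change pl a P.2 Q.1 P.1 ≠ 0
    rw [pl_symm]
    exact m1

/-- primitive multiples -/
theorem prim (x : Fin 3 → L) (hx : x ≠ 0) : ∃ (b : L) (x₀ : Fin 3 → L), b ≠ 0 ∧ x = b • x₀ ∧
    (∀ i, ‖x₀ i‖ ≤ 1) ∧ ∃ i, x₀ i = 1 := by
  obtain ⟨m, hm⟩ := Finite.exists_max fun i => ‖x i‖
  have hm0 : x m ≠ 0 := by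
    intro h
    apply hx
    funext i
    have := hm i
    rw [h, norm_zero] at this
    exact norm_le_zero_iff.1 this
  refine ⟨x m, (x m)⁻¹ • x, hm0, ?_, fun i => ?_, m, ?_⟩
  · rw [smul_smul, mul_inv_cancel₀ hm0, one_smul]
  · rw [Pi.smul_apply, smul_eq_mul, norm_mul, norm_inv, inv_mul_eq_div]
    exact div_le_one_of_le₀ (hm i) (norm_nonneg _)
  · rw [Pi.smul_apply, smul_eq_mul, inv_mul_cancel₀ hm0]

/-- a point with ordinary reduction -/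
theorem start (hC : StmC1) (hL : StmLIFT) : StmFN → StmESC → ∃ q₀ : ℕ,
    ∀ (L k : Type) [NontriviallyNormedField L] [IsUltrametricDist L] [CompleteSpace L]
      [Field k] [Fintype k] (π : L → k), Res π → q₀ ≤ Fintype.card k →
      ∀ a : Fin 3 → Fin 3 → L, (∀ i j, ‖a i j‖ ≤ 1) → Gd (fun i j => π (a i j)) →
      ∀ P : (Fin 3 → L) × (Fin 3 → L), Ord a P.1 P.2 →
      ∃ (Q : (Fin 3 → L) × (Fin 3 → L)) (q : (Fin 3 → k) × (Fin 3 → k)), Ord a Q.1 Q.2 ∧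
        Rd π Q q ∧ Ord (fun i j => π (a i j)) q.1 q.2 ∧ Cn a 8 P Q := by
  rintro ⟨q1, hFN⟩ ⟨q2, hESC⟩
  refine ⟨max 31 (max q1 q2), ?_⟩
  intro L k _ _ _ _ _ π hπ hq a ha hg P hP
  have hq31 : 31 ≤ Fintype.card k := (le_max_left _ _).trans hq
  have hqq1 : q1 ≤ Fintype.card k := ((le_max_left _ _).trans (le_max_right _ _)).trans hq
  have hqq2 : q2 ≤ Fintype.card k := ((le_max_right _ _).trans (le_max_right _ _)).trans hq
  obtain ⟨b, x, hb, hbx, hx, i, hi⟩ := prim P.1 (ns_of_gd hP)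
  obtain ⟨c, y, hc, hcy, hy, j, hj⟩ := prim P.2 (ns_of_gd hP.tr)
  have hxy : Ord a x y := by
    have := hP.smul (inv_ne_zero hb) (inv_ne_zero hc)
    rw [hbx, hcy, smul_smul, smul_smul, inv_mul_cancel₀ hb, inv_mul_cancel₀ hc, one_smul,
      one_smul] at this
    exact this
  -- escape
  have step1 : ∃ x' y' : Fin 3 → L, (∀ i, ‖x' i‖ ≤ 1) ∧ (∀ i, ‖y' i‖ ≤ 1) ∧ Ord a x' y' ∧
      Cn a 2 (x, y) (x', y') ∧ Ns (fun i => π (x' i)) ∧ Ns (fun i => π (y' i)) := by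
    by_cases h1 : Ns (fun i => π (y i))
    · by_cases h2 : Ns (fun i => π (x i))
      · exact ⟨x, y, hx, hy, hxy, Cn.refl _ _, h2, h1⟩
      · obtain ⟨y', x', e1, e2, e3, e4, e5, e6⟩ := hESC L k π hπ hqq2 (tr a) (fun i j => ha j i)
          hg.tr y x hxy.tr hy hx ⟨j, by rw [hj, hπ.one]; exact one_ne_zero⟩
          ⟨i, by rw [hi, hπ.one]; exact one_ne_zero⟩ h2
        exact ⟨x', y', e2, e1, e3.tr, e4.tr, e6, e5⟩
    · obtain ⟨x', y', e1, e2, e3, e4, e5, e6⟩ := hESC L k π hπ hqq2 a ha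
        hg x y hxy hx hy ⟨i, by rw [hi, hπ.one]; exact one_ne_zero⟩
        ⟨j, by rw [hj, hπ.one]; exact one_ne_zero⟩ h1
      exact ⟨x', y', e1, e2, e3, e4, e5, e6⟩
  obtain ⟨x', y', e1, e2, e3, e4, e5, e6⟩ := step1
  have h0 : fm (fun i j => π (a i j)) (fun i => π (x' i)) (fun i => π (y' i)) = 0 := by
    rw [← fm_red ha hπ e1 e2, e3.on, hπ.zero]
  obtain ⟨q, hq1, hq2⟩ := hFN k hqq1 _ hg _ _ e5 e6 h0
  obtain ⟨Q, r1, r2, r3⟩ := liftC hL hπ ha hg hq1 (P := (x', y')) e3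
    ⟨e1, e2, fun _ => rfl, fun _ => rfl⟩
  refine ⟨Q, q, r2, r1, hq2, ?_⟩
  have c1 : Cn a 4 (x, y) Q := e4.trans r3
  have c2 := c1.smul hb hc
  have c3 := c2.trans (fix hC hL hq31 hπ ha hg r2 r1 hq2 hb hc)
  have : P = (b • x, c • y) := by rw [← hbx, ← hcy]
  rw [this]
  exact c3

end LOC

open LOC

theorem loc (hC : StmC1) (hL : StmLIFT) (hFN : StmFN) (hE : StmESC) (hF : StmFG)
    (hK : StmLINK) : StmLOC := by
  obtain ⟨q1, hst⟩ := start hC hL hFN hE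
  obtain ⟨q2, hFG⟩ := hF
  refine ⟨23, max q1 q2, ?_⟩
  intro L k _ _ _ _ _ π hπ hq a ha hg P P' hP hP'
  have hqq1 : q1 ≤ Fintype.card k := (le_max_left _ _).trans hq
  have hqq2 : q2 ≤ Fintype.card k := (le_max_right _ _).trans hq
  obtain ⟨Q, q, Q1, Q2, Q3, Q4⟩ := hst L k π hπ hqq1 a ha hg P hP
  obtain ⟨Q', q', Q1', Q2', Q3', Q4'⟩ := hst L k π hπ hqq1 a ha hg P' hP'
  obtain ⟨x1, y2, x1', y2', z, f1, f2, f3, f4, f1', f2', f3', f4', z0, z1, z1', z2, z2', z3, z4⟩ :=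
    hFG k hqq2 _ hg q.1 q.2 q'.1 q'.2 Q3 Q3'
  -- lifts
  obtain ⟨R, R1, R2, R3, R4⟩ := liftX hL hπ ha hg Q1 Q2 x1 f1 f2
  obtain ⟨S, S1, S2, S3, S4⟩ := liftY hL hπ ha hg R2 R1 y2 f3.on f4
  obtain ⟨R', R1', R2', R3', R4'⟩ := liftX hL hπ ha hg Q1' Q2' x1' f1' f2'
  obtain ⟨S', S1', S2', S3', S4'⟩ := liftY hL hπ ha hg R2' R1' y2' f3'.on f4'
  have eS1 : (fun i => π (S.1 i)) = x1 := funext S1.e1
  have eS2 : (fun i => π (S.2 i)) = y2 := funext S1.e2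
  have eS1' : (fun i => π (S'.1 i)) = x1' := funext S1'.e1
  have eS2' : (fun i => π (S'.2 i)) = y2' := funext S1'.e2
  obtain ⟨x, hx1, hx2, hx3, hx4⟩ := hK L k π hπ a ha hg S.2 S'.2 S1.h2 S1'.h2 z z0
    (by rw [eS2]; exact z1.on) (by rw [eS2']; exact z1'.on) (by
      obtain ⟨i, i', hi⟩ := z4
      refine ⟨i, i', ?_⟩
      rw [lf_red ha hπ S1.h2, lf_red ha hπ S1.h2, lf_red ha hπ S1'.h2, lf_red ha hπ S1'.h2,
        eS2, eS2']
      exact hi)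
  have eX : (fun i => π (x i)) = z := funext hx2
  have hxM : ∀ j, lf (tr a) x j ≠ 0 := by
    intro j
    apply hπ.ne
    rw [lf_red (a := tr a) (fun i j => ha j i) hπ hx1, eX]
    exact z1.hx j
  have o1 : Ord a x S.2 := ⟨hx3, hxM, S2.hy⟩
  have o2 : Ord a x S'.2 := ⟨hx4, hxM, S2'.hy⟩
  have m1 : pl a S.2 S.1 x ≠ 0 := by
    apply hπ.ne
    rw [pl_red ha hπ S1.h1 hx1 S1.h2, eS1, eS2, eX]
    exact z2
  have m2 : pl (tr a) x S.2 S'.2 ≠ 0 := by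
    apply hπ.ne
    rw [pl_red (a := tr a) (fun i j => ha j i) hπ S1.h2 S1'.h2 hx1, eS2, eS2', eX]
    exact z3
  have m3 : pl a S'.2 x S'.1 ≠ 0 := by
    rw [pl_symm]
    apply hπ.ne
    rw [pl_red ha hπ S1'.h1 hx1 S1'.h2, eS1', eS2', eX]
    exact z2'
  have c1 : Cn a 10 P S := (Q4.trans (Cn.one R2 R3)).trans (Cn.one S2 S3)
  have c1' : Cn a 10 P' S' := (Q4'.trans (Cn.one R2' R3')).trans (Cn.one S2' S3')
  have c2 : Cn a 3 S S' := Cn.step 2 _ (x, S'.2) _ (Cn.step 1 _ (x, S.2) _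
    (Cn.step 0 _ _ _ (Cn.refl 0 _) o1 (Or.inl ⟨rfl, m1⟩)) o2 (Or.inr ⟨rfl, m2⟩)) S2'
    (Or.inl ⟨rfl, m3⟩)
  exact (c1.trans c2).trans (c1'.symm hP')

end Pool.Agent.T6.H77.DW
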