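import Mathlib

/-!
# Diagonal hypersurfaces of bidegree (2, 2): definitions (helper77)
-/

set_option autoImplicit false

namespace Pool.Agent.T6.H77.DW

/-- `L_i(y) = ∑ j, a_ij y_j²` -/
def lf {k : Type} [Field k] (a : Fin 3 → Fin 3 → k) (y : Fin 3 → k) (i : Fin 3) : k :=
  ∑ j, a i j * y j ^ 2

/-- `F(x, y) = ∑ i, L_i(y) x_i² = ∑ i, ∑ j, a_ij x_i² y_j²` -/
def fm {k : Type} [Field k] (a : Fin 3 → Fin 3 → k) (x y : Fin 3 → k) : k :=
  ∑ i, lf a y i * x i ^ 2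

/-- the transposed matrix -/
def tr {k : Type} (a : Fin 3 → Fin 3 → k) : Fin 3 → Fin 3 → k := fun i j => a j i

/-- the bilinear form of the quadratic form `F(·, y)` -/
def pl {k : Type} [Field k] (a : Fin 3 → Fin 3 → k) (y x x' : Fin 3 → k) : k :=
  ∑ i, lf a y i * x i * x' i

/-- Good matrices: `2`, the entries, the `2 × 2` minors and the determinant are not zero. -/
structure Gd {k : Type} [Field k] (a : Fin 3 → Fin 3 → k) : Prop where
  two : (2 : k) ≠ 0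
  ent : ∀ i j, a i j ≠ 0
  min : ∀ i i' j j', i ≠ i' → j ≠ j' → a i j * a i' j' ≠ a i j' * a i' j
  det : (Matrix.of a).det ≠ 0

/-- Ordinary points: `F(x, y) = 0` and both conics through the point are smooth. -/
structure Ord {k : Type} [Field k] (a : Fin 3 → Fin 3 → k) (x y : Fin 3 → k) : Prop where
  on : fm a x y = 0
  hx : ∀ j, lf (tr a) x j ≠ 0
  hy : ∀ i, lf a y i ≠ 0

/-- at least two coordinates are not zero -/
def Ns {k : Type} [Field k] (x : Fin 3 → k) : Prop := ∃ i j, i ≠ j ∧ x i ≠ 0 ∧ x j ≠ 0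

/-- a move along one of the two conics through the point `p` -/
def Mv {k : Type} [Field k] (a : Fin 3 → Fin 3 → k) (p q : (Fin 3 → k) × (Fin 3 → k)) : Prop :=
  (p.2 = q.2 ∧ pl a p.2 p.1 q.1 ≠ 0) ∨ (p.1 = q.1 ∧ pl (tr a) p.1 p.2 q.2 ≠ 0)

/-- at most `n` moves through points of `F = 0` -/
inductive Ch {k : Type} [Field k] (a : Fin 3 → Fin 3 → k) :
    ℕ → (Fin 3 → k) × (Fin 3 → k) → (Fin 3 → k) × (Fin 3 → k) → Prop
  | refl (n : ℕ) (p : (Fin 3 → k) × (Fin 3 → k)) : Ch a n p p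
  | step (n : ℕ) (p q r : (Fin 3 → k) × (Fin 3 → k)) (h : Ch a n p q) (hr : fm a r.1 r.2 = 0)
      (hm : Mv a q r) : Ch a (n + 1) p r

/-- at most `n` moves through ordinary points -/
inductive Cn {k : Type} [Field k] (a : Fin 3 → Fin 3 → k) :
    ℕ → (Fin 3 → k) × (Fin 3 → k) → (Fin 3 → k) × (Fin 3 → k) → Prop
  | refl (n : ℕ) (p : (Fin 3 → k) × (Fin 3 → k)) : Cn a n p p
  | step (n : ℕ) (p q r : (Fin 3 → k) × (Fin 3 → k)) (h : Cn a n p q) (hr : Ord a r.1 r.2)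
      (hm : Mv a q r) : Cn a (n + 1) p r

/-- `k` is the residue field of the ultrametric field `L`, with the reduction map `π` (only its
values on the unit ball matter). -/
structure Res {L k : Type} [NormedField L] [Field k] (π : L → k) : Prop where
  one : π 1 = 1
  add : ∀ x y, ‖x‖ ≤ 1 → ‖y‖ ≤ 1 → π (x + y) = π x + π y
  mul : ∀ x y, ‖x‖ ≤ 1 → ‖y‖ ≤ 1 → π (x * y) = π x * π y
  ker : ∀ x, ‖x‖ ≤ 1 → (π x = 0 ↔ ‖x‖ < 1)
  surj : ∀ c : k, ∃ x, ‖x‖ ≤ 1 ∧ π x = c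

end Pool.Agent.T6.H77.DW
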