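import Pool.Agent.T6.H77.DW.MAIN

/-!
# Weak weak approximation for diagonal hypersurfaces of bidegree (2, 2): final form (helper77)
-/

set_option autoImplicit false

open Filter Topology

namespace Pool.Agent.T6.H77.DW

/-- `X(K)` in the product of the `L v` -/
def XK {K ι : Type} [Field K] {L : ι → Type} [∀ v, Field (L v)] (σ : ∀ v, K →+* L v)
    (a : Fin 3 → Fin 3 → K) : Set (∀ v, (Fin 3 → L v) × (Fin 3 → L v)) :=
  {S | ∃ x y : Fin 3 → K, x ≠ 0 ∧ y ≠ 0 ∧ fm a x y = 0 ∧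
    S = fun v => (fun i => σ v (x i), fun i => σ v (y i))}

theorem xk_sub {K ι : Type} [Field K] {L : ι → Type} [∀ v, Field (L v)] (σ : ∀ v, K →+* L v)
    (a : Fin 3 → Fin 3 → K) : XK σ a ⊆ KP σ a := by
  rintro S ⟨x, y, -, -, h, rfl⟩
  exact ⟨x, y, h, rfl⟩

theorem mem_xk {K ι : Type} [Field K] {L : ι → Type} [∀ v, NontriviallyNormedField (L v)]
    (σ : ∀ v, K →+* L v) (a : Fin 3 → Fin 3 → K) (S : ∀ v, (Fin 3 → L v) × (Fin 3 → L v))
    (w : ι) (h1 : (S w).1 ≠ 0) (h2 : (S w).2 ≠ 0) (h : S ∈ closure (KP σ a)) :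
    S ∈ closure (XK σ a) := by
  have hO : IsOpen {S : ∀ v, (Fin 3 → L v) × (Fin 3 → L v) | (S w).1 ≠ 0 ∧ (S w).2 ≠ 0} := by
    refine IsOpen.inter ?_ ?_
    · exact isOpen_ne.preimage (continuous_fst.comp (continuous_apply w))
    · exact isOpen_ne.preimage (continuous_snd.comp (continuous_apply w))
  rw [mem_closure_iff] at h ⊢
  intro o ho hSo
  obtain ⟨R, ⟨hR1, hR2, hR3⟩, x, y, hxy, rfl⟩ := h _ (ho.inter hO) ⟨hSo, h1, h2⟩
  refine ⟨_, hR1, x, y, ?_, ?_, hxy, rfl⟩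
  · rintro rfl
    exact hR2 (funext fun i => by simp)
  · rintro rfl
    exact hR3 (funext fun i => by simp)

theorem fin (hLOC : StmLOC) (hDEN : StmDEN) (hCLO : StmCLO) (hENT : StmENT) :
    ∃ q₀ : ℕ, ∀ (K ι : Type) [Field K] (L k : ι → Type) [∀ v, NontriviallyNormedField (L v)]
      [∀ v, Field (k v)] [∀ v, Fintype (k v)] (σ : ∀ v, K →+* L v) (π : ∀ v, L v → k v)
      (a : Fin 3 → Fin 3 → K), (DenseRange fun (b : K) (v : ι) => σ v b) →
      (∀ G : Set ι, (∀ v ∈ G, GoodPlace q₀ (π v) fun i j => σ v (a i j)) →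
        ∀ T ∈ closure (XK σ a), (∀ v, Ord (fun i j => σ v (a i j)) (T v).1 (T v).2) →
        ∀ S : ∀ v, (Fin 3 → L v) × (Fin 3 → L v), (∀ v ∉ G, S v = T v) →
        (∀ v ∈ G, Pt (fun i j => σ v (a i j)) (S v)) → S ∈ closure (XK σ a)) ∧
      ((∀ v, GoodPlace q₀ (π v) fun i j => σ v (a i j)) →
        ∀ x y : Fin 3 → K, Ns x → Ns y → fm a x y = 0 →
        ∀ S : ∀ v, (Fin 3 → L v) × (Fin 3 → L v),
        (∀ v, Pt (fun i j => σ v (a i j)) (S v)) → S ∈ closure (XK σ a)) := by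
  obtain ⟨q₀, hm⟩ := main hLOC hDEN hCLO
  refine ⟨q₀, ?_⟩
  intro K ι _ L k _ _ _ σ π a hσ
  refine ⟨?_, ?_⟩
  · intro G hG T hT hTo S hSG hS
    by_cases hne : G.Nonempty
    · obtain ⟨w, hw⟩ := hne
      exact mem_xk σ a S w (hS w hw).1 (hS w hw).2.1
        (hm K ι L k σ π hσ a G hG T (closure_mono (xk_sub σ a) hT) hTo S hSG hS)
    · have : S = T := funext fun v => hSG v fun hv => hne ⟨v, hv⟩
      rw [this]
      exact hT
  · intro hG x y hx hy hxy S hS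
    rcases isEmpty_or_nonempty ι with hι | ⟨⟨w⟩⟩
    · obtain ⟨i, -, -, hi, -⟩ := hx
      obtain ⟨j, -, -, hj, -⟩ := hy
      exact subset_closure ⟨x, y, fun h => hi (by rw [h]; rfl), fun h => hj (by rw [h]; rfl),
        hxy, Subsingleton.elim _ _⟩
    · refine mem_xk σ a S w (hS w).1 (hS w).2.1 ?_
      refine dense_of_main hENT σ π hσ a hG ?_ x y hx hy hxy S hS
      intro T hT hTo S hS
      exact hm K ι L k σ π hσ a Set.univ (fun v _ => hG v) T hT hTo S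
        (fun v hv => absurd (Set.mem_univ v) hv) (fun v _ => hS v)

end Pool.Agent.T6.H77.DW
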