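import Pool.Agent.T6.H77.DW.LOC

/-!
# Weak weak approximation for diagonal hypersurfaces of bidegree (2, 2): assembly (helper77)
-/

set_option autoImplicit false

open Filter Topology

namespace Pool.Agent.T6.H77.DW

/-- the `K`-points of `F(x, y) = 0` in the product of the `L v` -/
def KP {K ι : Type} [Field K] {L : ι → Type} [∀ v, Field (L v)] (σ : ∀ v, K →+* L v)
    (a : Fin 3 → Fin 3 → K) : Set (∀ v, (Fin 3 → L v) × (Fin 3 → L v)) :=
  {S | ∃ x y : Fin 3 → K, fm a x y = 0 ∧ S = fun v => (fun i => σ v (x i), fun i => σ v (y i))}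

/-- the points of `F(x, y) = 0` with `x ≠ 0`, `y ≠ 0` -/
def Pt {k : Type} [Field k] (a : Fin 3 → Fin 3 → k) (S : (Fin 3 → k) × (Fin 3 → k)) : Prop :=
  S.1 ≠ 0 ∧ S.2 ≠ 0 ∧ fm a S.1 S.2 = 0

/-- Good places: `L` is a complete ultrametric field with residue field `k` (via `π`) with at least
`q₀` elements, the entries of `a` are integral, and `2`, the entries, the `2 × 2` minors and the
determinant of `a` are units. -/
structure GoodPlace (q₀ : ℕ) {L k : Type} [NontriviallyNormedField L] [Field k] [Fintype k]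
    (π : L → k) (a : Fin 3 → Fin 3 → L) : Prop where
  um : IsUltrametricDist L
  cs : CompleteSpace L
  res : Res π
  card : q₀ ≤ Fintype.card k
  int : ∀ i j, ‖a i j‖ ≤ 1
  gd : Gd (fun i j => π (a i j))

section

variable {L k : Type} [NontriviallyNormedField L] [Field k] [Fintype k] {π : L → k}
  {a : Fin 3 → Fin 3 → L} {q₀ : ℕ}

theorem GoodPlace.norm_two (h : GoodPlace q₀ π a) : ‖(2 : L)‖ = 1 := by
  haveI := h.um
  have h1 : ‖(1 : L)‖ ≤ 1 := by simp
  have h2 : (2 : L) = 1 + 1 := by norm_num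
  have h3 : ‖(2 : L)‖ ≤ 1 := by
    rw [h2]
    exact (IsUltrametricDist.norm_add_le_max _ _).trans (max_le h1 h1)
  have h4 : π 2 = 2 := by
    rw [h2, h.res.add _ _ h1 h1, h.res.one]; norm_num
  refine le_antisymm h3 (not_lt.1 fun h5 => ?_)
  exact h.gd.two (by rw [← h4]; exact (h.res.ker _ h3).2 h5)

theorem GoodPlace.gdL (h : GoodPlace q₀ π a) : Gd a := by
  haveI := h.um
  have hz : π 0 = 0 := h.res.zero
  have hi := h.int
  have hm : ∀ x y : L, ‖x‖ ≤ 1 → ‖y‖ ≤ 1 → ‖x * y‖ ≤ 1 := fun x y hx hy => mul_le1 hx hy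
  have hadd : ∀ x y : L, ‖x‖ ≤ 1 → ‖y‖ ≤ 1 → ‖x + y‖ ≤ 1 := fun x y hx hy =>
    (IsUltrametricDist.norm_add_le_max _ _).trans (max_le hx hy)
  have hneg : ∀ x : L, ‖x‖ ≤ 1 → π (-x) = -π x := by
    intro x hx
    have h1 := h.res.add x (-x) hx (by rwa [norm_neg])
    rw [add_neg_cancel, hz] at h1
    exact (neg_eq_of_add_eq_zero_right h1.symm).symm
  refine ⟨fun h2 => ?_, fun i j h0 => h.gd.ent i j ?_, fun i i' j j' hii hjj h0 =>
    h.gd.min i i' j j' hii hjj ?_, fun h0 => h.gd.det ?_⟩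
  · have := h.norm_two
    rw [h2, norm_zero] at this
    exact zero_ne_one this
  · change π (a i j) = 0
    rw [h0, hz]
  · change π (a i j) * π (a i' j') = π (a i j') * π (a i' j)
    rw [← h.res.mul _ _ (hi _ _) (hi _ _), h0, h.res.mul _ _ (hi _ _) (hi _ _)]
  · rw [Matrix.det_fin_three] at h0 ⊢
    simp only [Matrix.of_apply] at h0 ⊢
    have e := congrArg π h0
    rw [hz] at e
    simp only [sub_eq_add_neg] at e ⊢
    have n3 : ∀ x y z : L, ‖x‖ ≤ 1 → ‖y‖ ≤ 1 → ‖z‖ ≤ 1 → ‖x * y * z‖ ≤ 1 := fun x y z hx hy hz =>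
      hm _ _ (hm _ _ hx hy) hz
    have m3 : ∀ x y z : L, ‖x‖ ≤ 1 → ‖y‖ ≤ 1 → ‖z‖ ≤ 1 → π (x * y * z) = π x * π y * π z :=
      fun x y z hx hy hz => by rw [h.res.mul _ _ (hm _ _ hx hy) hz, h.res.mul _ _ hx hy]
    have nn : ∀ x : L, ‖x‖ ≤ 1 → ‖-x‖ ≤ 1 := fun x hx => by rwa [norm_neg]
    have k1 := n3 _ _ _ (hi 0 0) (hi 1 1) (hi 2 2)
    have k2 := n3 _ _ _ (hi 0 0) (hi 1 2) (hi 2 1)
    have k3 := n3 _ _ _ (hi 0 1) (hi 1 0) (hi 2 2)
    have k4 := n3 _ _ _ (hi 0 1) (hi 1 2) (hi 2 0)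
    have k5 := n3 _ _ _ (hi 0 2) (hi 1 0) (hi 2 1)
    have k6 := n3 _ _ _ (hi 0 2) (hi 1 1) (hi 2 0)
    rw [h.res.add _ _ (hadd _ _ (hadd _ _ (hadd _ _ (hadd _ _ k1 (nn _ k2)) (nn _ k3)) k4) k5)
        (nn _ k6),
      h.res.add _ _ (hadd _ _ (hadd _ _ (hadd _ _ k1 (nn _ k2)) (nn _ k3)) k4) k5,
      h.res.add _ _ (hadd _ _ (hadd _ _ k1 (nn _ k2)) (nn _ k3)) k4,
      h.res.add _ _ (hadd _ _ k1 (nn _ k2)) (nn _ k3),
      h.res.add _ _ k1 (nn _ k2), hneg _ k2, hneg _ k3, hneg _ k6,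
      m3 _ _ _ (hi 0 0) (hi 1 1) (hi 2 2), m3 _ _ _ (hi 0 0) (hi 1 2) (hi 2 1),
      m3 _ _ _ (hi 0 1) (hi 1 0) (hi 2 2), m3 _ _ _ (hi 0 1) (hi 1 2) (hi 2 0),
      m3 _ _ _ (hi 0 2) (hi 1 0) (hi 2 1), m3 _ _ _ (hi 0 2) (hi 1 1) (hi 2 0)] at e
    exact e

end

theorem gd_of_map {K L : Type} [Field K] [Field L] (σ : K →+* L) {a : Fin 3 → Fin 3 → K}
    (h : Gd (fun i j => σ (a i j))) : Gd a := by
  refine ⟨fun h2 => h.two ?_, fun i j h0 => h.ent i j ?_, fun i i' j j' hii hjj h0 =>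
    h.min i i' j j' hii hjj ?_, fun h0 => h.det ?_⟩
  · rw [← map_ofNat σ 2, h2, map_zero]
  · change σ (a i j) = 0
    rw [h0, map_zero]
  · change σ (a i j) * σ (a i' j') = σ (a i j') * σ (a i' j)
    rw [← map_mul, h0, map_mul]
  · rw [Matrix.det_fin_three] at h0 ⊢
    simp only [Matrix.of_apply] at h0 ⊢
    have e := congrArg σ h0
    simpa only [map_add, map_sub, map_mul, map_zero] using e

theorem lf_map {K L : Type} [Field K] [Field L] (σ : K →+* L) (a : Fin 3 → Fin 3 → K)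
    (y : Fin 3 → K) (i : Fin 3) : σ (lf a y i) = lf (fun i j => σ (a i j)) (fun j => σ (y j)) i := by
  simp only [lf, map_sum, map_mul, map_pow]

theorem fm_map {K L : Type} [Field K] [Field L] (σ : K →+* L) (a : Fin 3 → Fin 3 → K)
    (x y : Fin 3 → K) :
    σ (fm a x y) = fm (fun i j => σ (a i j)) (fun j => σ (x j)) (fun j => σ (y j)) := by
  simp only [fm, map_sum, map_mul, map_pow, lf_map]

theorem ord_map {K L : Type} [Field K] [Field L] (σ : K →+* L) {a : Fin 3 → Fin 3 → K}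
    {x y : Fin 3 → K} (h : Ord a x y) :
    Ord (fun i j => σ (a i j)) (fun j => σ (x j)) (fun j => σ (y j)) := by
  refine ⟨by rw [← fm_map, h.on, map_zero], fun j => ?_, fun i => ?_⟩
  · change lf (fun i j => σ (tr a i j)) _ j ≠ 0
    rw [← lf_map, map_ne_zero]
    exact h.hx j
  · rw [← lf_map, map_ne_zero]
    exact h.hy i

theorem main (hLOC : StmLOC) (hDEN : StmDEN) (hCLO : StmCLO) : ∃ q₀ : ℕ,
    ∀ (K ι : Type) [Field K] (L k : ι → Type) [∀ v, NontriviallyNormedField (L v)]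
      [∀ v, Field (k v)] [∀ v, Fintype (k v)] (σ : ∀ v, K →+* L v) (π : ∀ v, L v → k v)
      (_ : DenseRange fun (b : K) (v : ι) => σ v b) (a : Fin 3 → Fin 3 → K) (G : Set ι)
      (_ : ∀ v ∈ G, GoodPlace q₀ (π v) (fun i j => σ v (a i j))),
      ∀ T ∈ closure (KP σ a), (∀ v, Ord (fun i j => σ v (a i j)) (T v).1 (T v).2) →
      ∀ S : ∀ v, (Fin 3 → L v) × (Fin 3 → L v), (∀ v ∉ G, S v = T v) →
        (∀ v ∈ G, Pt (fun i j => σ v (a i j)) (S v)) → S ∈ closure (KP σ a) := by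
  classical
  obtain ⟨N, q₀, hloc⟩ := hLOC
  refine ⟨q₀, ?_⟩
  intro K ι _ L k _ _ _ σ π hσ a G hG T hT hTo S hSG hS
  by_cases hne : G.Nonempty
  swap
  · rw [Set.not_nonempty_iff_eq_empty] at hne
    have : S = T := funext fun v => hSG v (by rw [hne]; exact Set.notMem_empty v)
    rw [this]
    exact hT
  have h2 : ∀ v, (2 : L v) ≠ 0 := by
    obtain ⟨w, hw⟩ := hne
    have h2K : (2 : K) ≠ 0 := (gd_of_map (σ w) (hG w hw).gdL).two
    intro v
    rw [← map_ofNat (σ v) 2]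
    exact (map_ne_zero (σ v)).2 h2K
  -- ordinary approximations
  have happ : ∀ (n : ℕ) (v : ι), ∃ R : (Fin 3 → L v) × (Fin 3 → L v),
      (v ∉ G → R = T v) ∧ (v ∈ G → Ord (fun i j => σ v (a i j)) R.1 R.2 ∧
        ∀ i, ‖R.1 i - (S v).1 i‖ < 1 / (n + 1) ∧ ‖R.2 i - (S v).2 i‖ < 1 / (n + 1)) := by
    intro n v
    by_cases hv : v ∈ G
    · haveI := (hG v hv).um
      haveI := (hG v hv).cs
      obtain ⟨s1, s2, s3⟩ := hS v hv
      obtain ⟨x', y', h1, h3⟩ := hDEN (L v) (hG v hv).norm_two _ (hG v hv).gdL _ _ s1 s2 s3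
        (1 / (n + 1)) (by positivity)
      exact ⟨(x', y'), fun h => absurd hv h, fun _ => ⟨h1, h3⟩⟩
    · exact ⟨T v, fun _ => rfl, fun h => absurd h hv⟩
  choose R hR1 hR2 using happ
  have hRcl : ∀ n, (fun v => R n v) ∈ closure (KP σ a) := by
    intro n
    refine hCLO K ι L σ hσ a N T (fun v => R n v) h2 hTo (fun v => ?_) hT
    by_cases hv : v ∈ G
    · haveI := (hG v hv).um
      haveI := (hG v hv).cs
      exact hloc (L v) (k v) (π v) (hG v hv).res (hG v hv).card _ (hG v hv).int (hG v hv).gd _ _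
        (hTo v) (hR2 n v hv).1
    · rw [hR1 n v hv]
      exact Cn.refl _ _
  have hlim : Tendsto (fun n v => R n v) atTop (𝓝 S) := by
    rw [tendsto_pi_nhds]
    intro v
    by_cases hv : v ∈ G
    · have hb : ∀ f g : ℕ → Fin 3 → L v, True := fun _ _ => trivial
      have key : ∀ (f : ℕ → Fin 3 → L v) (s : Fin 3 → L v),
          (∀ n i, ‖f n i - s i‖ < 1 / ((n : ℝ) + 1)) → Tendsto f atTop (𝓝 s) := by
        intro f s hf
        rw [tendsto_pi_nhds]
        intro i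
        rw [tendsto_iff_norm_sub_tendsto_zero]
        exact squeeze_zero (fun n => norm_nonneg _) (fun n => (hf n i).le)
          tendsto_one_div_add_atTop_nhds_zero_nat
      exact (key _ _ fun n i => ((hR2 n v hv).2 i).1).prodMk_nhds
        (key _ _ fun n i => ((hR2 n v hv).2 i).2)
    · have : (fun n => R n v) = fun _ => S v := funext fun n => by
        rw [hR1 n v hv, hSG v hv]
      rw [this]
      exact tendsto_const_nhds
  have := mem_closure_of_tendsto hlim (Eventually.of_forall hRcl)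
  rwa [closure_closure] at this

/-- the density of the `K`-points -/
theorem dense_of_main (hENT : StmENT) {q₀ : ℕ} {K ι : Type} [Field K] {L k : ι → Type}
    [∀ v, NontriviallyNormedField (L v)] [∀ v, Field (k v)] [∀ v, Fintype (k v)]
    (σ : ∀ v, K →+* L v) (π : ∀ v, L v → k v) (hσ : DenseRange fun (b : K) (v : ι) => σ v b)
    (a : Fin 3 → Fin 3 → K) (hG : ∀ v, GoodPlace q₀ (π v) (fun i j => σ v (a i j)))
    (hmain : ∀ T ∈ closure (KP σ a), (∀ v, Ord (fun i j => σ v (a i j)) (T v).1 (T v).2) →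
      ∀ S : ∀ v, (Fin 3 → L v) × (Fin 3 → L v),
        (∀ v, Pt (fun i j => σ v (a i j)) (S v)) → S ∈ closure (KP σ a))
    (x y : Fin 3 → K) (hx : Ns x) (hy : Ns y) (hxy : fm a x y = 0)
    (S : ∀ v, (Fin 3 → L v) × (Fin 3 → L v))
    (hS : ∀ v, Pt (fun i j => σ v (a i j)) (S v)) : S ∈ closure (KP σ a) := by
  rcases isEmpty_or_nonempty ι with hι | ⟨⟨w⟩⟩
  · exact subset_closure ⟨x, y, hxy, Subsingleton.elim _ _⟩
  have hK : Infinite K := by
    have hs : Dense (Set.range (σ w)) := by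
      have h : Function.Surjective fun x : ∀ v, L v => x w := by
        classical
        exact fun x => ⟨Pi.single w x, by simp⟩
      exact h.denseRange.comp hσ (continuous_apply w)
    by_contra hf
    rw [not_infinite_iff_finite] at hf
    have h1 : (Set.range (σ w)).Finite := Set.finite_range _
    have h2 : Set.range (σ w) = Set.univ := by
      rw [← h1.isClosed.closure_eq]
      exact hs.closure_eq
    rw [h2, Set.finite_univ_iff] at h1
    exact (NontriviallyNormedField.infinite (L w)).not_finite h1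
  have hgd : Gd a := gd_of_map (σ w) (hG w).gdL
  obtain ⟨x', y', h⟩ := hENT K a hgd x y hx hy hxy
  exact hmain _ (subset_closure ⟨x', y', h.on, rfl⟩) (fun v => ord_map (σ v) h) S hS

end Pool.Agent.T6.H77.DW
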