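import Pool.Agent.T6.H77.DW.Stm

/-!
# Reduction of the forms, chains of moves (helper77)
-/

set_option autoImplicit false

namespace Pool.Agent.T6.H77.DW

section alg

variable {k : Type} [Field k] (a : Fin 3 → Fin 3 → k)

theorem tr_tr : tr (tr a) = a := rfl

theorem fm_tr (x y : Fin 3 → k) : fm (tr a) y x = fm a x y := by
  simp only [fm, lf, tr, Fin.sum_univ_three]; ring

theorem pl_symm (y x x' : Fin 3 → k) : pl a y x x' = pl a y x' x := by
  simp only [pl, Fin.sum_univ_three]; ring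

theorem Ord.tr {a : Fin 3 → Fin 3 → k} {x y : Fin 3 → k} (h : Ord a x y) :
    Ord (DW.tr a) y x := ⟨by rw [fm_tr]; exact h.on, h.hy, h.hx⟩

theorem Gd.tr {a : Fin 3 → Fin 3 → k} (h : Gd a) : Gd (DW.tr a) := by
  refine ⟨h.two, fun i j => h.ent j i, fun i i' j j' hi hj => ?_, ?_⟩
  · have := h.min j j' i i' hj hi
    unfold DW.tr
    intro e
    apply this
    rw [e]; ring
  · have : Matrix.of (DW.tr a) = (Matrix.of a).transpose := by
      ext i j; rfl
    rw [this, Matrix.det_transpose]; exact h.det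

theorem Mv.tr {a : Fin 3 → Fin 3 → k} {p q : (Fin 3 → k) × (Fin 3 → k)} (h : Mv a p q) :
    Mv (DW.tr a) p.swap q.swap := by
  rcases h with h | h
  · exact Or.inr ⟨h.1, h.2⟩
  · exact Or.inl ⟨h.1, h.2⟩

theorem Mv.symm {a : Fin 3 → Fin 3 → k} {p q : (Fin 3 → k) × (Fin 3 → k)} (h : Mv a p q) :
    Mv a q p := by
  rcases h with h | h
  · exact Or.inl ⟨h.1.symm, by rw [← h.1, pl_symm]; exact h.2⟩
  · exact Or.inr ⟨h.1.symm, by rw [← h.1, pl_symm]; exact h.2⟩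

theorem Cn.tr {a : Fin 3 → Fin 3 → k} {n : ℕ} {p q : (Fin 3 → k) × (Fin 3 → k)}
    (h : Cn a n p q) : Cn (DW.tr a) n p.swap q.swap := by
  induction h with
  | refl n p => exact Cn.refl _ _
  | step n p q r _ hr hm ih => exact Cn.step _ _ _ _ ih hr.tr hm.tr

theorem Ch.tr {a : Fin 3 → Fin 3 → k} {n : ℕ} {p q : (Fin 3 → k) × (Fin 3 → k)}
    (h : Ch a n p q) : Ch (DW.tr a) n p.swap q.swap := by
  induction h with
  | refl n p => exact Ch.refl _ _
  | step n p q r _ hr hm ih => exact Ch.step _ _ _ _ ih (by rw [← hr]; exact fm_tr a _ _) hm.tr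

theorem Cn.mono {a : Fin 3 → Fin 3 → k} {n : ℕ} {p q : (Fin 3 → k) × (Fin 3 → k)}
    (h : Cn a n p q) : ∀ {m : ℕ}, n ≤ m → Cn a m p q := by
  induction h with
  | refl n p => exact fun _ => Cn.refl _ _
  | step n p q r _ hr hm ih =>
    intro m hnm
    obtain ⟨m, rfl⟩ : ∃ m', m = m' + 1 := ⟨m - 1, by omega⟩
    exact Cn.step _ _ _ _ (ih (by omega)) hr hm

theorem Cn.trans {a : Fin 3 → Fin 3 → k} {m n : ℕ} {p q r : (Fin 3 → k) × (Fin 3 → k)}
    (h : Cn a m p q) (h' : Cn a n q r) : Cn a (m + n) p r := by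
  induction h' with
  | refl n q => exact h.mono (by omega)
  | step n q s r _ hr hm ih => exact Cn.step _ _ _ _ (ih h) hr hm

theorem Cn.one {a : Fin 3 → Fin 3 → k} {p q : (Fin 3 → k) × (Fin 3 → k)} (hq : Ord a q.1 q.2)
    (h : Mv a p q) : Cn a 1 p q := Cn.step 0 _ _ _ (Cn.refl 0 p) hq h

theorem Cn.symm {a : Fin 3 → Fin 3 → k} {n : ℕ} {p q : (Fin 3 → k) × (Fin 3 → k)}
    (h : Cn a n p q) (hp : Ord a p.1 p.2) : Cn a n q p := by
  induction h with
  | refl n p => exact Cn.refl _ _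
  | step n p q r h hr hm ih =>
    have hq : Ord a q.1 q.2 := by
      cases h with
      | refl => exact hp
      | step _ _ _ _ _ hr' _ => exact hr'
    have := (Cn.one hq hm.symm).trans (ih hp)
    rwa [Nat.add_comm] at this

theorem Cn.ord {a : Fin 3 → Fin 3 → k} {n : ℕ} {p q : (Fin 3 → k) × (Fin 3 → k)}
    (h : Cn a n p q) (hp : Ord a p.1 p.2) : Ord a q.1 q.2 := by
  cases h with
  | refl => exact hp
  | step _ _ _ _ _ hr' _ => exact hr'

theorem lf_smul (c : k) (y : Fin 3 → k) (i : Fin 3) : lf a (c • y) i = c ^ 2 * lf a y i := by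
  simp only [lf, Pi.smul_apply, smul_eq_mul, Finset.mul_sum]
  exact Finset.sum_congr rfl fun j _ => by ring

theorem fm_smul (b c : k) (x y : Fin 3 → k) : fm a (b • x) (c • y) = (b * c) ^ 2 * fm a x y := by
  simp only [fm, lf_smul, Pi.smul_apply, smul_eq_mul, Finset.mul_sum]
  exact Finset.sum_congr rfl fun j _ => by ring

theorem pl_smul (b b' c : k) (x x' y : Fin 3 → k) :
    pl a (c • y) (b • x) (b' • x') = (b * b' * c ^ 2) * pl a y x x' := by
  simp only [pl, lf_smul, Pi.smul_apply, smul_eq_mul, Finset.mul_sum]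
  exact Finset.sum_congr rfl fun j _ => by ring

theorem Ord.smul {a : Fin 3 → Fin 3 → k} {x y : Fin 3 → k} (h : Ord a x y) {b c : k}
    (hb : b ≠ 0) (hc : c ≠ 0) : Ord a (b • x) (c • y) := by
  refine ⟨by rw [fm_smul, h.on, mul_zero], fun j => ?_, fun i => ?_⟩
  · rw [lf_smul]; exact mul_ne_zero (pow_ne_zero _ hb) (h.hx j)
  · rw [lf_smul]; exact mul_ne_zero (pow_ne_zero _ hc) (h.hy i)

theorem Mv.smul {a : Fin 3 → Fin 3 → k} {p q : (Fin 3 → k) × (Fin 3 → k)} (h : Mv a p q)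
    {b c : k} (hb : b ≠ 0) (hc : c ≠ 0) : Mv a (b • p.1, c • p.2) (b • q.1, c • q.2) := by
  rcases h with h | h
  · refine Or.inl ⟨by rw [h.1], ?_⟩
    change pl a (c • p.2) (b • p.1) (b • q.1) ≠ 0
    rw [pl_smul]
    exact mul_ne_zero (mul_ne_zero (mul_ne_zero hb hb) (pow_ne_zero _ hc)) h.2
  · refine Or.inr ⟨by rw [h.1], ?_⟩
    change pl (DW.tr a) (b • p.1) (c • p.2) (c • q.2) ≠ 0
    rw [pl_smul]
    exact mul_ne_zero (mul_ne_zero (mul_ne_zero hc hc) (pow_ne_zero _ hb)) h.2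

theorem Cn.smul {a : Fin 3 → Fin 3 → k} {n : ℕ} {p q : (Fin 3 → k) × (Fin 3 → k)}
    (h : Cn a n p q) {b c : k} (hb : b ≠ 0) (hc : c ≠ 0) :
    Cn a n (b • p.1, c • p.2) (b • q.1, c • q.2) := by
  induction h with
  | refl n p => exact Cn.refl _ _
  | step n p q r _ hr hm ih => exact Cn.step _ _ _ _ ih (hr.smul hb hc) (hm.smul hb hc)

/-- both components of an ordinary point are non-special -/
theorem Ord.ns_left {a : Fin 3 → Fin 3 → k} {x y : Fin 3 → k} (h : Ord a x y) : Ns x := by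
  by_contra hn
  unfold Ns at hn
  push Not at hn
  have h0 := h.on
  have hx0 : x ≠ 0 := by
    rintro rfl
    exact h.hx 0 (by simp [lf])
  obtain ⟨i, hi⟩ : ∃ i, x i ≠ 0 := by
    by_contra hc
    push Not at hc
    exact hx0 (funext hc)
  have hj : ∀ j, j ≠ i → x j = 0 := fun j hj => hn i j (Ne.symm hj) hi
  rw [fm, Finset.sum_eq_single i (fun j _ hji => by rw [hj j hji]; ring)
    (fun hi' => absurd (Finset.mem_univ i) hi')] at h0
  exact mul_ne_zero (h.hy i) (pow_ne_zero _ hi) h0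

theorem Ord.ns_right {a : Fin 3 → Fin 3 → k} {x y : Fin 3 → k} (h : Ord a x y) : Ns y :=
  h.tr.ns_left

end alg

section red

variable {L k : Type} [NontriviallyNormedField L] [IsUltrametricDist L] [Field k] {π : L → k}

theorem Res.zero (h : Res π) : π 0 = 0 := (h.ker 0 (by simp)).2 (by simp)

theorem sum3_le {f : Fin 3 → L} (h : ∀ i, ‖f i‖ ≤ 1) : ‖∑ i, f i‖ ≤ 1 := by
  rw [Fin.sum_univ_three]
  exact (IsUltrametricDist.norm_add_le_max _ _).trans
    (max_le ((IsUltrametricDist.norm_add_le_max _ _).trans (max_le (h 0) (h 1))) (h 2))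

theorem Res.sum3 (h : Res π) {f : Fin 3 → L} (hf : ∀ i, ‖f i‖ ≤ 1) :
    π (∑ i, f i) = ∑ i, π (f i) := by
  rw [Fin.sum_univ_three, Fin.sum_univ_three, h.add _ _
    ((IsUltrametricDist.norm_add_le_max _ _).trans (max_le (hf 0) (hf 1))) (hf 2),
    h.add _ _ (hf 0) (hf 1)]

theorem mul_le1 {x y : L} (hx : ‖x‖ ≤ 1) (hy : ‖y‖ ≤ 1) : ‖x * y‖ ≤ 1 := by
  rw [norm_mul]; exact mul_le_one₀ hx (norm_nonneg _) hy

theorem sq_le1 {x : L} (hx : ‖x‖ ≤ 1) : ‖x ^ 2‖ ≤ 1 := by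
  rw [norm_pow]; exact pow_le_one₀ (norm_nonneg _) hx

theorem Res.sq (h : Res π) {x : L} (hx : ‖x‖ ≤ 1) : π (x ^ 2) = π x ^ 2 := by
  rw [pow_two, pow_two, h.mul _ _ hx hx]

theorem Res.ne (h : Res π) {x : L} (hx : π x ≠ 0) : x ≠ 0 := by
  rintro rfl; exact hx h.zero

variable {a : Fin 3 → Fin 3 → L} (ha : ∀ i j, ‖a i j‖ ≤ 1)

include ha in
theorem lf_le {y : Fin 3 → L} (hy : ∀ i, ‖y i‖ ≤ 1) (i : Fin 3) : ‖lf a y i‖ ≤ 1 :=
  sum3_le fun j => mul_le1 (ha i j) (sq_le1 (hy j))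

include ha in
theorem lf_red (h : Res π) {y : Fin 3 → L} (hy : ∀ i, ‖y i‖ ≤ 1) (i : Fin 3) :
    π (lf a y i) = lf (fun i j => π (a i j)) (fun j => π (y j)) i := by
  unfold lf
  rw [h.sum3 fun j => mul_le1 (ha i j) (sq_le1 (hy j))]
  exact Finset.sum_congr rfl fun j _ => by rw [h.mul _ _ (ha i j) (sq_le1 (hy j)), h.sq (hy j)]

include ha in
theorem fm_red (h : Res π) {x y : Fin 3 → L} (hx : ∀ i, ‖x i‖ ≤ 1) (hy : ∀ i, ‖y i‖ ≤ 1) :
    π (fm a x y) = fm (fun i j => π (a i j)) (fun j => π (x j)) (fun j => π (y j)) := by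
  unfold fm
  rw [h.sum3 fun j => mul_le1 (lf_le ha hy j) (sq_le1 (hx j))]
  exact Finset.sum_congr rfl fun j _ => by
    rw [h.mul _ _ (lf_le ha hy j) (sq_le1 (hx j)), h.sq (hx j), lf_red ha h hy]

include ha in
theorem pl_red (h : Res π) {x x' y : Fin 3 → L} (hx : ∀ i, ‖x i‖ ≤ 1) (hx' : ∀ i, ‖x' i‖ ≤ 1)
    (hy : ∀ i, ‖y i‖ ≤ 1) : π (pl a y x x') =
      pl (fun i j => π (a i j)) (fun j => π (y j)) (fun j => π (x j)) (fun j => π (x' j)) := by
  unfold pl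
  rw [h.sum3 fun j => mul_le1 (mul_le1 (lf_le ha hy j) (hx j)) (hx' j)]
  exact Finset.sum_congr rfl fun j _ => by
    rw [h.mul _ _ (mul_le1 (lf_le ha hy j) (hx j)) (hx' j), h.mul _ _ (lf_le ha hy j) (hx j),
      lf_red ha h hy]

end red

end Pool.Agent.T6.H77.DW
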