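import Pool.Agent.T6.H77.DW.Defs

/-!
# Diagonal hypersurfaces of bidegree (2, 2): statements of the modules (helper77)
-/

set_option autoImplicit false

namespace Pool.Agent.T6.H77.DW

/-- SC: two isotropic vectors of a smooth conic which are orthogonal are proportional -/
def StmSC : Prop := ∀ (k : Type) [Field k] (l x x' : Fin 3 → k), (∀ i, l i ≠ 0) →
  ∑ i, l i * x i ^ 2 = 0 → ∑ i, l i * x' i ^ 2 = 0 → ∑ i, l i * x i * x' i = 0 →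
  ∀ i j, x i * x' j = x j * x' i

/-- CNT: a nondegenerate diagonal ternary quadratic form over a finite field has `q²` zeros -/
def StmCNT : Prop := ∀ (k : Type) [Field k] [Fintype k], (2 : k) ≠ 0 → ∀ l : Fin 3 → k,
  (∀ i, l i ≠ 0) → {x : Fin 3 → k | ∑ i, l i * x i ^ 2 = 0}.ncard = Fintype.card k ^ 2

/-- FW: an application of the Weil bound -/
def StmFW : Prop := ∃ q₀ : ℕ, ∀ (k : Type) [Field k] [Fintype k], (2 : k) ≠ 0 →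
  q₀ ≤ Fintype.card k → ∀ p r : Fin 3 → k, (∀ i, p i ≠ 0) → (∀ i, r i ≠ 0) →
  (∀ i j, i ≠ j → p i * r j ≠ p j * r i) →
  ∃ (t c : k) (x : Fin 3 → k), t ≠ 0 ∧ c ≠ 0 ∧ (∀ i, x i ≠ 0) ∧ ∀ i, p i * t ^ 2 + r i = c * x i ^ 2

/-- C1: on a smooth conic `F(·, y) = 0` over a large finite field, almost all points are good -/
def StmC1 : Prop := ∀ (k : Type) [Field k] [Fintype k] (a : Fin 3 → Fin 3 → k), Gd a →
  ∀ y : Fin 3 → k, Ns y → (∀ i, lf a y i ≠ 0) → ∀ x : Fin 3 → k, x ≠ 0 → fm a x y = 0 →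
  Fintype.card k ^ 2 ≤ 30 * Fintype.card k +
    {x' : Fin 3 → k | fm a x' y = 0 ∧ (∀ j, lf (tr a) x' j ≠ 0) ∧ pl a y x x' ≠ 0}.ncard

/-- FN: from nice points to ordinary points over a large finite field -/
def StmFN : Prop := ∃ q₀ : ℕ, ∀ (k : Type) [Field k] [Fintype k], q₀ ≤ Fintype.card k →
  ∀ a : Fin 3 → Fin 3 → k, Gd a → ∀ x y : Fin 3 → k, Ns x → Ns y → fm a x y = 0 →
  ∃ p : (Fin 3 → k) × (Fin 3 → k), Ch a 2 (x, y) p ∧ Ord a p.1 p.2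

/-- MX: all but `O(q⁵ / |B|)` of the vectors `X` are orthogonal to at least `|B| / (2 q)` of the
vectors `L(y)`, `y ∈ B` -/
def StmMX : Prop := ∀ (k : Type) [Field k] [Fintype k] (a : Fin 3 → Fin 3 → k), Gd a →
  ∀ B : Set (Fin 3 → k), 0 ∉ B →
  {X : Fin 3 → k | 2 * Fintype.card k * {y | y ∈ B ∧ ∑ i, X i * lf a y i = 0}.ncard <
    B.ncard}.ncard * B.ncard ≤ 32 * Fintype.card k ^ 5

/-- FG: growth and mixing over a large finite field -/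
def StmFG : Prop := ∃ q₀ : ℕ, ∀ (k : Type) [Field k] [Fintype k], q₀ ≤ Fintype.card k →
  ∀ a : Fin 3 → Fin 3 → k, Gd a → ∀ x y x' y' : Fin 3 → k, Ord a x y → Ord a x' y' →
  ∃ x₁ y₂ x₁' y₂' z : Fin 3 → k,
    fm a x₁ y = 0 ∧ pl a y x x₁ ≠ 0 ∧ Ord a x₁ y₂ ∧ pl (tr a) x₁ y y₂ ≠ 0 ∧
    fm a x₁' y' = 0 ∧ pl a y' x' x₁' ≠ 0 ∧ Ord a x₁' y₂' ∧ pl (tr a) x₁' y' y₂' ≠ 0 ∧
    (∀ i, z i ≠ 0) ∧ Ord a z y₂ ∧ Ord a z y₂' ∧ pl a y₂ x₁ z ≠ 0 ∧ pl a y₂' x₁' z ≠ 0 ∧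
    pl (tr a) z y₂ y₂' ≠ 0 ∧ ∃ i i', lf a y₂ i * lf a y₂' i' ≠ lf a y₂ i' * lf a y₂' i

/-- H: square roots near `1` in complete ultrametric fields -/
def StmH : Prop := ∀ (L : Type) [NontriviallyNormedField L] [IsUltrametricDist L]
  [CompleteSpace L], ‖(2 : L)‖ = 1 → ∀ s : L, ‖s - 1‖ < 1 → ∃ r : L, r ^ 2 = s ∧ ‖r - 1‖ ≤ ‖s - 1‖

/-- U: good points of the conic `F(·, y) = 0` near an approximate point -/
def StmU : Prop := ∀ (L : Type) [NontriviallyNormedField L] [IsUltrametricDist L]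
  [CompleteSpace L], ‖(2 : L)‖ = 1 → ∀ (a : Fin 3 → Fin 3 → L) (y : Fin 3 → L),
  (∀ i, lf a y i ≠ 0) → (∀ j, ∃ i i', lf a y i * a i' j ≠ lf a y i' * a i j) →
  ∀ (x : Fin 3 → L) (p : Fin 3), x p ≠ 0 → ∀ δ : ℝ, 0 < δ → δ < 1 →
  ‖fm a x y‖ ≤ δ * (‖lf a y p‖ * ‖x p‖ ^ 2) →
  ∃ x' : Fin 3 → L, fm a x' y = 0 ∧ (∀ j, lf (tr a) x' j ≠ 0) ∧ ∀ i, ‖x' i - x i‖ ≤ δ * ‖x p‖

/-- LIFT: moves over the residue field lift -/
def StmLIFT : Prop := ∀ (L k : Type) [NontriviallyNormedField L] [IsUltrametricDist L]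
  [CompleteSpace L] [Field k] (π : L → k), Res π → ∀ a : Fin 3 → Fin 3 → L,
  (∀ i j, ‖a i j‖ ≤ 1) → Gd (fun i j => π (a i j)) → ∀ x y : Fin 3 → L, Ord a x y →
  (∀ i, ‖x i‖ ≤ 1) → (∀ i, ‖y i‖ ≤ 1) → ∀ z : Fin 3 → k,
  fm (fun i j => π (a i j)) z (fun i => π (y i)) = 0 →
  pl (fun i j => π (a i j)) (fun i => π (y i)) (fun i => π (x i)) z ≠ 0 →
  ∃ x' : Fin 3 → L, (∀ i, ‖x' i‖ ≤ 1) ∧ (∀ i, π (x' i) = z i) ∧ Ord a x' y ∧ pl a y x x' ≠ 0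

/-- ESC: escape from the points whose reduction has a special second component -/
def StmESC : Prop := ∃ q₀ : ℕ, ∀ (L k : Type) [NontriviallyNormedField L] [IsUltrametricDist L]
  [CompleteSpace L] [Field k] [Fintype k] (π : L → k), Res π → q₀ ≤ Fintype.card k →
  ∀ a : Fin 3 → Fin 3 → L, (∀ i j, ‖a i j‖ ≤ 1) → Gd (fun i j => π (a i j)) →
  ∀ x y : Fin 3 → L, Ord a x y → (∀ i, ‖x i‖ ≤ 1) → (∀ i, ‖y i‖ ≤ 1) →
  (∃ i, π (x i) ≠ 0) → (∃ j, π (y j) ≠ 0) → ¬ Ns (fun i => π (y i)) →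
  ∃ x' y' : Fin 3 → L, (∀ i, ‖x' i‖ ≤ 1) ∧ (∀ i, ‖y' i‖ ≤ 1) ∧ Ord a x' y' ∧
    Cn a 2 (x, y) (x', y') ∧ Ns (fun i => π (x' i)) ∧ Ns (fun i => π (y' i))

/-- LINK: the exact link in the middle -/
def StmLINK : Prop := ∀ (L k : Type) [NontriviallyNormedField L] [IsUltrametricDist L]
  [CompleteSpace L] [Field k] (π : L → k), Res π → ∀ a : Fin 3 → Fin 3 → L,
  (∀ i j, ‖a i j‖ ≤ 1) → Gd (fun i j => π (a i j)) → ∀ y y' : Fin 3 → L,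
  (∀ i, ‖y i‖ ≤ 1) → (∀ i, ‖y' i‖ ≤ 1) → ∀ z : Fin 3 → k, (∀ i, z i ≠ 0) →
  fm (fun i j => π (a i j)) z (fun i => π (y i)) = 0 →
  fm (fun i j => π (a i j)) z (fun i => π (y' i)) = 0 →
  (∃ i i', π (lf a y i) * π (lf a y' i') ≠ π (lf a y i') * π (lf a y' i)) →
  ∃ x : Fin 3 → L, (∀ i, ‖x i‖ ≤ 1) ∧ (∀ i, π (x i) = z i) ∧ fm a x y = 0 ∧ fm a x y' = 0

/-- LOC: ordinary points over a local field with large residue field are joined by moves -/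
def StmLOC : Prop := ∃ N q₀ : ℕ, ∀ (L k : Type) [NontriviallyNormedField L]
  [IsUltrametricDist L] [CompleteSpace L] [Field k] [Fintype k] (π : L → k), Res π →
  q₀ ≤ Fintype.card k → ∀ a : Fin 3 → Fin 3 → L, (∀ i j, ‖a i j‖ ≤ 1) →
  Gd (fun i j => π (a i j)) → ∀ p q : (Fin 3 → L) × (Fin 3 → L), Ord a p.1 p.2 →
  Ord a q.1 q.2 → Cn a N p q

/-- DEN: ordinary points are dense -/
def StmDEN : Prop := ∀ (L : Type) [NontriviallyNormedField L] [IsUltrametricDist L]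
  [CompleteSpace L], ‖(2 : L)‖ = 1 → ∀ a : Fin 3 → Fin 3 → L, Gd a → ∀ x y : Fin 3 → L,
  x ≠ 0 → y ≠ 0 → fm a x y = 0 → ∀ ε : ℝ, 0 < ε →
  ∃ x' y' : Fin 3 → L, Ord a x' y' ∧ ∀ i, ‖x' i - x i‖ < ε ∧ ‖y' i - y i‖ < ε

/-- CLO: the closure of the rational points is stable under moves -/
def StmCLO : Prop := ∀ (K ι : Type) [Field K] (L : ι → Type) [∀ v, NontriviallyNormedField (L v)]
  (σ : ∀ v, K →+* L v), (DenseRange fun (b : K) (v : ι) => σ v b) →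
  ∀ (a : Fin 3 → Fin 3 → K) (N : ℕ) (P Q : ∀ v, (Fin 3 → L v) × (Fin 3 → L v)),
  (∀ v, (2 : L v) ≠ 0) → (∀ v, Ord (fun i j => σ v (a i j)) (P v).1 (P v).2) →
  (∀ v, Cn (fun i j => σ v (a i j)) N (P v) (Q v)) →
  P ∈ closure {S : ∀ v, (Fin 3 → L v) × (Fin 3 → L v) | ∃ x y : Fin 3 → K, fm a x y = 0 ∧
    S = fun v => (fun i => σ v (x i), fun i => σ v (y i))} →
  Q ∈ closure {S : ∀ v, (Fin 3 → L v) × (Fin 3 → L v) | ∃ x y : Fin 3 → K, fm a x y = 0 ∧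
    S = fun v => (fun i => σ v (x i), fun i => σ v (y i))}

/-- ENT: a rational point with both components non-special gives an ordinary one -/
def StmENT : Prop := ∀ (K : Type) [Field K] [Infinite K] (a : Fin 3 → Fin 3 → K), Gd a →
  ∀ x y : Fin 3 → K, Ns x → Ns y → fm a x y = 0 → ∃ x' y' : Fin 3 → K, Ord a x' y'

end Pool.Agent.T6.H77.DW
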